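import Pool.Agent.Work.MP_0acc7f_lc.Moves

/-!
# If the formula is satisfiable, then the target is reached
-/

set_option autoImplicit false
set_option linter.unusedVariables false
set_option linter.unusedSectionVars false
set_option linter.unusedSimpArgs false

namespace Pool.Agent.Reach

open J

/-- Agents. -/
abbrev mP (x : ℕ) (b : Bool) : J ⊕ J := .inl (pe x b)
abbrev mD (x : ℕ) (b : Bool) : J ⊕ J := .inl (dq x b)
abbrev mH (c k : ℕ) : J ⊕ J := .inl (hv c k)
abbrev mU (c : ℕ) (b : Bool) : J ⊕ J := .inl (uw c b)
abbrev wE (x : ℕ) (b : Bool) : J ⊕ J := .inr (pe x b)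
abbrev wQ (x : ℕ) (b : Bool) : J ⊕ J := .inr (dq x b)
abbrev wV (c k : ℕ) : J ⊕ J := .inr (hv c k)
abbrev wW (c : ℕ) (b : Bool) : J ⊕ J := .inr (uw c b)

/-- The only agent whom an agent prefers to its target partner. -/
def btr (φ : CNF) : J ⊕ J → Option (J ⊕ J)
  | .inl (dq x b) => some (wQ x b)
  | .inl (hv c k) => some (wQ (lit φ c k).2 (lit φ c k).1)
  | .inr (pe x b) => some (mP x b)
  | .inr (dq x b) => some (mP x b)
  | .inr (uw c b) => some (mU c b)
  | _ => none

theorem bef_btr (φ : CNF) (y t : J ⊕ J) : Bef (top φ y) t (tgtA y) ↔ btr φ y = some t := by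
  rcases y with (⟨x, b⟩ | ⟨x, b⟩ | ⟨c, k⟩ | ⟨c, b⟩) | (⟨x, b⟩ | ⟨x, b⟩ | ⟨c, k⟩ | ⟨c, b⟩)
  · simp only [top, manTop, List.map_cons, List.map_nil, tgtA, tgt, bef_cons, ne_eq,
      not_true_eq_false, Sum.inr.injEq, dq.injEq, Bool.not_eq_eq_eq_not, Bool.eq_not_self,
      and_false, not_false_eq_true, reduceCtorEq, bef_nil, or_false, true_and, false_and, btr]
  · simp only [top, manTop, List.map_cons, List.map_nil, tgtA, tgt, bef_cons, ne_eq, eq_comm,
      Sum.inr.injEq, reduceCtorEq, not_false_eq_true, not_true_eq_false, bef_nil, or_false,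
      false_and, true_and, btr, Option.some.injEq]
  · simp only [top, manTop, List.map_cons, List.map_nil, tgtA, tgt, bef_cons, ne_eq, eq_comm,
      Sum.inr.injEq, reduceCtorEq, not_false_eq_true, not_true_eq_false, bef_nil, or_false,
      false_and, true_and, btr, Option.some.injEq]
  · cases b <;> simp [top, manTop, tgtA, tgt, btr, bef_cons]
  · simp only [top, womanTop, List.map_cons, List.map_nil, tgtA, tgt, bef_cons, ne_eq,
      Sum.inl.injEq, reduceCtorEq, not_false_eq_true, not_true_eq_false, bef_nil, or_false,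
      false_and, true_and, btr, eq_comm, Option.some.injEq]
  · simp only [top, womanTop, List.map_cons, tgtA, tgt, bef_cons, ne_eq, eq_comm, Sum.inl.injEq,
      pe.injEq, Bool.eq_not_self, and_false, not_false_eq_true, not_true_eq_false, reduceCtorEq,
      true_and, false_and, or_false, btr, Option.some.injEq]
  · simp only [top, womanTop, List.map_cons, List.map_nil, tgtA, tgt, bef_cons, ne_eq,
      not_true_eq_false, Sum.inl.injEq, reduceCtorEq, not_false_eq_true, bef_nil, or_false,
      true_and, false_and, btr]
  · simp only [top, womanTop, List.map_cons, List.map_nil, tgtA, tgt, bef_cons, ne_eq, eq_comm,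
      Sum.inl.injEq, uw.injEq, Bool.eq_not_self, and_false, not_false_eq_true, not_true_eq_false,
      bef_nil, or_false, false_and, true_and, btr, Option.some.injEq]

theorem tgtA_mem (φ : CNF) (y : J ⊕ J) : tgtA y ∈ top φ y := by
  rcases y with (⟨x, b⟩ | ⟨x, b⟩ | ⟨c, k⟩ | ⟨c, b⟩) | (⟨x, b⟩ | ⟨x, b⟩ | ⟨c, k⟩ | ⟨c, b⟩)
  · simp only [top, manTop, List.map_cons, List.map_nil, tgtA, tgt, List.mem_cons, Sum.inr.injEq,
      dq.injEq, Bool.not_eq_eq_eq_not, Bool.eq_not_self, and_false, reduceCtorEq,
      List.not_mem_nil, or_self, or_false]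
  · simp only [top, manTop, List.map_cons, List.map_nil, tgtA, tgt, List.mem_cons, Sum.inr.injEq,
      reduceCtorEq, List.not_mem_nil, or_false, or_true]
  · simp only [top, manTop, List.map_cons, List.map_nil, tgtA, tgt, List.mem_cons, Sum.inr.injEq,
      reduceCtorEq, List.not_mem_nil, or_false, or_true]
  · cases b <;> simp [top, manTop, tgtA, tgt]
  · simp only [top, womanTop, List.map_cons, List.map_nil, tgtA, tgt, List.mem_cons,
      Sum.inl.injEq, reduceCtorEq, List.not_mem_nil, or_false, or_true]
  · simp only [top, womanTop, List.map_cons, tgtA, tgt, List.mem_cons, Sum.inl.injEq, pe.injEq,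
      Bool.not_eq_eq_eq_not, Bool.eq_not_self, and_false, reduceCtorEq, List.mem_map,
      exists_eq_right, false_or, true_or, or_true]
  · simp only [top, womanTop, List.map_cons, List.map_nil, tgtA, tgt, List.mem_cons,
      Sum.inl.injEq, reduceCtorEq, List.not_mem_nil, or_self, or_false]
  · simp only [top, womanTop, List.map_cons, List.map_nil, tgtA, tgt, List.mem_cons,
      Sum.inl.injEq, uw.injEq, Bool.not_eq_eq_eq_not, Bool.eq_not_self, and_false,
      List.not_mem_nil, or_false, or_true]

theorem pr_tgt {φ : CNF} {y t : J ⊕ J} : (mkt φ).pr y t (tgtA y) ↔ btr φ y = some t := by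
  rw [pr_iff (tgtA_mem φ y), bef_btr]

open Classical in
/-- Target partners on `T`, initial partners elsewhere. -/
noncomputable def stM (φ : CNF) (T : Set J) (a : J ⊕ J) : Option (J ⊕ J) :=
  if idx a ∈ T then some (tgtA a) else ini φ a

/-- The agents of the list `Sp` and the agents with index in `T`. -/
def SS (Sp : List (J ⊕ J)) (T : Set J) : Set (J ⊕ J) := {a | a ∈ Sp ∨ idx a ∈ T}

theorem insert_SS (a : J ⊕ J) (Sp : List (J ⊕ J)) (T : Set J) :
    insert a (SS Sp T) = SS (a :: Sp) T := by
  ext y; simp [SS, or_assoc]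

theorem SS_forall {Sp : List (J ⊕ J)} {T : Set J} {P : J ⊕ J → Prop} (h1 : ∀ w ∈ Sp, P w)
    (h2 : ∀ w, idx w ∈ T → P w) : ∀ w ∈ SS Sp T, P w := by
  rintro w (h | h)
  · exact h1 w h
  · exact h2 w h

variable {φ : CNF} {T : Set J} {x : ℕ} {b : Bool}

theorem stM_inl {j : J} (h : j ∉ T) (h' : j ∈ Js φ) : stM φ T (.inl j) = some (.inr j) := by
  simp only [stM, idx_inl, h, ↓reduceIte, ini, h', swp]

theorem stM_inr {j : J} (h : j ∉ T) (h' : j ∈ Js φ) : stM φ T (.inr j) = some (.inl j) := by
  simp only [stM, idx_inr, h, ↓reduceIte, ini, h', swp]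

theorem ov_T {l : List ((J ⊕ J) × Option (J ⊕ J))} (hl : ∀ e ∈ l, idx e.1 ∉ T) {w : J ⊕ J}
    (hw : idx w ∈ T) : ov l (stM φ T) w = some (tgtA w) := by
  rw [ov_of (fun e he h => hl e he (h ▸ hw))]
  simp only [stM, hw, ↓reduceIte]

/-- Situation during the treatment of the variable `x` with value `b`. -/
structure Ph (φ : CNF) (T : Set J) (x : ℕ) (b : Bool) : Prop where
  hx : x < bound φ
  hp : ∀ b', pe x b' ∉ T
  hq : ∀ b', dq x b' ∉ T
  H : ∀ y t, idx y ∈ T → btr φ y = some t → idx t ∈ T ∨ t = wQ x b

theorem Ph.rej (h : Ph φ T x b) {p w : J ⊕ J} (hp : idx p ∉ T) (hp' : p ≠ wQ x b)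
    (hw : idx w ∈ T) : ¬ (mkt φ).pr w p (tgtA w) := by
  rw [pr_tgt]
  intro e
  rcases h.H w p hw e with h1 | h1
  · exact hp h1
  · exact hp' h1

/-- Agents of `T` do not accept `p`. -/
theorem Ph.best (h : Ph φ T x b) {p y : J ⊕ J} (hp : idx p ∉ T) (hp' : p ≠ wQ x b)
    {l : List ((J ⊕ J) × Option (J ⊕ J))} (hl : ∀ e ∈ l, idx e.1 ∉ T) {Sp : List (J ⊕ J)}
    (hb : ∀ w ∈ Sp, (mkt φ).opp p w → (∀ c, ov l (stM φ T) w = some c → (mkt φ).pr w p c) →
      w = y ∨ (mkt φ).pr p y w) :
    ∀ w ∈ SS Sp T, (mkt φ).opp p w → (∀ c, ov l (stM φ T) w = some c → (mkt φ).pr w p c) →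
      w = y ∨ (mkt φ).pr p y w := by
  refine SS_forall hb fun w hw _ h2 => ?_
  exact absurd (h2 _ (ov_T hl hw)) (h.rej hp hp' hw)

theorem Ph.stop (h : Ph φ T x b) {p : J ⊕ J} (hp : idx p ∉ T) (hp' : p ≠ wQ x b)
    {l : List ((J ⊕ J) × Option (J ⊕ J))} (hl : ∀ e ∈ l, idx e.1 ∉ T) {Sp : List (J ⊕ J)}
    (hb : ∀ w ∈ Sp, (mkt φ).opp p w → ∃ c, ov l (stM φ T) w = some c ∧ ¬ (mkt φ).pr w p c) :
    ∀ w ∈ SS Sp T, (mkt φ).opp p w → ∃ c, ov l (stM φ T) w = some c ∧ ¬ (mkt φ).pr w p c :=
  SS_forall hb fun w hw _ => ⟨_, ov_T hl hw, h.rej hp hp' hw⟩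

/-- Reachable states. -/
def Rch (φ : CNF) (μ : J ⊕ J → Option (J ⊕ J)) (S : Set (J ⊕ J)) : Prop :=
  Relation.ReflTransGen (mkt φ).Step (ini φ, ∅) (μ, S)

theorem Rch.inv {μ : J ⊕ J → Option (J ⊕ J)} {S : Set (J ⊕ J)} (h : Rch φ μ S) :
    Inv (mkt φ) (ini φ) (μ, S) := by
  have key : ∀ s, Relation.ReflTransGen (mkt φ).Step (ini φ, ∅) s →
      Inv (mkt φ) (ini φ) s := by
    intro s hs
    induction hs with
    | refl => exact Inv.init (ini_sym φ) (ini_opp φ)
    | tail h1 h2 ih => exact ih.step (mkt_good φ) (ini_sym φ) h2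
  exact key _ h

theorem Rch.cl {μ : J ⊕ J → Option (J ⊕ J)} {S : Set (J ⊕ J)} (h : Rch φ μ S) :
    Closed (mkt φ) S μ := h.inv.closed

theorem Rch.tail {μ μ' : J ⊕ J → Option (J ⊕ J)} {S S' : Set (J ⊕ J)} (h : Rch φ μ S)
    (h' : (mkt φ).Step (μ, S) (μ', S')) : Rch φ μ' S' := Relation.ReflTransGen.tail h h'

theorem Rch.congr {μ μ' : J ⊕ J → Option (J ⊕ J)} {S S' : Set (J ⊕ J)} (h : Rch φ μ S)
    (e : μ' = μ) (e' : S' = S) : Rch φ μ' S' := by
  subst e
  subst e'
  exact h

theorem pr_mem {y p c : J ⊕ J} (hc : c ∈ top φ y) (h : (mkt φ).pr y p c) : p ∈ top φ y := by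
  rw [pr_iff hc] at h
  exact bef_mem h

@[simp] theorem opp_ll (i j : J) : ¬ (mkt φ).opp (.inl i) (.inl j) := fun h => h.1 rfl

@[simp] theorem opp_rr (i j : J) : ¬ (mkt φ).opp (.inr i) (.inr j) := fun h => h.1 rfl

theorem pr_false {y p c : J ⊕ J} (hc : c ∈ top φ y) (hp : p ∉ top φ y) :
    (mkt φ).pr y p c ↔ False := ⟨fun h => hp (pr_mem hc h), False.elim⟩

/-- Special agents and values in the first states of a phase. -/
abbrev LP (x : ℕ) (b : Bool) : List ((J ⊕ J) × Option (J ⊕ J)) :=
  [(mP x b, some (wQ x !b)), (wQ x !b, some (mP x b)), (wE x b, none), (mD x b, none)]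

abbrev S0 (x : ℕ) (b : Bool) : List (J ⊕ J) := [mP x b, wQ x b, wQ x !b, mD x !b]

/-- Situation during the treatment of the clause `c` using its literal number `k`. -/
structure Cl (φ : CNF) (T : Set J) (x : ℕ) (b : Bool) (c k : ℕ) : Prop extends Ph φ T x b where
  hc : c < φ.length
  hk : k < (cl φ c).length
  hl : lit φ c k = (b, x)
  hh : ∀ k', hv c k' ∉ T
  hu : ∀ b', uw c b' ∉ T

theorem bef_false {α : Type} [DecidableEq α] {l : List α} {p c : α} (hp : p ∉ l) :
    Bef l p c ↔ False := ⟨fun h => hp (bef_mem h), False.elim⟩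

theorem pr_true {y p c : J ⊕ J} (hp : p ∈ top φ y) (hc : c ∉ top φ y) :
    (mkt φ).pr y p c ↔ True := ⟨fun _ => trivial, fun _ => pr_of_top hp hc⟩

theorem U1_rej {c k : ℕ} (hk : k < (cl φ c).length) :
    (mkt φ).pr (mU c true) (wW c true) (wV c k) ↔ False := by
  rw [pr_iff (by simp [top, manTop, hk])]
  simp only [top, manTop, List.map_cons, List.map_append, List.map_map, List.map_nil, bef_cons]
  rw [bef_append_left (by simp [hk]), bef_false (by simp)]
  simp only [ne_eq, Sum.inr.injEq, reduceCtorEq, not_false_eq_true, uw.injEq, Bool.true_eq_false,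
    and_false, or_self]

theorem stM_insert {j : J} {a : J ⊕ J} (h1 : a ≠ .inl j) (h2 : a ≠ .inr j) :
    stM φ (insert j T) a = stM φ T a := by
  have h0 : idx a ≠ j := by
    rcases a with a | a
    · simpa using h1
    · simpa using h2
  have h3 : idx a ∈ insert j T ↔ idx a ∈ T := by
    rw [Set.mem_insert_iff]
    exact or_iff_right h0
  by_cases h4 : idx a ∈ T
  · simp only [stM, h3.2 h4, ↓reduceIte, h4]
  · simp only [stM, Set.mem_insert_iff, h0, h4, or_self, ↓reduceIte]

theorem SS_insert {j : J} {Sp : List (J ⊕ J)} (h1 : .inl j ∈ Sp) (h2 : .inr j ∈ Sp) :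
    SS Sp T = SS (Sp.filter (fun a => idx a ≠ j)) (insert j T) := by
  ext a
  simp only [SS, Set.mem_ofPred_eq, List.mem_filter, decide_eq_true_eq, Set.mem_insert_iff]
  by_cases h : idx a = j
  · simp only [h, true_or, or_true, iff_true]
    left
    rcases a with a | a
    · cases h; exact h1
    · cases h; exact h2
  · simp only [ne_eq, h, not_false_eq_true, and_true, false_or]

theorem pr_head {a y w : J ⊕ J} {l : List (J ⊕ J)} (h : top φ a = y :: l) :
    w = y ∨ (mkt φ).pr a y w := by
  by_cases e : w = y
  · exact Or.inl e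
  · right
    by_cases h2 : w ∈ top φ a
    · rw [pr_iff h2, h, bef_cons]
      exact ⟨e, Or.inl rfl⟩
    · exact pr_of_top (by rw [h]; simp) h2

/-- The state when `d` holds the woman `Q`. -/
def StN (φ : CNF) (T : Set J) (x : ℕ) (b : Bool) : Prop :=
  Rch φ (ov ([(wQ x b, some (mD x !b)), (mD x !b, some (wQ x b))] ++ LP x b) (stM φ T))
    (SS (S0 x b) T)

/-- The state when the man of a literal holds the woman `Q`. -/
def StC (φ : CNF) (T : Set J) (x : ℕ) (b : Bool) (c k : ℕ) : Prop :=
  Rch φ (ov ([(wQ x b, some (mH c k)), (mH c k, some (wQ x b)), (mD x !b, some (wV c k)),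
      (wV c k, some (mD x !b))] ++ LP x b) (stM φ T)) (SS (wV c k :: mH c k :: S0 x b) T)

/-- The state when the man of a literal holds the woman `Q` and `d` is free. -/
def StR (φ : CNF) (T : Set J) (x : ℕ) (b : Bool) (c k : ℕ) : Prop :=
  Rch φ (ov ([(wQ x b, some (mH c k)), (mH c k, some (wQ x b)), (mD x !b, none),
      (wV c k, none)] ++ LP x b) (stM φ T)) (SS (mH c k :: S0 x b) T)

theorem Cl.n1 {c k : ℕ} (h : Cl φ T x b c k) (hR : StN φ T x b) : StR φ T x b c k := by
  have hx := h.hx
  have hp := h.hp
  have hq := h.hq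
  have hc := h.hc
  have hk := h.hk
  have hh := h.hh
  have hu := h.hu
  have hl := h.hl
  unfold StN at hR
  unfold StR
  have h1 := enter_take (mkt_good φ) hR.cl (a := mH c k) (a' := wV c k) (y := wQ x b)
    (z := mD x !b) (by simp [SS, hh]) (by simp [SS]) (by simp [stM_inl, hh, hc, hk])
    (by simp) ⟨by simp, by simp [hc, hk], by simp [hx]⟩
    ((pr_iff (by simp [top, manTop])).2 (by simp [top, manTop, bef_cons, hl]))
    (pr_of_top (by simp [top, womanTop, mem_occ, hc, hk, hl])
      (by simp [top, womanTop, mem_occ]))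
    (fun w _ _ _ => pr_head (l := [wV c k]) (by simp [top, manTop, hl]))
    ?_
  · rw [insert_SS, ← ov_append] at h1
    have h2 := hR.tail h1
    refine h2.congr ?_ rfl
    refine ov_ext ?_ ?_ ?_
    · simp only [List.cons_append, List.nil_append, List.mem_cons, List.not_mem_nil, or_false,
        ov_cons, ov_nil, forall_eq_or_imp, ↓reduceIte, reduceCtorEq, Sum.inl.injEq, Sum.inr.injEq,
        dq.injEq, Bool.not_eq_eq_eq_not, Bool.eq_not_self, and_false, forall_eq, and_self]
    · simp only [List.cons_append, List.nil_append, List.mem_cons, List.not_mem_nil, or_false,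
        ov_cons, ov_nil, forall_eq_or_imp, reduceCtorEq, ↓reduceIte, Sum.inl.injEq, Sum.inr.injEq,
        dq.injEq, Bool.not_eq_eq_eq_not, Bool.eq_not_self, and_false, forall_eq, and_self]
    · intros; rfl
  · rw [insert_SS, ← ov_append]
    refine h.toPh.stop (by simp [hq]) (by simp) (by simp [hp, hq, hh, hu]) ?_
    simp only [List.mem_cons, List.not_mem_nil, or_false, List.cons_append, List.nil_append,
      ov_cons, ov_nil, Sum.exists, forall_eq_or_imp, opp_ll, ↓reduceIte, Option.some.injEq,
      reduceCtorEq, false_and, exists_false, Sum.inr.injEq, exists_eq_left', top, manTop, hl,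
      List.map_cons, List.map_nil, or_self, not_false_eq_true, pr_false, or_true, implies_true,
      Sum.inl.injEq, dq.injEq, Bool.not_eq_eq_eq_not, Bool.eq_not_self, and_false, womanTop,
      List.mem_map, mem_occ, exists_eq_right, hv.injEq, ↓existsAndEq, and_true, hc, hk, and_self,
      exists_const, Bool.not_not, pe.injEq, pr_iff, bef_cons, ne_eq, not_true_eq_false, bef_false,
      forall_eq, imp_self]

theorem Cl.k12 {c k : ℕ} (h : Cl φ T x b c k) (hR : StR φ T x b c k) : StC φ T x b c k := by
  have hx := h.hx
  have hp := h.hp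
  have hq := h.hq
  have hc := h.hc
  have hk := h.hk
  have hh := h.hh
  have hu := h.hu
  have hl := h.hl
  unfold StR at hR
  unfold StC
  have h1 := enter_free (mkt_good φ) hR.cl (a := wV c k) (y := mD x !b)
    (by simp [SS, hh]) (by simp [SS]) (by simp)
    (by simp) ⟨by simp, by simp [hc, hk], by simp [hx]⟩
    (h.toPh.best (by simp [hh]) (by simp) (by simp [hp, hq, hh]) ?_)
  · rw [insert_SS, ← ov_append] at h1
    have h2 := hR.tail h1
    refine h2.congr ?_ rfl
    refine ov_ext ?_ ?_ ?_
    · simp only [List.cons_append, List.nil_append, List.mem_cons, List.not_mem_nil, or_false,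
        ov_cons, ov_nil, forall_eq_or_imp, ↓reduceIte, Sum.inr.injEq, reduceCtorEq, Sum.inl.injEq,
        dq.injEq, Bool.not_eq_eq_eq_not, Bool.eq_not_self, and_false, forall_eq, and_self]
    · simp only [List.cons_append, List.nil_append, List.mem_cons, List.not_mem_nil, or_false,
        ov_cons, ov_nil, forall_eq_or_imp, Sum.inr.injEq, reduceCtorEq, ↓reduceIte, Sum.inl.injEq,
        dq.injEq, Bool.not_eq_eq_eq_not, Bool.eq_not_self, and_false, forall_eq, and_self]
    · intros; rfl
  · simp only [List.mem_cons, List.not_mem_nil, or_false, List.cons_append, List.nil_append,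
      ov_cons, ov_nil, Sum.forall, and_imp, forall_eq_or_imp, reduceCtorEq, ↓reduceIte,
      Option.some.injEq, IsEmpty.forall_iff, implies_true, Sum.inr.injEq, forall_eq', top, manTop,
      hl, List.map_cons, List.map_nil, or_self, pr_iff, bef_cons, ne_eq, not_true_eq_false,
      not_false_eq_true, bef_false, and_self, or_true, and_true, Sum.inl.injEq, womanTop,
      pr_false, imp_self, dq.injEq, Bool.not_eq_eq_eq_not, Bool.eq_not_self, and_false, false_or,
      opp_rr, List.mem_map, mem_occ, exists_eq_right, hv.injEq, ↓existsAndEq, exists_eq_left', hc,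
      hk, exists_false, forall_const, Bool.not_not, pe.injEq, false_and, exists_const, forall_eq,
      true_or]

theorem Cl.k23 {c k : ℕ} (h : Cl φ T x b c k)
    (hR : StC φ T x b c k) :
    Rch φ (ov ([(wQ x b, some (mH c k)), (mH c k, some (wQ x b)), (mD x !b, none),
      (wV c k, some (mU c true)), (mU c true, some (wV c k)), (wW c true, none)] ++ LP x b)
      (stM φ T)) (SS (mU c true :: wV c k :: mH c k :: S0 x b) T) := by
  have hx := h.hx
  have hp := h.hp
  have hq := h.hq
  have hc := h.hc
  have hk := h.hk
  have hh := h.hh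
  have hu := h.hu
  have hl := h.hl
  unfold StC at hR
  have h1 := enter_take (mkt_good φ) hR.cl (a := mU c true) (a' := wW c true) (y := wV c k)
    (z := mD x !b) (by simp [SS, hu]) (by simp [SS]) (by simp [stM_inl, hu, hc])
    (by simp) ⟨by simp, by simp [hc], by simp [hc, hk]⟩
    ((pr_iff (by simp [top, manTop])).2
      (by simp [top, manTop, bef_cons]; exact (bef_append_right (by simp)).2 (by simp [hk])))
    (pr_of_top (by simp [top, womanTop]) (by simp [top, womanTop]))
    (h.toPh.best (by simp [hu]) (by simp) (by simp [hp, hq, hh]) ?_)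
    ?_
  · rw [insert_SS, ← ov_append] at h1
    have h2 := hR.tail h1
    refine h2.congr ?_ rfl
    refine ov_ext ?_ ?_ ?_
    · simp only [List.cons_append, List.nil_append, List.mem_cons, List.not_mem_nil, or_false,
        ov_cons, ov_nil, forall_eq_or_imp, ↓reduceIte, reduceCtorEq, Sum.inr.injEq, Sum.inl.injEq,
        dq.injEq, Bool.not_eq_eq_eq_not, Bool.eq_not_self, and_false, forall_eq, and_self]
    · simp only [List.cons_append, List.nil_append, List.mem_cons, List.not_mem_nil, or_false,
        ov_cons, ov_nil, forall_eq_or_imp, reduceCtorEq, ↓reduceIte, Sum.inl.injEq, Sum.inr.injEq,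
        dq.injEq, Bool.not_eq_eq_eq_not, Bool.eq_not_self, and_false, forall_eq, and_self]
    · intros; rfl
  · simp [pr_false, pr_iff, bef_cons, bef_false, top, manTop, womanTop, mem_occ, hc, hk, hl]
  · rw [insert_SS, ← ov_append]
    refine h.toPh.stop (by simp [hq]) (by simp) (by simp [hp, hq, hh, hu]) ?_
    simp only [List.mem_cons, List.not_mem_nil, or_false, List.cons_append, List.nil_append,
      ov_cons, ov_nil, Sum.exists, forall_eq_or_imp, opp_ll, ↓reduceIte, Option.some.injEq,
      reduceCtorEq, false_and, exists_false, Sum.inr.injEq, exists_eq_left', top, manTop,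
      List.map_cons, List.map_append, List.map_map, List.map_nil, List.mem_append, List.mem_map,
      List.mem_range, Function.comp_apply, hv.injEq, true_and, exists_eq_right, hk, or_self,
      or_true, and_false, exists_const, not_false_eq_true, pr_false, implies_true, Sum.inl.injEq,
      womanTop, hl, dq.injEq, Bool.not_eq_eq_eq_not, Bool.eq_not_self, mem_occ, ↓existsAndEq,
      and_true, hc, and_self, Bool.not_not, pe.injEq, pr_iff, bef_cons, ne_eq, not_true_eq_false,
      bef_false, forall_eq, imp_self]

theorem Cl.k34 {c k : ℕ} (h : Cl φ T x b c k)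
    (hR : Rch φ (ov ([(wQ x b, some (mH c k)), (mH c k, some (wQ x b)), (mD x !b, none),
      (wV c k, some (mU c true)), (mU c true, some (wV c k)), (wW c true, none)] ++ LP x b)
      (stM φ T)) (SS (mU c true :: wV c k :: mH c k :: S0 x b) T)) :
    Rch φ (ov ([(wQ x b, some (mH c k)), (mH c k, some (wQ x b)), (mD x !b, some (wW c true)),
      (wV c k, some (mU c true)), (mU c true, some (wV c k)), (wW c true, some (mD x !b))] ++
      LP x b) (stM φ T)) (SS (wW c true :: mU c true :: wV c k :: mH c k :: S0 x b) T) := by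
  have hx := h.hx
  have hp := h.hp
  have hq := h.hq
  have hc := h.hc
  have hk := h.hk
  have hh := h.hh
  have hu := h.hu
  have hl := h.hl
  have h1 := enter_free (mkt_good φ) hR.cl (a := wW c true) (y := mD x !b)
    (by simp [SS, hu]) (by simp [SS]) (by simp)
    (by simp) ⟨by simp, by simp [hc], by simp [hx]⟩
    (h.toPh.best (by simp [hu]) (by simp) (by simp [hp, hq, hh, hu]) ?_)
  · rw [insert_SS, ← ov_append] at h1
    have h2 := hR.tail h1
    refine h2.congr ?_ rfl
    refine ov_ext ?_ ?_ ?_
    · simp only [List.cons_append, List.nil_append, List.mem_cons, List.not_mem_nil, or_false,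
        ov_cons, ov_nil, forall_eq_or_imp, ↓reduceIte, Sum.inr.injEq, reduceCtorEq, Sum.inl.injEq,
        dq.injEq, Bool.not_eq_eq_eq_not, Bool.eq_not_self, and_false, forall_eq, and_self]
    · simp only [List.cons_append, List.nil_append, List.mem_cons, List.not_mem_nil, or_false,
        ov_cons, ov_nil, forall_eq_or_imp, Sum.inr.injEq, reduceCtorEq, ↓reduceIte, Sum.inl.injEq,
        dq.injEq, Bool.not_eq_eq_eq_not, Bool.eq_not_self, and_false, forall_eq, and_self]
    · intros; rfl
  · simp only [List.mem_cons, List.not_mem_nil, or_false, List.cons_append, List.nil_append,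
      ov_cons, ov_nil, Sum.forall, and_imp, forall_eq_or_imp, reduceCtorEq, ↓reduceIte,
      Sum.inl.injEq, Option.some.injEq, IsEmpty.forall_iff, implies_true, Sum.inr.injEq,
      forall_eq', U1_rej hk, top, womanTop, Bool.not_true, List.map_cons, List.map_nil, uw.injEq,
      Bool.true_eq_false, and_false, or_self, not_false_eq_true, pr_false, imp_self, opp_rr,
      or_true, false_or, forall_const, manTop, hl, dq.injEq, Bool.not_eq_eq_eq_not,
      Bool.eq_not_self, List.mem_map, mem_occ, exists_eq_right, hv.injEq, ↓existsAndEq, and_true,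
      exists_eq_left', hc, hk, and_self, exists_false, Bool.not_not, pe.injEq, false_and,
      exists_const, forall_eq, true_or]

theorem Cl.k45 {c k : ℕ} (h : Cl φ T x b c k)
    (hR : Rch φ (ov ([(wQ x b, some (mH c k)), (mH c k, some (wQ x b)),
      (mD x !b, some (wW c true)),
      (wV c k, some (mU c true)), (mU c true, some (wV c k)), (wW c true, some (mD x !b))] ++
      LP x b) (stM φ T)) (SS (wW c true :: mU c true :: wV c k :: mH c k :: S0 x b) T)) :
    Rch φ (ov ([(wQ x b, some (mH c k)), (mH c k, some (wQ x b)), (mD x !b, none),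
      (wV c k, some (mU c true)), (mU c true, some (wV c k)), (wW c true, some (mU c false)),
      (mU c false, some (wW c true)), (wW c false, none)] ++
      LP x b) (stM φ T)) (SS (mU c false :: wW c true :: mU c true :: wV c k :: mH c k ::
        S0 x b) T) := by
  have hx := h.hx
  have hp := h.hp
  have hq := h.hq
  have hc := h.hc
  have hk := h.hk
  have hh := h.hh
  have hu := h.hu
  have hl := h.hl
  have h1 := enter_take (mkt_good φ) hR.cl (a := mU c false) (a' := wW c false) (y := wW c true)
    (z := mD x !b) (by simp [SS, hu]) (by simp [SS]) (by simp [stM_inl, hu, hc])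
    (by simp) ⟨by simp, by simp [hc], by simp [hc, hk]⟩
    ((pr_iff (by simp [top, manTop])).2 (by simp [top, manTop, bef_cons]))
    (pr_of_top (by simp [top, womanTop]) (by simp [top, womanTop]))
    (fun w _ _ _ => pr_head (l := [wW c false]) (by simp [top, manTop, hl]))
    ?_
  · rw [insert_SS, ← ov_append] at h1
    have h2 := hR.tail h1
    refine h2.congr ?_ rfl
    refine ov_ext ?_ ?_ ?_
    · simp only [List.cons_append, List.nil_append, List.mem_cons, List.not_mem_nil, or_false,
        ov_cons, ov_nil, forall_eq_or_imp, ↓reduceIte, reduceCtorEq, Sum.inr.injEq, Sum.inl.injEq,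
        uw.injEq, Bool.true_eq_false, and_false, Bool.false_eq_true, dq.injEq,
        Bool.not_eq_eq_eq_not, Bool.eq_not_self, forall_eq, and_self]
    · simp only [List.cons_append, List.nil_append, List.mem_cons, List.not_mem_nil, or_false,
        ov_cons, ov_nil, forall_eq_or_imp, reduceCtorEq, ↓reduceIte, Sum.inl.injEq, uw.injEq,
        Bool.false_eq_true, and_false, Sum.inr.injEq, Bool.true_eq_false, dq.injEq,
        Bool.not_eq_eq_eq_not, Bool.eq_not_self, forall_eq, and_self]
    · intros; rfl
  · rw [insert_SS, ← ov_append]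
    refine h.toPh.stop (by simp [hq]) (by simp) (by simp [hp, hq, hh, hu]) ?_
    simp only [List.mem_cons, List.not_mem_nil, or_false, List.cons_append, List.nil_append,
      ov_cons, ov_nil, Sum.exists, forall_eq_or_imp, opp_ll, ↓reduceIte, Option.some.injEq,
      reduceCtorEq, false_and, exists_false, Sum.inr.injEq, exists_eq_left', top, manTop,
      List.map_cons, List.map_nil, uw.injEq, Bool.true_eq_false, and_false, or_self,
      not_false_eq_true, pr_false, or_true, implies_true, Sum.inl.injEq, womanTop, Bool.not_true,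
      Bool.false_eq_true, List.map_append, List.map_map, List.mem_append, List.mem_map,
      List.mem_range, Function.comp_apply, hv.injEq, true_and, exists_eq_right, hk, exists_const,
      hl, dq.injEq, Bool.not_eq_eq_eq_not, Bool.eq_not_self, mem_occ, ↓existsAndEq, and_true, hc,
      and_self, Bool.not_not, pe.injEq, pr_iff, bef_cons, ne_eq, not_true_eq_false, bef_false,
      forall_eq, imp_self]

theorem Cl.k56 {c k : ℕ} (h : Cl φ T x b c k)
    (hR : Rch φ (ov ([(wQ x b, some (mH c k)), (mH c k, some (wQ x b)), (mD x !b, none),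
      (wV c k, some (mU c true)), (mU c true, some (wV c k)), (wW c true, some (mU c false)),
      (mU c false, some (wW c true)), (wW c false, none)] ++
      LP x b) (stM φ T)) (SS (mU c false :: wW c true :: mU c true :: wV c k :: mH c k ::
        S0 x b) T)) : StC φ (insert (uw c true) (insert (uw c false) T)) x b c k := by
  have hx := h.hx
  have hp := h.hp
  have hq := h.hq
  have hc := h.hc
  have hk := h.hk
  have hh := h.hh
  have hu := h.hu
  have hl := h.hl
  have h1 := enter_take_free (mkt_good φ) hR.cl (a := wW c false) (y := mU c true)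
    (z := wV c k) (y' := mD x !b) (by simp [SS, hu]) (by simp [SS]) (by simp)
    (by simp) ⟨by simp, by simp [hc], by simp [hc, hk]⟩
    ((pr_iff (by simp [top, manTop, hk])).2 (by simp [top, manTop, bef_cons]))
    (h.toPh.best (by simp [hu]) (by simp) (by simp [hp, hq, hh, hu]) ?_)
    (by simp [SS]) (by simp) ⟨by simp, by simp [hc, hk], by simp [hx]⟩
    ?_
  · rw [insert_SS, ← ov_append] at h1
    have h2 := hR.tail h1
    unfold StC
    refine h2.congr ?_ ?_
    · refine ov_ext ?_ ?_ ?_
      · simp only [List.cons_append, List.nil_append, List.mem_cons, List.not_mem_nil, or_false,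
          ov_cons, ov_nil, forall_eq_or_imp, ↓reduceIte, Sum.inr.injEq, reduceCtorEq,
          Sum.inl.injEq, dq.injEq, Bool.not_eq_eq_eq_not, Bool.eq_not_self, and_false, forall_eq,
          and_self]
      · simp only [List.cons_append, List.nil_append, List.mem_cons, List.not_mem_nil, or_false,
          ov_cons, ov_nil, stM, Set.mem_insert_iff, tgtA, tgt, forall_eq_or_imp, Sum.inr.injEq,
          reduceCtorEq, ↓reduceIte, Sum.inl.injEq, idx_inr, uw.injEq, Bool.false_eq_true,
          and_false, true_or, or_true, Bool.not_false, idx_inl, Bool.true_eq_false, false_or,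
          Bool.not_true, dq.injEq, Bool.not_eq_eq_eq_not, Bool.eq_not_self, forall_eq, and_self]
      · intro a _ h3
        simp at h3
        rw [stM_insert, stM_insert] <;> simp [h3]
    · symm
      rw [SS_insert (j := uw c true) (by simp) (by simp),
        SS_insert (j := uw c false) (by simp) (by simp), Set.insert_comm]
      simp only [ne_eq, decide_not, idx_inr, uw.injEq, Bool.false_eq_true, and_false,
        decide_false, Bool.not_false, List.filter_cons_of_pos, idx_inl, decide_true,
        Bool.not_true, not_false_eq_true, List.filter_cons_of_neg, reduceCtorEq, List.filter_nil]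
  · simp only [List.mem_cons, List.not_mem_nil, or_false, List.cons_append, List.nil_append,
      ov_cons, ov_nil, Sum.forall, top, womanTop, Bool.not_false, List.map_cons, List.map_nil,
      Sum.inl.injEq, uw.injEq, Bool.true_eq_false, and_false, or_true, and_imp, forall_eq_or_imp,
      reduceCtorEq, ↓reduceIte, Bool.false_eq_true, Option.some.injEq, manTop, Sum.inr.injEq,
      or_self, not_false_eq_true, pr_true, implies_true, forall_eq', pr_iff, bef_cons, ne_eq,
      not_true_eq_false, bef_false, and_self, and_true, imp_self, opp_rr, Bool.not_true, pr_false,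
      IsEmpty.forall_iff, List.map_append, List.map_map, List.mem_append, List.mem_map,
      List.mem_range, Function.comp_apply, exists_const, hv.injEq, true_and, exists_eq_right, hk,
      hl, dq.injEq, Bool.not_eq_eq_eq_not, Bool.eq_not_self, mem_occ, ↓existsAndEq,
      exists_eq_left', hc, exists_false, Bool.not_not, pe.injEq, false_and, forall_eq]
  · rw [insert_SS, ← ov_append]
    refine h.toPh.best (by simp [hh]) (by simp) (by simp [hp, hq, hh, hu]) ?_
    simp only [List.mem_cons, List.not_mem_nil, or_false, List.cons_append, List.nil_append,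
      ov_cons, ov_nil, Sum.forall, and_imp, forall_eq_or_imp, opp_rr, ↓reduceIte,
      Option.some.injEq, Sum.inl.injEq, forall_eq', top, womanTop, Bool.not_false, List.map_cons,
      List.map_nil, uw.injEq, Bool.true_eq_false, and_false, or_true, reduceCtorEq, or_self,
      not_false_eq_true, pr_false, IsEmpty.forall_iff, implies_true, false_or, forall_const,
      Bool.false_eq_true, Sum.inr.injEq, manTop, imp_self, Bool.not_true, List.map_append,
      List.map_map, List.mem_append, List.mem_map, List.mem_range, Function.comp_apply, hv.injEq,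
      true_and, exists_eq_right, hk, exists_const, pr_true, pr_iff, bef_cons, ne_eq,
      not_true_eq_false, false_and, hl, bef_false, and_self, and_true, dq.injEq,
      Bool.not_eq_eq_eq_not, Bool.eq_not_self, mem_occ, ↓existsAndEq, exists_eq_left', hc,
      exists_false, Bool.not_not, pe.injEq, forall_eq, true_or]

/-- Treatment of one clause. -/
theorem Cl.clause {c k : ℕ} (h : Cl φ T x b c k) (hR : StR φ T x b c k) :
    StC φ (insert (uw c true) (insert (uw c false) T)) x b c k :=
  h.k56 (h.k45 (h.k34 (h.k23 (h.k12 hR))))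

/-- The next clause. -/
theorem Cl.c1 {c k c₀ k₀ : ℕ} (h0 : Ph φ T x b) (hc₀ : c₀ < φ.length)
    (hk₀ : k₀ < (cl φ c₀).length) (hl₀ : lit φ c₀ k₀ = (b, x)) (hh₀ : hv c₀ k₀ ∉ T)
    (h : Cl φ (insert (hv c₀ k₀) T) x b c k) (hlt : c < c₀) (hord : Bef (occ φ x b) (hv c k) (hv c₀ k₀))
    (hR : StC φ T x b c₀ k₀) : StR φ (insert (hv c₀ k₀) T) x b c k := by
  have hx := h.hx
  have hp := h0.hp
  have hq := h0.hq
  have hc := h.hc
  have hk := h.hk
  have hh : hv c k ∉ T := fun e => h.hh k (Set.mem_insert_of_mem _ e)
  have hcc : c ≠ c₀ := ne_of_lt hlt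
  have hcc' : c₀ ≠ c := ne_of_gt hlt
  have hl := h.hl
  unfold StC at hR
  have h1 := enter_take_take (mkt_good φ) hR.cl (a := mH c k) (a' := wV c k) (y := wQ x b)
    (z := mH c₀ k₀) (y' := wV c₀ k₀) (z' := mD x !b)
    (by simp [SS, hh, hcc]) (by simp [SS]) (by simp [stM_inl, hh, hc, hk, hcc])
    (by simp) ⟨by simp, by simp [hc, hk], by simp [hx]⟩
    ((pr_iff (by simp [top, manTop])).2 (by simp [top, manTop, bef_cons, hl]))
    ((pr_iff (by simp [top, womanTop, mem_occ, hc₀, hk₀, hl₀])).2
      (by simp [top, womanTop, bef_cons, bef_map Sum.inl_injective, hord]))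
    (fun w _ _ _ => pr_head (l := [wV c k]) (by simp [top, manTop, hl]))
    (by simp [SS]) (by simp) (by simp) ⟨by simp, by simp [hc₀, hk₀], by simp [hc₀, hk₀]⟩
    (pr_of_top (by simp [top, womanTop]) (by simp [top, womanTop]))
    ?_ ?_
  · rw [insert_SS, ← ov_append] at h1
    have h2 := hR.tail h1
    unfold StR
    refine h2.congr ?_ ?_
    · refine ov_ext ?_ ?_ ?_
      · simp only [List.cons_append, List.nil_append, List.mem_cons, List.not_mem_nil, or_false,
          ov_cons, ov_nil, forall_eq_or_imp, ↓reduceIte, reduceCtorEq, Sum.inr.injEq,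
          Sum.inl.injEq, hv.injEq, hcc, false_and, dq.injEq, Bool.not_eq_eq_eq_not,
          Bool.eq_not_self, and_false, forall_eq, and_self]
      · simp only [List.cons_append, List.nil_append, List.mem_cons, List.not_mem_nil, or_false,
          ov_cons, ov_nil, stM, Set.mem_insert_iff, tgtA, tgt, forall_eq_or_imp, reduceCtorEq,
          ↓reduceIte, Sum.inl.injEq, hv.injEq, hcc', false_and, idx_inl, true_or, Sum.inr.injEq,
          idx_inr, hcc, dq.injEq, Bool.not_eq_eq_eq_not, Bool.eq_not_self, and_false, forall_eq,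
          and_self]
      · intro a _ h3
        simp at h3
        rw [stM_insert] <;> simp [h3]
    · symm
      rw [SS_insert (j := hv c₀ k₀) (by simp) (by simp)]
      simp only [ne_eq, decide_not, idx_inl, hv.injEq, hcc, false_and, decide_false,
        Bool.not_false, List.filter_cons_of_pos, idx_inr, decide_true, Bool.not_true,
        Bool.false_eq_true, not_false_eq_true, List.filter_cons_of_neg, reduceCtorEq,
        List.filter_nil]
  · intro w hw ho hacc
    by_cases hw1 : w = wV c₀ k₀
    · exact Or.inl hw1
    by_cases hw2 : w = wQ x b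
    · subst hw2
      have h2 := hacc (mH c k) (by simp)
      rw [pr_iff (by simp [top, womanTop, mem_occ, hc, hk, hl])] at h2
      simp only [top, womanTop, List.map_cons, bef_cons, bef_map Sum.inl_injective] at h2
      simp at h2
      exact absurd h2 (lt_asymm hord)
    · right
      refine pr_of_top (by simp [top, manTop]) ?_
      simp only [top, manTop, hl₀, List.map_cons, List.map_nil, List.mem_cons, hw2, hw1,
        List.not_mem_nil, or_self, not_false_eq_true]
  · rw [insert_SS, ← ov_append]
    refine h0.stop (by simp [hq]) (by simp) (by simp [hp, hq, hh, hh₀]) ?_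
    simp only [List.mem_cons, List.not_mem_nil, or_false, List.cons_append, List.nil_append,
      ov_cons, ov_nil, Sum.exists, forall_eq_or_imp, opp_ll, Sum.inl.injEq, hv.injEq, hcc,
      false_and, ↓reduceIte, reduceCtorEq, Option.some.injEq, exists_false, Sum.inr.injEq,
      exists_eq_left', top, manTop, hl, List.map_cons, List.map_nil, or_self, not_false_eq_true,
      pr_false, or_true, implies_true, womanTop, hl₀, dq.injEq, Bool.not_eq_eq_eq_not,
      Bool.eq_not_self, and_false, List.mem_map, mem_occ, exists_eq_right, ↓existsAndEq, and_true,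
      hc, hk, and_self, exists_const, Bool.not_not, pe.injEq, pr_iff, bef_cons, ne_eq,
      not_true_eq_false, bef_false, forall_eq, imp_self]

theorem SS_congr {Sp Sp' : List (J ⊕ J)} (h : ∀ a, a ∈ Sp ↔ a ∈ Sp') : SS Sp T = SS Sp' T := by
  ext a; simp [SS, h]

/-- Start of the treatment of a variable. -/
theorem start (hx : x < bound φ) (hp : ∀ b', pe x b' ∉ T) (hq : ∀ b', dq x b' ∉ T)
    (H : ∀ y t, idx y ∈ T → btr φ y = some t → idx t ∈ T)
    (hR : Rch φ (stM φ T) (SS [] T)) : StN φ T x b := by
  have h : Ph φ T x b := ⟨hx, hp, hq, fun y t h1 h2 => Or.inl (H y t h1 h2)⟩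
  have hR1 : Rch φ (ov [(mP x b, some (wQ x b)), (wQ x b, some (mP x b)), (wE x b, none),
      (mD x b, none)] (stM φ T)) (SS [mP x b, wQ x b] T) := by
    have h1 := enter_two (K := mkt φ) (S := SS [] T) (μ := stM φ T) (m := mP x b) (w := wQ x b)
      (l := [(wQ x b, none), (mD x b, none)] ++ [(mP x b, none), (wE x b, none)]) ?_ ?_ ?_
    · rw [insert_SS, insert_SS] at h1
      have h2 := hR.tail h1
      refine h2.congr ?_ rfl
      refine ov_ext ?_ ?_ ?_
      · simp only [List.mem_cons, List.not_mem_nil, or_false, ov_cons, ov_nil, List.cons_append,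
          List.nil_append, forall_eq_or_imp, ↓reduceIte, reduceCtorEq, Sum.inr.injEq, forall_eq,
          Sum.inl.injEq, and_self]
      · simp only [List.cons_append, List.nil_append, List.mem_cons, List.not_mem_nil, or_false,
          ov_cons, ov_nil, forall_eq_or_imp, ↓reduceIte, reduceCtorEq, Sum.inl.injEq, forall_eq,
          Sum.inr.injEq, and_self]
      · intros; rfl
    · intro a c ha hc hB
      have hc' : idx c ∈ T := by simpa [SS] using hc
      have h2 := hB.2.2.2 (tgtA c) (by simp [stM, hc'])
      rw [pr_tgt] at h2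
      exact ha (Or.inr (H c a hc' h2))
    · refine ⟨⟨by simp, by simp [hx], by simp [hx]⟩, ?_, ?_, ?_⟩
      · simp only [hp, not_false_eq_true, mem_Js_pe, hx, stM_inl, ne_eq, Option.some.injEq,
          Sum.inr.injEq, reduceCtorEq]
      · simp only [hp, not_false_eq_true, mem_Js_pe, hx, stM_inl, Option.some.injEq, forall_eq']
        exact (pr_iff (by simp [top, manTop])).2 (by simp [top, manTop, bef_cons])
      · simp only [hq, not_false_eq_true, mem_Js_dq, hx, stM_inr, Option.some.injEq, forall_eq']
        exact (pr_iff (by simp [top, womanTop])).2 (by simp [top, womanTop, bef_cons])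
    · rw [unmatch_eq (a := mP x b) (a' := wE x b) (by simp [stM_inl, hp, hx]),
        unmatch_eq (a := wQ x b) (a' := mD x b) (by simp [stM_inr, hq, hx]), ov_append]
  have hR2 : Rch φ (ov ([(wQ x b, none), (mD x !b, none)] ++ LP x b) (stM φ T))
      (SS [wQ x !b, mP x b, wQ x b] T) := by
    have h1 := enter_take (mkt_good φ) hR1.cl (a := wQ x !b) (a' := mD x !b) (y := mP x b)
      (z := wQ x b) (by simp [SS, hq]) (by simp [SS]) (by simp [stM_inr, hq, hx])
      (by simp) ⟨by simp, by simp [hx], by simp [hx]⟩
      ((pr_iff (by simp [top, womanTop])).2 (by simp [top, womanTop, bef_cons]))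
      ((pr_iff (by simp [top, manTop])).2 (by simp [top, manTop, bef_cons]))
      (h.best (by simp [hq]) (by simp) (by simp [hp, hq]) ?_)
      ?_
    · rw [insert_SS, ← ov_append] at h1
      have h2 := hR1.tail h1
      refine h2.congr ?_ rfl
      refine ov_ext ?_ ?_ ?_
      · simp only [List.cons_append, List.nil_append, List.mem_cons, List.not_mem_nil, or_false,
          ov_cons, ov_nil, forall_eq_or_imp, ↓reduceIte, Sum.inr.injEq, dq.injEq,
          Bool.eq_not_self, and_false, reduceCtorEq, Sum.inl.injEq, Bool.not_eq_eq_eq_not,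
          forall_eq, and_self]
      · simp only [List.cons_append, List.nil_append, List.mem_cons, List.not_mem_nil, or_false,
          ov_cons, ov_nil, forall_eq_or_imp, Sum.inr.injEq, dq.injEq, Bool.not_eq_eq_eq_not,
          Bool.eq_not_self, and_false, ↓reduceIte, reduceCtorEq, Sum.inl.injEq, forall_eq,
          and_self]
      · intros; rfl
    · simp only [List.mem_cons, List.not_mem_nil, or_false, ov_cons, ov_nil, Sum.forall, and_imp,
        forall_eq_or_imp, ↓reduceIte, Option.some.injEq, reduceCtorEq, IsEmpty.forall_iff,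
        implies_true, Sum.inr.injEq, forall_eq', true_or, imp_self, forall_eq, opp_rr,
        Sum.inl.injEq, false_or, forall_const, and_self]
    · rw [insert_SS, ← ov_append]
      refine SS_forall ?_ ?_
      · simp only [List.mem_cons, List.not_mem_nil, or_false, List.cons_append, List.nil_append,
          ov_cons, ov_nil, Sum.exists, forall_eq_or_imp, opp_rr, ↓reduceIte, Option.some.injEq,
          Sum.inl.injEq, exists_eq_left', top, womanTop, Bool.not_not, List.map_cons, pe.injEq,
          Bool.eq_not_self, and_false, reduceCtorEq, List.mem_map, mem_occ, exists_eq_right,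
          false_and, exists_const, or_self, or_true, exists_false, not_false_eq_true, pr_false,
          implies_true, Sum.inr.injEq, manTop, List.map_nil, dq.injEq, Bool.not_eq_eq_eq_not,
          pr_iff, bef_cons, ne_eq, not_true_eq_false, bef_false, and_self, and_true, forall_eq,
          imp_self]
      · intro w hw _
        refine ⟨tgtA w, ov_T (by simp [hp, hq]) hw, ?_⟩
        rw [pr_tgt]
        intro e
        exact hq b (by simpa using H _ _ hw e)
  have h1 := enter_free (mkt_good φ) hR2.cl (a := mD x !b) (y := wQ x b)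
    (by simp [SS, hq]) (by simp [SS]) (by simp)
    (by simp) ⟨by simp, by simp [hx], by simp [hx]⟩
    (h.best (by simp [hq]) (by simp) (by simp [hp, hq]) ?_)
  · rw [insert_SS, ← ov_append] at h1
    have h2 := hR2.tail h1
    unfold StN
    refine h2.congr ?_ ?_
    · refine ov_ext ?_ ?_ ?_
      · simp only [List.cons_append, List.nil_append, List.mem_cons, List.not_mem_nil, or_false,
          ov_cons, ov_nil, forall_eq_or_imp, ↓reduceIte, reduceCtorEq, Sum.inl.injEq,
          Sum.inr.injEq, dq.injEq, Bool.not_eq_eq_eq_not, Bool.eq_not_self, and_false, forall_eq,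
          and_self]
      · simp only [List.cons_append, List.nil_append, List.mem_cons, List.not_mem_nil, or_false,
          ov_cons, ov_nil, forall_eq_or_imp, reduceCtorEq, ↓reduceIte, Sum.inl.injEq,
          Sum.inr.injEq, dq.injEq, Bool.not_eq_eq_eq_not, Bool.eq_not_self, and_false, forall_eq,
          and_self]
      · intros; rfl
    · refine SS_congr fun a => ?_
      simp only [List.mem_cons, List.not_mem_nil, or_false]
      constructor
      · rintro (h | h | h | h)
        · exact .inr (.inr (.inl h))
        · exact .inr (.inr (.inr h))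
        · exact .inr (.inl h)
        · exact .inl h
      · rintro (h | h | h | h)
        · exact .inr (.inr (.inr h))
        · exact .inr (.inr (.inl h))
        · exact .inl h
        · exact .inr (.inl h)
  · simp only [List.mem_cons, List.not_mem_nil, or_false, List.cons_append, List.nil_append,
      ov_cons, ov_nil, Option.ite_none_left_eq_some, and_imp, Sum.forall, forall_eq_or_imp,
      Sum.inr.injEq, dq.injEq, Bool.not_eq_eq_eq_not, Bool.eq_not_self, and_false,
      not_false_eq_true, reduceCtorEq, ↓reduceIte, Option.some.injEq, Sum.inl.injEq, forall_const,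
      forall_eq', top, womanTop, Bool.not_not, List.map_cons, pe.injEq, List.mem_map, mem_occ,
      exists_eq_right, false_and, exists_const, or_self, or_true, pr_iff, bef_cons, ne_eq,
      not_true_eq_false, bef_false, and_self, and_true, IsEmpty.forall_iff, imp_self,
      implies_true, manTop, List.map_nil, pr_false, imp_false, opp_ll, false_or, forall_eq,
      true_or]

/-- The state after the last man `P` has entered. -/
def StF (φ : CNF) (T : Set J) (x : ℕ) (b : Bool) : Prop :=
  Rch φ (ov ([(wQ x b, some (mP x !b)), (mP x !b, some (wQ x b)), (mD x !b, none),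
      (wE x !b, none)] ++ LP x b) (stM φ T)) (SS (mP x (!b) :: S0 x b) T)

theorem Ph.f1 (h : Ph φ T x b) (hR : StN φ T x b) : StF φ T x b := by
  have hx := h.hx
  have hp := h.hp
  have hq := h.hq
  unfold StN at hR
  unfold StF
  have h1 := enter_take (mkt_good φ) hR.cl (a := mP x !b) (a' := wE x !b) (y := wQ x b)
    (z := mD x !b) (by simp [SS, hp]) (by simp [SS]) (by simp [stM_inl, hx, hp])
    (by simp) ⟨by simp, by simp [hx], by simp [hx]⟩
    ((pr_iff (by simp [top, manTop])).2 (by simp [top, manTop, bef_cons]))
    (pr_of_top (by simp [top, womanTop]) (by simp [top, womanTop, mem_occ]))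
    (fun w _ _ _ => pr_head (l := [wQ x !b, wE x !b]) (by simp [top, manTop]))
    ?_
  · rw [insert_SS, ← ov_append] at h1
    have h2 := hR.tail h1
    refine h2.congr ?_ rfl
    refine ov_ext ?_ ?_ ?_
    · simp only [List.cons_append, List.nil_append, List.mem_cons, List.not_mem_nil, or_false,
        ov_cons, ov_nil, forall_eq_or_imp, ↓reduceIte, reduceCtorEq, Sum.inl.injEq, Sum.inr.injEq,
        pe.injEq, Bool.eq_not_self, and_false, dq.injEq, Bool.not_eq_eq_eq_not, forall_eq,
        and_self]
    · simp only [List.cons_append, List.nil_append, List.mem_cons, List.not_mem_nil, or_false,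
        ov_cons, ov_nil, forall_eq_or_imp, reduceCtorEq, ↓reduceIte, Sum.inl.injEq, Sum.inr.injEq,
        pe.injEq, Bool.eq_not_self, and_false, dq.injEq, Bool.not_eq_eq_eq_not, forall_eq,
        and_self]
    · intros; rfl
  · rw [insert_SS, ← ov_append]
    refine h.stop (by simp [hq]) (by simp) (by simp [hp, hq]) ?_
    simp only [List.mem_cons, List.not_mem_nil, or_false, List.cons_append, List.nil_append,
      ov_cons, ov_nil, Sum.exists, forall_eq_or_imp, opp_ll, ↓reduceIte, Option.some.injEq,
      reduceCtorEq, false_and, exists_false, Sum.inr.injEq, exists_eq_left', top, manTop,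
      Bool.not_not, List.map_cons, List.map_nil, dq.injEq, Bool.eq_not_self, and_false, or_self,
      not_false_eq_true, pr_false, or_true, implies_true, Sum.inl.injEq, pe.injEq,
      Bool.not_eq_eq_eq_not, womanTop, List.mem_map, mem_occ, exists_eq_right, exists_const,
      pr_iff, bef_cons, ne_eq, not_true_eq_false, bef_false, and_self, and_true, forall_eq,
      imp_self]

theorem Ph.f2 {c₀ k₀ : ℕ} (h : Ph φ T x b) (hc₀ : c₀ < φ.length)
    (hk₀ : k₀ < (cl φ c₀).length) (hl₀ : lit φ c₀ k₀ = (b, x)) (hh₀ : hv c₀ k₀ ∉ T)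
    (hR : StC φ T x b c₀ k₀) : StF φ (insert (hv c₀ k₀) T) x b := by
  have hx := h.hx
  have hp := h.hp
  have hq := h.hq
  unfold StC at hR
  have h1 := enter_take_take (mkt_good φ) hR.cl (a := mP x !b) (a' := wE x !b) (y := wQ x b)
    (z := mH c₀ k₀) (y' := wV c₀ k₀) (z' := mD x !b)
    (by simp [SS, hp]) (by simp [SS]) (by simp [stM_inl, hp, hx])
    (by simp) ⟨by simp, by simp [hx], by simp [hx]⟩
    ((pr_iff (by simp [top, manTop])).2 (by simp [top, manTop, bef_cons]))
    ((pr_iff (by simp [top, womanTop, mem_occ, hc₀, hk₀, hl₀])).2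
      (by simp [top, womanTop, bef_cons]))
    (fun w _ _ _ => pr_head (l := [wQ x !b, wE x !b]) (by simp [top, manTop]))
    (by simp [SS]) (by simp) (by simp) ⟨by simp, by simp [hc₀, hk₀], by simp [hc₀, hk₀]⟩
    (pr_of_top (by simp [top, womanTop]) (by simp [top, womanTop]))
    ?_ ?_
  · rw [insert_SS, ← ov_append] at h1
    have h2 := hR.tail h1
    unfold StF
    refine h2.congr ?_ ?_
    · refine ov_ext ?_ ?_ ?_
      · simp only [List.cons_append, List.nil_append, List.mem_cons, List.not_mem_nil, or_false,
          ov_cons, ov_nil, forall_eq_or_imp, ↓reduceIte, reduceCtorEq, Sum.inr.injEq,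
          Sum.inl.injEq, pe.injEq, Bool.eq_not_self, and_false, dq.injEq, Bool.not_eq_eq_eq_not,
          forall_eq, and_self]
      · simp only [List.cons_append, List.nil_append, List.mem_cons, List.not_mem_nil, or_false,
          ov_cons, ov_nil, stM, Set.mem_insert_iff, tgtA, tgt, forall_eq_or_imp, reduceCtorEq,
          ↓reduceIte, Sum.inl.injEq, idx_inl, true_or, Sum.inr.injEq, idx_inr, pe.injEq,
          Bool.eq_not_self, and_false, dq.injEq, Bool.not_eq_eq_eq_not, forall_eq, and_self]
      · intro a _ h3
        simp at h3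
        rw [stM_insert] <;> simp [h3]
    · symm
      rw [SS_insert (j := hv c₀ k₀) (by simp) (by simp)]
      simp only [ne_eq, decide_not, idx_inl, reduceCtorEq, decide_false, Bool.not_false,
        List.filter_cons_of_pos, idx_inr, decide_true, Bool.not_true, Bool.false_eq_true,
        not_false_eq_true, List.filter_cons_of_neg, List.filter_nil]
  · intro w hw ho hacc
    by_cases hw1 : w = wV c₀ k₀
    · exact Or.inl hw1
    by_cases hw2 : w = wQ x b
    · subst hw2
      have h2 := hacc (mP x !b) (by simp)
      rw [pr_iff (by simp [top, womanTop])] at h2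
      simp only [top, womanTop, List.map_cons, bef_cons, ne_eq, Sum.inl.injEq, pe.injEq,
        Bool.not_eq_eq_eq_not, Bool.eq_not_self, and_false, not_false_eq_true, reduceCtorEq,
        not_true_eq_false, false_or, true_and, false_and, or_self] at h2
    · right
      refine pr_of_top (by simp [top, manTop]) ?_
      simp only [top, manTop, hl₀, List.map_cons, List.map_nil, List.mem_cons, hw2, hw1,
        List.not_mem_nil, or_self, not_false_eq_true]
  · rw [insert_SS, ← ov_append]
    refine h.stop (by simp [hq]) (by simp) (by simp [hp, hq, hh₀]) ?_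
    simp only [List.mem_cons, List.not_mem_nil, or_false, List.cons_append, List.nil_append,
      ov_cons, ov_nil, Sum.exists, forall_eq_or_imp, opp_ll, Sum.inl.injEq, reduceCtorEq,
      ↓reduceIte, Option.some.injEq, false_and, exists_false, Sum.inr.injEq, exists_eq_left', top,
      manTop, Bool.not_not, List.map_cons, List.map_nil, dq.injEq, Bool.eq_not_self, and_false,
      or_self, not_false_eq_true, pr_false, or_true, implies_true, womanTop, hl₀, pe.injEq,
      Bool.not_eq_eq_eq_not, List.mem_map, mem_occ, exists_eq_right, exists_const, pr_iff,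
      bef_cons, ne_eq, not_true_eq_false, bef_false, and_self, and_true, forall_eq, imp_self]

/-- End of the treatment of a variable. -/
theorem Ph.finish (h : Ph φ T x b) (hR : StF φ T x b) :
    Rch φ (stM φ (insert (pe x b) (insert (pe x !b) (insert (dq x b) (insert (dq x !b) T)))))
      (SS [] (insert (pe x b) (insert (pe x !b) (insert (dq x b) (insert (dq x !b) T))))) := by
  have hx := h.hx
  have hp := h.hp
  have hq := h.hq
  unfold StF at hR
  have hR2 : Rch φ (ov ([(wQ x b, some (mP x !b)), (mP x !b, some (wQ x b)),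
      (mD x !b, some (wE x b)), (wE x !b, none), (wE x b, some (mD x !b))] ++ LP x b) (stM φ T))
      (SS (wE x b :: mP x (!b) :: S0 x b) T) := by
    have h1 := enter_free (mkt_good φ) hR.cl (a := wE x b) (y := mD x !b)
      (by simp [SS, hp]) (by simp [SS]) (by simp)
      (by simp) ⟨by simp, by simp [hx], by simp [hx]⟩
      (h.best (by simp [hp]) (by simp) (by simp [hp, hq]) ?_)
    · rw [insert_SS, ← ov_append] at h1
      have h2 := hR.tail h1
      refine h2.congr ?_ rfl
      refine ov_ext ?_ ?_ ?_
      · simp only [List.cons_append, List.nil_append, List.mem_cons, List.not_mem_nil, or_false,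
          ov_cons, ov_nil, forall_eq_or_imp, ↓reduceIte, Sum.inr.injEq, reduceCtorEq,
          Sum.inl.injEq, pe.injEq, Bool.not_eq_eq_eq_not, Bool.eq_not_self, and_false, dq.injEq,
          forall_eq, and_self]
      · simp only [List.cons_append, List.nil_append, List.mem_cons, List.not_mem_nil, or_false,
          ov_cons, ov_nil, forall_eq_or_imp, Sum.inr.injEq, reduceCtorEq, ↓reduceIte, pe.injEq,
          Bool.eq_not_self, and_false, Sum.inl.injEq, Bool.not_eq_eq_eq_not, dq.injEq, forall_eq,
          and_self]
      · intros; rfl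
    · simp only [List.mem_cons, List.not_mem_nil, or_false, List.cons_append, List.nil_append,
        ov_cons, ov_nil, Sum.forall, and_imp, forall_eq_or_imp, reduceCtorEq, ↓reduceIte,
        Option.some.injEq, IsEmpty.forall_iff, implies_true, Sum.inr.injEq, forall_eq', top,
        manTop, Bool.not_not, List.map_cons, List.map_nil, dq.injEq, Bool.eq_not_self, and_false,
        or_self, pe.injEq, not_false_eq_true, pr_false, Sum.inl.injEq, false_or, imp_self,
        Bool.not_eq_eq_eq_not, pr_iff, bef_cons, ne_eq, not_true_eq_false, bef_false, and_self,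
        or_true, and_true, womanTop, opp_rr, List.mem_map, mem_occ, exists_eq_right, false_and,
        exists_const, exists_false, forall_const, forall_eq]
  have h1 := enter_two (K := mkt φ) (m := mD x b) (w := wE x !b)
      (S := SS (wE x b :: mP x (!b) :: S0 x b) T)
      (μ := ov ([(wQ x b, some (mP x !b)), (mP x !b, some (wQ x b)),
      (mD x !b, some (wE x b)), (wE x !b, none), (wE x b, some (mD x !b))] ++ LP x b) (stM φ T))
      (l := []) ?_ ?_ ?_
  · rw [insert_SS, insert_SS, ← ov_append] at h1
    have h2 := hR2.tail h1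
    refine h2.congr ?_ ?_
    · rw [← ov_nil (stM φ (insert _ _))]
      refine ov_ext ?_ ?_ ?_
      · simp only [List.not_mem_nil, ov_nil, List.append_nil, List.cons_append, List.nil_append,
          ov_cons, IsEmpty.forall_iff, implies_true]
      · simp only [List.append_nil, List.cons_append, List.nil_append, List.mem_cons,
          List.not_mem_nil, or_false, ov_nil, stM, Set.mem_insert_iff, tgtA, tgt, ov_cons,
          forall_eq_or_imp, idx_inl, reduceCtorEq, dq.injEq, Bool.eq_not_self, and_false,
          false_or, true_or, or_true, ↓reduceIte, idx_inr, pe.injEq, Bool.not_eq_eq_eq_not,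
          Bool.not_not, Sum.inr.injEq, Sum.inl.injEq, forall_eq, and_self]
      · intro a _ h3
        simp at h3
        rw [stM_insert, stM_insert, stM_insert, stM_insert] <;> simp [h3]
    · symm
      rw [SS_insert (j := dq x !b) (by simp) (by simp), SS_insert (j := dq x b) (by simp) (by simp),
        SS_insert (j := pe x !b) (by simp) (by simp), SS_insert (j := pe x b) (by simp) (by simp)]
      simp only [ne_eq, decide_not, idx_inl, dq.injEq, Bool.eq_not_self, and_false, decide_false,
        Bool.not_false, List.filter_cons_of_pos, idx_inr, reduceCtorEq, decide_true,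
        Bool.not_true, Bool.false_eq_true, not_false_eq_true, List.filter_cons_of_neg,
        List.filter_nil, pe.injEq]
  · intro a c ha hc hB
    have h3 : ov ([(wQ x b, some (mP x !b)), (mP x !b, some (wQ x b)),
      (mD x !b, some (wE x b)), (wE x !b, none), (wE x b, some (mD x !b))] ++ LP x b) (stM φ T) c
        = some (tgtA c) ∧ (btr φ c = some a → a ∈ SS (wE x b :: mP x (!b) :: S0 x b) T) := by
      revert c
      refine SS_forall ?_ ?_
      · simp only [List.mem_cons, List.not_mem_nil, or_false, List.cons_append, List.nil_append,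
          ov_cons, ov_nil, tgtA, tgt, btr, eq_comm, SS, Set.mem_ofPred_eq, forall_eq_or_imp,
          Sum.inr.injEq, reduceCtorEq, ↓reduceIte, pe.injEq, Bool.eq_not_self, and_false,
          Option.some.injEq, true_and, Bool.not_not, IsEmpty.forall_iff, and_self, implies_true,
          Sum.inl.injEq, dq.injEq, forall_eq]
        refine ⟨?_, ?_, ?_, ?_⟩ <;> (rintro - rfl; simp)
      · intro w hw hB
        refine ⟨ov_T (by simp [hp, hq]) hw, fun e => ?_⟩
        rcases h.H _ _ hw e with h4 | h4
        · exact Or.inr h4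
        · rw [h4]; simp [SS]
    have h2 := hB.2.2.2 (tgtA c) h3.1
    rw [pr_tgt] at h2
    exact ha (h3.2 h2)
  · refine ⟨⟨by simp, by simp [hx], by simp [hx]⟩, ?_, ?_, ?_⟩ <;> simp
  · have e1 : ov ([(wQ x b, some (mP x !b)), (mP x !b, some (wQ x b)),
      (mD x !b, some (wE x b)), (wE x !b, none), (wE x b, some (mD x !b))] ++ LP x b) (stM φ T)
      (mD x b) = none := by simp
    have e2 : ov ([(wQ x b, some (mP x !b)), (mP x !b, some (wQ x b)),
      (mD x !b, some (wE x b)), (wE x !b, none), (wE x b, some (mD x !b))] ++ LP x b) (stM φ T)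
      (wE x !b) = none := by simp
    rw [unmatch_none e1, unmatch_none e2]
    rfl

end Pool.Agent.Reach
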