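import Mathlib
import Pool.Prelude.Def_H_3587d628

/-!
# The Roth-Vande Vate mechanism

`Market A` is a set of agents with an opposite-sex relation and rankings; matchings are partner
functions `μ : A → Option A`. `Step` is one round of the mechanism and `StopsAt` says that some
execution started at a matching stops at a given matching. `SMInstance n` is a stable marriage
instance of size `n`, and `ReachInput` is an input of the problem REACH.
-/

set_option autoImplicit false
set_option linter.dupNamespace false

namespace Pool.Agent.Reach

open Classical in
/-- `unmatch μ a`: remove the pair containing `a` from the matching `μ`, if there is one. -/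
noncomputable def unmatch {A : Type} (μ : A → Option A) (a : A) : A → Option A :=
  fun x => if x = a ∨ μ a = some x then none else μ x

open Classical in
/-- `join μ a b`: add the pair `(a, b)` to the matching `μ`. -/
noncomputable def join {A : Type} (μ : A → Option A) (a b : A) : A → Option A :=
  fun x => if x = a then some b else if x = b then some a else μ x

open Classical in
/-- `restrict μ S`: the pairs of the matching `μ` inside `S`. -/
noncomputable def restrict {A : Type} (μ : A → Option A) (S : Set A) : A → Option A :=
  fun x => if x ∈ S then (μ x).filter (fun y => decide (y ∈ S)) else none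

/-- A set of agents: `opp a b` says that `a` and `b` are of opposite sex, and `pr a b c` says that
`a` ranks `b` above `c`. -/
structure Market (A : Type) where
  opp : A → A → Prop
  pr : A → A → A → Prop

namespace Market

variable {A : Type} (K : Market A)

/-- The pair `(a, b)` blocks the matching `μ`: it is not in `μ`, and each of `a`, `b` is unmatched
or prefers the other to its partner. -/
def Blocks (μ : A → Option A) (a b : A) : Prop :=
  K.opp a b ∧ μ a ≠ some b ∧ (∀ c, μ a = some c → K.pr a b c) ∧ (∀ c, μ b = some c → K.pr b a c)

/-- The matching `μ` is stable. -/
def Stable (μ : A → Option A) : Prop := ∀ a b, ¬ K.Blocks μ a b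

/-- The pair `(a, b)` blocks the restriction of `μ` to `S` in the instance restricted to `S`. -/
def BlocksIn (S : Set A) (μ : A → Option A) (a b : A) : Prop :=
  a ∈ S ∧ b ∈ S ∧ K.Blocks (restrict μ S) a b

/-- The inner loop of step 1, with current matching `μ` and current agent `p`. -/
inductive Loop (S : Set A) : (A → Option A) → A → (A → Option A) → Prop
  | stop (μ : A → Option A) (p : A) (h : ∀ b, ¬ K.BlocksIn S μ p b) : Loop S μ p μ
  | next (μ : A → Option A) (p b : A) (μ' : A → Option A) (h : K.BlocksIn S μ p b)
      (best : ∀ b', K.BlocksIn S μ p b' → b' = b ∨ K.pr p b b')
      (rest : Loop S (join (unmatch μ b) p b) ((μ b).getD p) μ') : Loop S μ p μ'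

/-- One round of the mechanism on states `(M, S)`. -/
inductive Step : (A → Option A) × Set A → (A → Option A) × Set A → Prop
  | one (μ : A → Option A) (S : Set A) (a b : A) (μ' : A → Option A) (ha : a ∉ S) (hb : b ∈ S)
      (hab : K.Blocks μ a b) (h : K.Loop (insert a S) (unmatch μ a) a μ') :
      Step (μ, S) (μ', insert a S)
  | two (μ : A → Option A) (S : Set A) (m w : A)
      (h : ∀ a b, a ∉ S → b ∈ S → ¬ K.Blocks μ a b) (hmw : K.Blocks μ m w) :
      Step (μ, S) (join (unmatch (unmatch μ m) w) m w, insert m (insert w S))

/-- Some execution of the mechanism started at `μ₀` stops at `μ`. -/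
def StopsAt (μ₀ μ : A → Option A) : Prop :=
  K.Stable μ ∧ ∃ S, Relation.ReflTransGen K.Step (μ₀, ∅) (μ, S)

end Market

/-- A stable marriage instance of size `n`: `men i k` is the woman whom man `i` ranks in place `k`
(`0` is the best place), and `women j k` is the man whom woman `j` ranks in place `k`. -/
structure SMInstance (n : ℕ) where
  men : Fin n → Equiv.Perm (Fin n)
  women : Fin n → Equiv.Perm (Fin n)

/-- The agents: `inl i` is man `i` and `inr j` is woman `j`. -/
abbrev Agent (n : ℕ) := Fin n ⊕ Fin n

/-- The market of a stable marriage instance. -/
def SMInstance.market {n : ℕ} (I : SMInstance n) : Market (Agent n) where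
  opp a b := a.isLeft ≠ b.isLeft
  pr a b c := match a, b, c with
    | .inl m, .inr w, .inr w' => (I.men m).symm w < (I.men m).symm w'
    | .inr w, .inl m, .inl m' => (I.women w).symm m < (I.women w).symm m'
    | _, _, _ => False

/-- The partner function of a matching given as a partial injection from men to women. -/
def partner {n : ℕ} (M : Fin n ≃. Fin n) : Agent n → Option (Agent n)
  | .inl m => (M m).map .inr
  | .inr w => (M.symm w).map .inl

/-- An input of REACH: an instance, a matching and a stable matching. -/
structure ReachInput where
  n : ℕ
  inst : SMInstance n
  M₀ : Fin n ≃. Fin n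
  M : Fin n ≃. Fin n
  stable : inst.market.Stable (partner M)

/-- The question of REACH. -/
def ReachInput.Reach (r : ReachInput) : Prop :=
  r.inst.market.StopsAt (partner r.M₀) (partner r.M)

/-- The data of an input of REACH: the preference lists of the men, those of the women, and the two
matchings; a matching is written as the list of the partners of the men, the woman `j` being
written as `j + 1` and no partner as `0`. -/
def ReachInput.data (r : ReachInput) :
    List (List ℕ) × List (List ℕ) × List ℕ × List ℕ :=
  (List.ofFn fun i => List.ofFn fun k => (r.inst.men i k : ℕ),
    List.ofFn fun j => List.ofFn fun k => (r.inst.women j k : ℕ),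
    List.ofFn fun i => (r.M₀ i).elim 0 (fun j => (j : ℕ) + 1),
    List.ofFn fun i => (r.M i).elim 0 (fun j => (j : ℕ) + 1))

/-- The encoding of inputs of REACH by bit strings (numbers are written in binary). -/
def ReachInput.encode (r : ReachInput) : List Bool := N487b59b3.bitEncode r.data

/-- The language REACH. -/
def ReachLang (s : List Bool) : Prop := ∃ r : ReachInput, r.encode = s ∧ r.Reach

end Pool.Agent.Reach
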