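import Pool.Agent.Work.MP_0acc7f_lc.Complete

/-!
# The target is reached if and only if the formula is satisfiable
-/

set_option autoImplicit false
set_option linter.unusedVariables false
set_option linter.unusedSectionVars false
set_option linter.unusedSimpArgs false

namespace Pool.Agent.Reach

open J

variable {φ : CNF}

/-- No index `hv` is the index of a better agent. -/
theorem btr_hv {y t : J ⊕ J} (h : btr φ y = some t) (c k : ℕ) : idx t ≠ hv c k := by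
  rcases y with (⟨x, b⟩ | ⟨x, b⟩ | ⟨c, k⟩ | ⟨c, b⟩) | (⟨x, b⟩ | ⟨x, b⟩ | ⟨c, k⟩ | ⟨c, b⟩) <;>
    simp [btr] at h <;> subst h <;> simp

theorem bef_occ {x : ℕ} {b : Bool} {c k c₀ k₀ : ℕ} (h : hv c k ∈ occ φ x b)
    (h₀ : hv c₀ k₀ ∈ occ φ x b) (hlt : c < c₀) : Bef (occ φ x b) (hv c k) (hv c₀ k₀) := by
  obtain ⟨c', k', e, hc, hk, hl⟩ := mem_occ.1 h
  cases e
  obtain ⟨c', k', e, hc₀, hk₀, hl₀⟩ := mem_occ.1 h₀
  cases e
  unfold occ
  obtain ⟨d, hd⟩ : ∃ d, φ.length = c₀ + d := ⟨φ.length - c₀, by omega⟩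
  rw [hd, List.range_add, List.flatMap_append, bef_append_right]
  · left
    rw [List.mem_flatMap]
    exact ⟨c, List.mem_range.2 hlt, List.mem_map.2 ⟨k, List.mem_filter.2
      ⟨List.mem_range.2 hk, by simp [hl]⟩, rfl⟩⟩
  · rw [List.mem_flatMap]
    rintro ⟨c', h1, h2⟩
    obtain ⟨k', h3, h4⟩ := List.mem_map.1 h2
    cases h4
    exact absurd (List.mem_range.1 h1) (lt_irrefl _)

/-- Set of treated indices. -/
def Ts (φ : CNF) (κ : ℕ → ℕ) (x i : ℕ) : Set J := fun j => match j with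
  | pe y _ => y < x
  | dq y _ => y < x
  | hv c k => c < φ.length ∧ k = κ c ∧ ((lit φ c k).2 < x ∨ (lit φ c k).2 = x ∧ i ≤ c)
  | uw c _ => c < φ.length ∧ ((lit φ c (κ c)).2 < x ∨ (lit φ c (κ c)).2 = x ∧ i ≤ c)

variable {κ : ℕ → ℕ} {x i : ℕ}

theorem mem_Ts_pe {y : ℕ} {b : Bool} : pe y b ∈ Ts φ κ x i ↔ y < x := Iff.rfl
theorem mem_Ts_dq {y : ℕ} {b : Bool} : dq y b ∈ Ts φ κ x i ↔ y < x := Iff.rfl
theorem mem_Ts_hv {c k : ℕ} : hv c k ∈ Ts φ κ x i ↔
    c < φ.length ∧ k = κ c ∧ ((lit φ c k).2 < x ∨ (lit φ c k).2 = x ∧ i ≤ c) := Iff.rfl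
theorem mem_Ts_uw {c : ℕ} {b : Bool} : uw c b ∈ Ts φ κ x i ↔
    c < φ.length ∧ ((lit φ c (κ c)).2 < x ∨ (lit φ c (κ c)).2 = x ∧ i ≤ c) := Iff.rfl

/-- A choice of a true literal in each clause. -/
structure Ch (φ : CNF) (v : ℕ → Bool) (κ : ℕ → ℕ) : Prop where
  lt : ∀ c < φ.length, κ c < (cl φ c).length
  tr : ∀ c < φ.length, v (lit φ c (κ c)).2 = (lit φ c (κ c)).1

variable {v : ℕ → Bool}

theorem Ch.ph (h : Ch φ v κ) (hx : x < bound φ) : Ph φ (Ts φ κ x i) x (v x) where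
  hx := hx
  hp b' := by simp [mem_Ts_pe]
  hq b' := by simp [mem_Ts_dq]
  H := by
    intro y t hy ht
    rcases y with (⟨x, b⟩ | ⟨x, b⟩ | ⟨c, k⟩ | ⟨c, b⟩) | (⟨x, b⟩ | ⟨x, b⟩ | ⟨c, k⟩ | ⟨c, b⟩) <;>
      simp [btr] at ht <;> subst ht
    · exact Or.inl hy
    · obtain ⟨h1, h2, h3⟩ := mem_Ts_hv.1 hy
      subst h2
      rcases h3 with h3 | ⟨h3, -⟩
      · exact Or.inl h3
      · right
        rw [← h.tr c h1, h3]
    · exact Or.inl hy
    · exact Or.inl hy
    · exact Or.inl hy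

theorem Ph.diff {T : Set J} {b : Bool} {c k : ℕ} (h : Ph φ T x b) :
    Ph φ (T \ {hv c k}) x b where
  hx := h.hx
  hp b' hb := h.hp b' hb.1
  hq b' hb := h.hq b' hb.1
  H y t hy ht := by
    rcases h.H y t hy.1 ht with h1 | h1
    · exact Or.inl ⟨h1, btr_hv ht c k⟩
    · exact Or.inr h1

theorem Ch.cl (h : Ch φ v κ) (hx : x < bound φ) (hi : i < φ.length)
    (hv : (lit φ i (κ i)).2 = x) : Cl φ (Ts φ κ x (i + 1)) x (v x) i (κ i) where
  toPh := h.ph hx
  hc := hi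
  hk := h.lt i hi
  hl := by
    have := h.tr i hi
    rw [hv] at this
    exact Prod.ext this.symm hv
  hh k' := by
    rw [mem_Ts_hv]
    rintro ⟨-, rfl, h1 | h1⟩ <;> omega
  hu b' := by
    rw [mem_Ts_uw]
    rintro ⟨-, h1 | h1⟩ <;> omega

theorem Ts_same (hv : (lit φ i (κ i)).2 ≠ x) : Ts φ κ x i = Ts φ κ x (i + 1) := by
  ext j
  rcases j with ⟨x, b⟩ | ⟨x, b⟩ | ⟨c, k⟩ | ⟨c, b⟩
  · exact Iff.rfl
  · exact Iff.rfl
  · rw [mem_Ts_hv, mem_Ts_hv]
    by_cases e : c = i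
    · subst e
      constructor
      · rintro ⟨h1, rfl, h2 | h2⟩
        · exact ⟨h1, rfl, Or.inl h2⟩
        · exact absurd h2.1 hv
      · rintro ⟨h1, rfl, h2 | h2⟩
        · exact ⟨h1, rfl, Or.inl h2⟩
        · exact absurd h2.1 hv
    · have : i ≤ c ↔ i + 1 ≤ c := by omega
      rw [this]
  · rw [mem_Ts_uw, mem_Ts_uw]
    by_cases e : c = i
    · subst e
      constructor
      · rintro ⟨h1, h2 | h2⟩
        · exact ⟨h1, Or.inl h2⟩
        · exact absurd h2.1 hv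
      · rintro ⟨h1, h2 | h2⟩
        · exact ⟨h1, Or.inl h2⟩
        · exact absurd h2.1 hv
    · have : i ≤ c ↔ i + 1 ≤ c := by omega
      rw [this]

theorem Ts_succ (hi : i < φ.length) (hx : (lit φ i (κ i)).2 = x) :
    insert (uw i true) (insert (uw i false) (Ts φ κ x (i + 1))) =
      Ts φ κ x i \ {hv i (κ i)} := by
  ext j
  simp only [Set.mem_insert_iff, Set.mem_sdiff, Set.mem_singleton_iff]
  rcases j with ⟨y, b⟩ | ⟨y, b⟩ | ⟨c, k⟩ | ⟨c, b⟩
  · simp [mem_Ts_pe]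
  · simp [mem_Ts_dq]
  · simp only [reduceCtorEq, false_or, mem_Ts_hv, hv.injEq]
    constructor
    · rintro ⟨h1, rfl, h2 | h2⟩
      · exact ⟨⟨h1, rfl, Or.inl h2⟩, fun e => by rw [e.1] at h2; omega⟩
      · exact ⟨⟨h1, rfl, Or.inr ⟨h2.1, by omega⟩⟩, fun e => by omega⟩
    · rintro ⟨⟨h1, rfl, h2 | h2⟩, h3⟩
      · exact ⟨h1, rfl, Or.inl h2⟩
      · refine ⟨h1, rfl, Or.inr ⟨h2.1, ?_⟩⟩
        have : c ≠ i := by rintro rfl; exact h3 ⟨rfl, rfl⟩
        omega
  · simp only [uw.injEq, mem_Ts_uw, reduceCtorEq, not_false_eq_true, and_true]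
    by_cases e : c = i
    · subst e
      constructor
      · intro _
        exact ⟨hi, Or.inr ⟨hx, le_refl _⟩⟩
      · intro _
        cases b <;> simp
    · have : i ≤ c ↔ i + 1 ≤ c := by omega
      rw [this]
      simp [e]

theorem Ts_insert {c₀ : ℕ} (hc : c₀ < φ.length) (hx : (lit φ c₀ (κ c₀)).2 = x) (hi : i ≤ c₀) :
    insert (hv c₀ (κ c₀)) (Ts φ κ x i \ {hv c₀ (κ c₀)}) = Ts φ κ x i := by
  rw [Set.insert_sdiff_singleton, Set.insert_eq_of_mem]
  exact mem_Ts_hv.2 ⟨hc, rfl, Or.inr ⟨hx, hi⟩⟩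

/-- State of the treatment of the variable `x` after the clauses with number at least `i`. -/
def Pst (φ : CNF) (v : ℕ → Bool) (κ : ℕ → ℕ) (x i : ℕ) : Prop :=
  StN φ (Ts φ κ x i) x (v x) ∨ ∃ c₀, i ≤ c₀ ∧ c₀ < φ.length ∧ (lit φ c₀ (κ c₀)).2 = x ∧
    StC φ (Ts φ κ x i \ {hv c₀ (κ c₀)}) x (v x) c₀ (κ c₀)

theorem Ch.lit_eq (h : Ch φ v κ) (hi : i < φ.length) (hx : (lit φ i (κ i)).2 = x) :
    lit φ i (κ i) = (v x, x) := by
  have := h.tr i hi
  rw [hx] at this
  exact Prod.ext this.symm hx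

theorem Ch.step (h : Ch φ v κ) (hx : x < bound φ) (hi : i < φ.length)
    (hP : Pst φ v κ x (i + 1)) : Pst φ v κ x i := by
  by_cases hv' : (lit φ i (κ i)).2 = x
  · have hcl := h.cl hx hi hv'
    have hR : StR φ (Ts φ κ x (i + 1)) x (v x) i (κ i) := by
      rcases hP with hP | ⟨c₀, h1, h2, h3, h4⟩
      · exact hcl.n1 hP
      · have e := Ts_insert (κ := κ) h2 h3 h1
        have h5 := Cl.c1 (φ := φ) (T := Ts φ κ x (i + 1) \ {hv c₀ (κ c₀)}) (x := x) (b := v x)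
          (c := i) (k := κ i) (c₀ := c₀) (k₀ := κ c₀) (h.ph hx).diff h2 (h.lt _ h2)
          (h.lit_eq h2 h3) (by simp) (by rw [e]; exact hcl) (by omega)
          (bef_occ (mem_occ.2 ⟨_, _, rfl, hi, h.lt _ hi, h.lit_eq hi hv'⟩)
            (mem_occ.2 ⟨_, _, rfl, h2, h.lt _ h2, h.lit_eq h2 h3⟩) (by omega)) h4
        rw [e] at h5
        exact h5
    have h6 := hcl.clause hR
    rw [Ts_succ hi hv'] at h6
    exact Or.inr ⟨i, le_refl _, hi, hv', h6⟩
  · unfold Pst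
    rw [Ts_same hv']
    rcases hP with hP | ⟨c₀, h1, h2, h3, h4⟩
    · exact Or.inl hP
    · exact Or.inr ⟨c₀, by omega, h2, h3, h4⟩

theorem Ch.all (h : Ch φ v κ) (hx : x < bound φ) (hP : Pst φ v κ x φ.length) :
    Pst φ v κ x 0 := by
  have key : ∀ d, d ≤ φ.length → Pst φ v κ x (φ.length - d) := by
    intro d
    induction d with
    | zero => intro _; exact hP
    | succ d ih =>
      intro hd
      refine h.step hx (by omega) ?_
      have e : φ.length - (d + 1) + 1 = φ.length - d := by omega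
      rw [e]
      exact ih (by omega)
  have := key φ.length (le_refl _)
  rwa [Nat.sub_self] at this

theorem Ts_next (b : Bool) : insert (pe x b) (insert (pe x !b) (insert (dq x b)
    (insert (dq x !b) (Ts φ κ x 0)))) = Ts φ κ (x + 1) φ.length := by
  ext j
  simp only [Set.mem_insert_iff]
  rcases j with ⟨y, b'⟩ | ⟨y, b'⟩ | ⟨c, k⟩ | ⟨c, b'⟩
  · simp only [pe.injEq, reduceCtorEq, false_or, mem_Ts_pe]
    rcases lt_trichotomy y x with h | h | h
    · simp [h, h.ne, Nat.lt_succ_of_lt h]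
    · subst h; cases b <;> cases b' <;> simp
    · simp [h.ne']; omega
  · simp only [dq.injEq, reduceCtorEq, false_or, mem_Ts_dq]
    rcases lt_trichotomy y x with h | h | h
    · simp [h, h.ne, Nat.lt_succ_of_lt h]
    · subst h; cases b <;> cases b' <;> simp
    · simp [h.ne']; omega
  · simp only [reduceCtorEq, false_or, mem_Ts_hv]
    constructor
    · rintro ⟨h1, rfl, h2⟩
      exact ⟨h1, rfl, Or.inl (by omega)⟩
    · rintro ⟨h1, rfl, h2⟩
      exact ⟨h1, rfl, by omega⟩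
  · simp only [reduceCtorEq, false_or, mem_Ts_uw]
    constructor
    · rintro ⟨h1, h2⟩
      exact ⟨h1, Or.inl (by omega)⟩
    · rintro ⟨h1, h2⟩
      exact ⟨h1, by omega⟩

/-- Treatment of one variable. -/
theorem Ch.var (h : Ch φ v κ) (hx : x < bound φ)
    (hR : Rch φ (stM φ (Ts φ κ x φ.length)) (SS [] (Ts φ κ x φ.length))) :
    Rch φ (stM φ (Ts φ κ (x + 1) φ.length)) (SS [] (Ts φ κ (x + 1) φ.length)) := by
  have h1 : StN φ (Ts φ κ x φ.length) x (v x) := by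
    refine start hx (by simp [mem_Ts_pe]) (by simp [mem_Ts_dq]) ?_ hR
    intro y t hy ht
    rcases y with (⟨x, b⟩ | ⟨x, b⟩ | ⟨c, k⟩ | ⟨c, b⟩) | (⟨x, b⟩ | ⟨x, b⟩ | ⟨c, k⟩ | ⟨c, b⟩) <;>
      simp [btr] at ht <;> subst ht
    · exact hy
    · obtain ⟨h1, h2, h3⟩ := mem_Ts_hv.1 hy
      subst h2
      rcases h3 with h3 | ⟨-, h3⟩
      · exact h3
      · omega
    · exact hy
    · exact hy
    · exact hy
  have h3 : StF φ (Ts φ κ x 0) x (v x) := by
    rcases h.all hx (Or.inl h1) with hP | ⟨c₀, h4, h5, h6, h7⟩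
    · exact (h.ph hx).f1 hP
    · have h8 := Ph.f2 (h.ph hx).diff h5 (h.lt _ h5) (h.lit_eq h5 h6) (by simp) h7
      rw [Ts_insert h5 h6 h4] at h8
      exact h8
  have h4 := (h.ph hx).finish h3
  rw [Ts_next] at h4
  exact h4

theorem Ch.reach (h : Ch φ v κ) : Rch φ (fin φ) (SS [] (Ts φ κ (bound φ) φ.length)) := by
  have key : ∀ x, x ≤ bound φ →
      Rch φ (stM φ (Ts φ κ x φ.length)) (SS [] (Ts φ κ x φ.length)) := by
    intro x
    induction x with
    | zero =>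
      intro _
      have e : Ts φ κ 0 φ.length = ∅ := by
        ext j
        rcases j with ⟨y, b'⟩ | ⟨y, b'⟩ | ⟨c, k⟩ | ⟨c, b'⟩
        · simp [mem_Ts_pe]
        · simp [mem_Ts_dq]
        · simp only [mem_Ts_hv, Set.mem_empty_iff_false, iff_false]; omega
        · simp only [mem_Ts_uw, Set.mem_empty_iff_false, iff_false]; omega
      rw [e]
      have e1 : stM φ ∅ = ini φ := by funext a; simp [stM]
      have e2 : SS [] (∅ : Set J) = ∅ := by ext a; simp [SS]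
      rw [e1, e2]
      exact Relation.ReflTransGen.refl
    | succ x ih =>
      intro hx
      exact h.var (by omega) (ih (by omega))
  have h1 := key _ (le_refl _)
  have e : stM φ (Ts φ κ (bound φ) φ.length) = fin φ := by
    funext a
    unfold stM fin ini
    by_cases h2 : idx a ∈ Ts φ κ (bound φ) φ.length
    · have h3 : idx a ∈ Js φ := by
        generalize idx a = j at h2
        rcases j with ⟨y, b'⟩ | ⟨y, b'⟩ | ⟨c, k⟩ | ⟨c, b'⟩
        · simpa [mem_Ts_pe] using h2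
        · simpa [mem_Ts_dq] using h2
        · obtain ⟨h4, rfl, h5⟩ := mem_Ts_hv.1 h2
          simp [h4, h.lt c h4]
        · obtain ⟨h4, h5⟩ := mem_Ts_uw.1 h2
          simp [h4]
      simp [h2, h3]
    · by_cases h3 : idx a ∈ Js φ
      · simp only [h2, h3, if_true, if_false]
        have h4 : tgt (idx a) = idx a := by
          generalize idx a = j at h2 h3
          rcases j with ⟨y, b'⟩ | ⟨y, b'⟩ | ⟨c, k⟩ | ⟨c, b'⟩
          · exact absurd (mem_Ts_pe.2 (by simpa using h3)) h2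
          · exact absurd (mem_Ts_dq.2 (by simpa using h3)) h2
          · rfl
          · have h4 : c < φ.length := by simpa using h3
            exact absurd (mem_Ts_uw.2 ⟨h4, Or.inl (lt_bound h4 (h.lt c h4))⟩) h2
        rcases a with a | a
        · simp only [idx_inl] at h4; simp [swp, tgtA, h4]
        · simp only [idx_inr] at h4; simp [swp, tgtA, h4]
      · simp [h2, h3]
  rw [e] at h1
  exact h1

theorem fin_stable (φ : CNF) : (mkt φ).Stable (fin φ) := by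
  intro a b hB
  have ha : fin φ a = some (tgtA a) := by simp [fin, hB.1.2.1]
  have hb : fin φ b = some (tgtA b) := by simp [fin, hB.1.2.2]
  have h1 := pr_tgt.1 (hB.2.2.1 _ ha)
  have h2 := pr_tgt.1 (hB.2.2.2 _ hb)
  rcases a with (⟨x, b⟩ | ⟨x, b⟩ | ⟨c, k⟩ | ⟨c, b⟩) | (⟨x, b⟩ | ⟨x, b⟩ | ⟨c, k⟩ | ⟨c, b⟩) <;>
    simp [btr] at h1 <;> subst h1 <;> simp [btr] at h2

/-- If the formula is satisfiable, then the target is reached. -/
theorem complete (h : φ.Sat) : (mkt φ).StopsAt (ini φ) (fin φ) := by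
  classical
  obtain ⟨v, hv⟩ := h
  have h1 : ∀ c, ∃ k, c < φ.length → k < (cl φ c).length ∧
      v (lit φ c k).2 = (lit φ c k).1 := by
    intro c
    by_cases hc : c < φ.length
    · obtain ⟨l, hl, hl'⟩ := hv _ (cl_mem hc)
      obtain ⟨k, hk, hk'⟩ := List.mem_iff_getElem.1 hl
      refine ⟨k, fun _ => ⟨hk, ?_⟩⟩
      have : lit φ c k = l := by
        unfold lit
        rw [List.getD_eq_getElem _ _ hk, hk']
      rw [this, hl']
    · exact ⟨0, fun h => absurd h hc⟩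
  choose κ hκ using h1
  have hC : Ch φ v κ := ⟨fun c hc => (hκ c hc).1, fun c hc => (hκ c hc).2⟩
  exact ⟨fin_stable φ, _, hC.reach⟩

/-- The target is reached if and only if the formula is satisfiable. -/
theorem sat_iff (φ : CNF) : φ.Sat ↔ (mkt φ).StopsAt (ini φ) (fin φ) := ⟨complete, sound⟩

end Pool.Agent.Reach
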