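import Pool.Agent.Work.MP_0acc7f_lc.General

/-!
# The market of a formula
-/

set_option autoImplicit false
set_option linter.unusedVariables false

namespace Pool.Agent.Reach

/-- Formulas in conjunctive normal form: lists of clauses, a clause being a list of literals;
the literal `(true, x)` is the variable `x` and `(false, x)` is its negation. -/
abbrev CNF := List (List (Bool × ℕ))

/-- Satisfiability. -/
def CNF.Sat (φ : CNF) : Prop := ∃ v : ℕ → Bool, ∀ c ∈ φ, ∃ l ∈ c, v l.2 = l.1

/-- Indices of the men and of the women. -/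
inductive J
  | pe (x : ℕ) (b : Bool)
  | dq (x : ℕ) (b : Bool)
  | hv (c k : ℕ)
  | uw (c : ℕ) (b : Bool)
  deriving DecidableEq

open J

/-- The clause with number `c`. -/
def cl (φ : CNF) (c : ℕ) : List (Bool × ℕ) := φ.getD c []

/-- The literal number `k` of the clause number `c`. -/
def lit (φ : CNF) (c k : ℕ) : Bool × ℕ := (cl φ c).getD k (true, 0)

/-- A bound for the names of the variables. -/
def bound (φ : CNF) : ℕ := (φ.flatten.map Prod.snd).sum + 1

/-- Occurrences of a literal. -/
def occ (φ : CNF) (x : ℕ) (b : Bool) : List J :=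
  (List.range φ.length).flatMap fun c =>
    ((List.range (cl φ c).length).filter fun k => lit φ c k = (b, x)).map (hv c)

/-- All indices. -/
def Js (φ : CNF) : List J :=
  ((List.range (bound φ)).flatMap fun x => [pe x false, pe x true, dq x false, dq x true]) ++
  (((List.range φ.length).flatMap fun c => (List.range (cl φ c).length).map (hv c)) ++
  ((List.range φ.length).flatMap fun c => [uw c false, uw c true]))

/-- The important part of the list of a man. -/
def manTop (φ : CNF) : J → List J
  | pe x b => [dq x (!b), dq x b, pe x b]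
  | dq x b => [dq x b, pe x (!b)]
  | hv c k => [dq (lit φ c k).2 (lit φ c k).1, hv c k]
  | uw c true => uw c false :: ((List.range (cl φ c).length).map (hv c) ++ [uw c true])
  | uw c false => [uw c true, uw c false]

/-- The important part of the list of a woman. -/
def womanTop (φ : CNF) : J → List J
  | pe x b => [pe x b, dq x (!b)]
  | dq x b => pe x b :: pe x (!b) :: dq x b :: occ φ x b
  | hv c k => [hv c k, uw c true]
  | uw c b => [uw c b, uw c (!b)]

/-- Complete a list of indices. -/
def compl (φ : CNF) (l : List J) : List J := l ++ (Js φ).filter (fun j => j ∉ l)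

/-- The target matching. -/
def tgt : J → J
  | pe x b => dq x (!b)
  | dq x b => pe x (!b)
  | hv c k => hv c k
  | uw c b => uw c (!b)

@[simp] theorem tgt_tgt (j : J) : tgt (tgt j) = j := by cases j <;> simp [tgt]

/-- The index of an agent. -/
def idx : J ⊕ J → J
  | .inl j => j
  | .inr j => j

@[simp] theorem idx_inl (j : J) : idx (.inl j) = j := rfl
@[simp] theorem idx_inr (j : J) : idx (.inr j) = j := rfl

/-- Important part of the list of an agent. -/
def top (φ : CNF) : J ⊕ J → List (J ⊕ J)
  | .inl j => (manTop φ j).map .inr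
  | .inr j => (womanTop φ j).map .inl

/-- Full list of an agent. -/
def full (φ : CNF) : J ⊕ J → List (J ⊕ J)
  | .inl j => (compl φ (manTop φ j)).map .inr
  | .inr j => (compl φ (womanTop φ j)).map .inl

/-- `b` is before `c` in the list `l`. -/
def Bef {α : Type} [DecidableEq α] (l : List α) (b c : α) : Prop := l.idxOf b < l.idxOf c

section bef
variable {α β : Type} [DecidableEq α] [DecidableEq β]

@[simp] theorem bef_nil (b c : α) : ¬ Bef [] b c := by simp [Bef]

theorem bef_cons (a b c : α) (l : List α) : Bef (a :: l) b c ↔ c ≠ a ∧ (b = a ∨ Bef l b c) := by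
  unfold Bef
  by_cases h1 : c = a
  · subst h1; simp
  · rw [List.idxOf_cons_ne _ (Ne.symm h1)]
    by_cases h2 : b = a
    · subst h2; simp [h1]
    · rw [List.idxOf_cons_ne _ (Ne.symm h2)]
      simp [h1, h2]

theorem bef_append_left {l l' : List α} {b c : α} (h : c ∈ l) : Bef (l ++ l') b c ↔ Bef l b c := by
  unfold Bef
  rw [List.idxOf_append, List.idxOf_append]
  simp only [h, if_true]
  split_ifs with h1
  · rfl
  · have h2 := List.idxOf_lt_length_iff.2 h
    have h3 := List.idxOf_eq_length_iff.2 h1
    omega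

theorem bef_append_right {l l' : List α} {b c : α} (h : c ∉ l) :
    Bef (l ++ l') b c ↔ b ∈ l ∨ Bef l' b c := by
  unfold Bef
  rw [List.idxOf_append, List.idxOf_append]
  simp only [h, if_false]
  split_ifs with h1
  · have := List.idxOf_lt_length_iff.2 h1
    simp only [h1, true_or, iff_true]
    omega
  · simp [h1]

theorem bef_map {f : α → β} (hf : Function.Injective f) (l : List α) (b c : α) :
    Bef (l.map f) (f b) (f c) ↔ Bef l b c := by
  induction l with
  | nil => simp
  | cons a l ih => simp only [List.map_cons, bef_cons, ih, hf.eq_iff, ne_eq]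

theorem bef_mem {l : List α} {b c : α} (h : Bef l b c) : b ∈ l := by
  unfold Bef at h
  have := List.idxOf_le_length (a := c) (l := l)
  exact List.idxOf_lt_length_iff.1 (lt_of_lt_of_le h this)

theorem bef_of_notMem {l : List α} {b c : α} (h : b ∈ l) (h' : c ∉ l) : Bef l b c := by
  unfold Bef
  rw [List.idxOf_eq_length_iff.2 h']
  exact List.idxOf_lt_length_iff.2 h

theorem bef_irrefl (l : List α) (b : α) : ¬ Bef l b b := lt_irrefl _

end bef

/-- The market of a formula. -/
def mkt (φ : CNF) : Market (J ⊕ J) where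
  opp a b := a.isLeft ≠ b.isLeft ∧ idx a ∈ Js φ ∧ idx b ∈ Js φ
  pr a b c := Bef (full φ a) b c

theorem mkt_good (φ : CNF) : (mkt φ).Good where
  symm a b h := ⟨h.1.symm, h.2.2, h.2.1⟩
  irrefl a h := h.1 rfl
  asymm a b c h := lt_asymm h
  trans a b c d h h' := lt_trans h h'

theorem full_eq (φ : CNF) (a : J ⊕ J) : ∃ l, full φ a = top φ a ++ l := by
  cases a <;> simp [full, top, compl]

theorem pr_iff {φ : CNF} {a b c : J ⊕ J} (hc : c ∈ top φ a) :
    (mkt φ).pr a b c ↔ Bef (top φ a) b c := by
  obtain ⟨l, hl⟩ := full_eq φ a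
  show Bef (full φ a) b c ↔ _
  rw [hl, bef_append_left hc]

theorem pr_of_top {φ : CNF} {a b c : J ⊕ J} (hb : b ∈ top φ a) (hc : c ∉ top φ a) :
    (mkt φ).pr a b c := by
  obtain ⟨l, hl⟩ := full_eq φ a
  show Bef (full φ a) b c
  rw [hl, bef_append_right hc]
  exact Or.inl hb

/-- The other sex. -/
def swp : J ⊕ J → J ⊕ J
  | .inl j => .inr j
  | .inr j => .inl j

/-- The target partner. -/
def tgtA : J ⊕ J → J ⊕ J
  | .inl j => .inr (tgt j)
  | .inr j => .inl (tgt j)

open Classical in
/-- The initial matching. -/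
noncomputable def ini (φ : CNF) (a : J ⊕ J) : Option (J ⊕ J) :=
  if idx a ∈ Js φ then some (swp a) else none

open Classical in
/-- The target matching. -/
noncomputable def fin (φ : CNF) (a : J ⊕ J) : Option (J ⊕ J) :=
  if idx a ∈ Js φ then some (tgtA a) else none

@[simp] theorem mem_Js_pe (φ : CNF) (x : ℕ) (b : Bool) : pe x b ∈ Js φ ↔ x < bound φ := by
  cases b <;> simp [Js]

@[simp] theorem mem_Js_dq (φ : CNF) (x : ℕ) (b : Bool) : dq x b ∈ Js φ ↔ x < bound φ := by
  cases b <;> simp [Js]

@[simp] theorem mem_Js_hv (φ : CNF) (c k : ℕ) :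
    hv c k ∈ Js φ ↔ c < φ.length ∧ k < (cl φ c).length := by
  simp [Js]

@[simp] theorem mem_Js_uw (φ : CNF) (c : ℕ) (b : Bool) : uw c b ∈ Js φ ↔ c < φ.length := by
  cases b <;> simp [Js]

@[simp] theorem tgt_mem_Js (φ : CNF) (j : J) : tgt j ∈ Js φ ↔ j ∈ Js φ := by
  cases j <;> simp [tgt]

theorem cl_mem {φ : CNF} {c : ℕ} (hc : c < φ.length) : cl φ c ∈ φ := by
  unfold cl
  rw [List.getD_eq_getElem _ _ hc]
  exact List.getElem_mem _

theorem lit_mem {φ : CNF} {c k : ℕ} (hk : k < (cl φ c).length) : lit φ c k ∈ cl φ c := by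
  unfold lit
  rw [List.getD_eq_getElem _ _ hk]
  exact List.getElem_mem _

theorem lt_bound {φ : CNF} {c k : ℕ} (hc : c < φ.length) (hk : k < (cl φ c).length) :
    (lit φ c k).2 < bound φ := by
  unfold bound
  refine Nat.lt_succ_of_le (List.single_le_sum (by simp) _ ?_)
  refine List.mem_map.2 ⟨lit φ c k, List.mem_flatten.2 ⟨cl φ c, cl_mem hc, lit_mem hk⟩, rfl⟩

theorem mem_occ {φ : CNF} {x : ℕ} {b : Bool} {j : J} :
    j ∈ occ φ x b ↔ ∃ c k, j = hv c k ∧ c < φ.length ∧ k < (cl φ c).length ∧
      lit φ c k = (b, x) := by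
  simp only [occ, List.mem_flatMap, List.mem_range, List.mem_map, List.mem_filter,
    decide_eq_true_eq]
  constructor
  · rintro ⟨c, hc, k, ⟨hk, h1⟩, rfl⟩
    exact ⟨c, k, rfl, hc, hk, h1⟩
  · rintro ⟨c, k, rfl, hc, hk, h1⟩
    exact ⟨c, hc, k, ⟨hk, h1⟩, rfl⟩

/-- Order inside the important part of the list of an agent. -/
def TB (φ : CNF) (a b c : J ⊕ J) : Prop := Bef (top φ a) b c

theorem ini_sym (φ : CNF) (a b : J ⊕ J) (h : ini φ a = some b) : ini φ b = some a := by
  unfold ini at h ⊢
  split_ifs at h with h1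
  cases h
  cases a <;> (simp only [idx_inl, idx_inr] at h1; simp [swp, h1])

theorem ini_opp (φ : CNF) (a b : J ⊕ J) (h : ini φ a = some b) : (mkt φ).opp a b := by
  unfold ini at h
  split_ifs at h with h1
  cases h
  cases a <;> exact ⟨by simp [swp], h1, h1⟩

end Pool.Agent.Reach
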