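import Pool.Agent.Work.MP_0acc7f_lc.Defs

/-!
# Invariants of the Roth-Vande Vate mechanism
-/

set_option autoImplicit false
set_option linter.unusedVariables false

namespace Pool.Agent.Reach

variable {A : Type}

theorem unmatch_of {μ : A → Option A} {a x : A} (h1 : x ≠ a) (h2 : μ a ≠ some x) :
    unmatch μ a x = μ x := by
  simp [unmatch, h1, h2]

theorem unmatch_self (μ : A → Option A) (a : A) : unmatch μ a a = none := by
  simp [unmatch]

theorem unmatch_partner {μ : A → Option A} {a x : A} (h : μ a = some x) :
    unmatch μ a x = none := by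
  simp [unmatch, h]

theorem join_left (μ : A → Option A) (a b : A) : join μ a b a = some b := by
  simp [join]

theorem join_right {μ : A → Option A} {a b : A} (h : b ≠ a) : join μ a b b = some a := by
  simp [join, h]

theorem join_of {μ : A → Option A} {a b x : A} (h1 : x ≠ a) (h2 : x ≠ b) :
    join μ a b x = μ x := by
  simp [join, h1, h2]

/-- Basic properties of a market. -/
structure Market.Good (K : Market A) : Prop where
  symm : ∀ a b, K.opp a b → K.opp b a
  irrefl : ∀ a, ¬ K.opp a a
  asymm : ∀ a b c, K.pr a b c → ¬ K.pr a c b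
  trans : ∀ a b c d, K.pr a b c → K.pr a c d → K.pr a b d

variable {K : Market A}

theorem Market.Good.irr (hK : K.Good) (a b : A) : ¬ K.pr a b b := fun h => hK.asymm _ _ _ h h

theorem Market.Blocks.symm (hK : K.Good) {μ : A → Option A} (hμ : ∀ a b, μ a = some b → μ b = some a)
    {a b : A} (h : K.Blocks μ a b) : K.Blocks μ b a :=
  ⟨hK.symm _ _ h.1, fun e => h.2.1 (hμ _ _ e), h.2.2.2, h.2.2.1⟩

/-- `μ` is a matching of the market with no pair between `S` and its complement. -/
structure Closed (K : Market A) (S : Set A) (μ : A → Option A) : Prop where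
  sym : ∀ a b, μ a = some b → μ b = some a
  opp : ∀ a b, μ a = some b → K.opp a b
  cross : ∀ a b, μ a = some b → a ∈ S → b ∈ S

theorem Closed.cross' {S : Set A} {μ : A → Option A} (h : Closed K S μ) {a b : A}
    (e : μ a = some b) (hb : b ∈ S) : a ∈ S := h.cross b a (h.sym _ _ e) hb

theorem restrict_eq {S : Set A} {μ : A → Option A} (h : Closed K S μ) {a : A} (ha : a ∈ S) :
    restrict μ S a = μ a := by
  unfold restrict
  rw [if_pos ha]
  cases e : μ a with
  | none => rfl
  | some b => simp [Option.filter, h.cross a b e ha]

theorem blocksIn_iff {S : Set A} {μ : A → Option A} (h : Closed K S μ) {a b : A} :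
    K.BlocksIn S μ a b ↔ a ∈ S ∧ b ∈ S ∧ K.Blocks μ a b := by
  unfold Market.BlocksIn Market.Blocks
  constructor
  · rintro ⟨ha, hb, h1⟩
    rw [restrict_eq h ha, restrict_eq h hb] at h1
    exact ⟨ha, hb, h1⟩
  · rintro ⟨ha, hb, h1⟩
    rw [restrict_eq h ha, restrict_eq h hb]
    exact ⟨ha, hb, h1⟩

theorem Closed.ne (hK : K.Good) {S : Set A} {μ : A → Option A} (h : Closed K S μ) {a b : A}
    (e : μ a = some b) : a ≠ b := by
  rintro rfl
  exact hK.irrefl _ (h.opp _ _ e)

/-- Matching `p` with `b` after freeing `b`. -/
theorem Closed.join (hK : K.Good) {S : Set A} {μ : A → Option A} (h : Closed K S μ) {p b : A}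
    (hp : μ p = none) (hpS : p ∈ S) (hbS : b ∈ S) (ho : K.opp p b) :
    Closed K S (join (unmatch μ b) p b) := by
  have hpb : p ≠ b := by rintro rfl; exact hK.irrefl _ ho
  constructor
  · intro x y e
    by_cases h1 : x = p
    · subst h1
      rw [join_left] at e
      cases e
      exact join_right (Ne.symm hpb)
    · by_cases h2 : x = b
      · subst h2
        rw [join_right h1] at e
        cases e
        exact join_left _ _ _
      · rw [join_of h1 h2] at e
        by_cases h3 : μ b = some x
        · rw [unmatch_partner h3] at e; cases e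
        · rw [unmatch_of h2 h3] at e
          have h4 := h.sym _ _ e
          have h5 : y ≠ p := by rintro rfl; rw [hp] at h4; cases h4
          have h6 : y ≠ b := by rintro rfl; exact h3 h4
          rw [join_of h5 h6]
          have h7 : μ b ≠ some y := by
            intro e7
            have := h.sym _ _ e7
            rw [this] at h4
            cases h4
            exact h2 rfl
          rw [unmatch_of h6 h7]
          exact h4
  · intro x y e
    by_cases h1 : x = p
    · subst h1
      rw [join_left] at e
      cases e
      exact ho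
    · by_cases h2 : x = b
      · subst h2
        rw [join_right h1] at e
        cases e
        exact hK.symm _ _ ho
      · rw [join_of h1 h2] at e
        by_cases h3 : μ b = some x
        · rw [unmatch_partner h3] at e; cases e
        · rw [unmatch_of h2 h3] at e
          exact h.opp _ _ e
  · intro x y e hx
    by_cases h1 : x = p
    · subst h1
      rw [join_left] at e
      cases e
      exact hbS
    · by_cases h2 : x = b
      · subst h2
        rw [join_right h1] at e
        cases e
        exact hpS
      · rw [join_of h1 h2] at e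
        by_cases h3 : μ b = some x
        · rw [unmatch_partner h3] at e; cases e
        · rw [unmatch_of h2 h3] at e
          exact h.cross _ _ e hx

/-- Value of the new matching at an agent other than the two partners and the freed one. -/
theorem move_of {μ : A → Option A} {p b x : A} (h1 : x ≠ p) (h2 : x ≠ b) (h3 : μ b ≠ some x) :
    join (unmatch μ b) p b x = μ x := by
  rw [join_of h1 h2, unmatch_of h2 h3]

theorem move_free {μ : A → Option A} {p b c : A} (h1 : c ≠ p) (h2 : c ≠ b) (h3 : μ b = some c) :
    join (unmatch μ b) p b c = none := by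
  rw [join_of h1 h2, unmatch_partner h3]

/-- The invariant of the inner loop. -/
structure LInv (K : Market A) (S : Set A) (μ : A → Option A) (p : A) : Prop where
  closed : Closed K S μ
  mem : p ∈ S
  block : ∀ x ∈ S, ∀ y ∈ S, K.Blocks μ x y → x = p ∨ y = p
  single : μ p = none ∨ ∀ y ∈ S, ¬ K.Blocks μ p y

theorem LInv.loop (hK : K.Good) {S : Set A} {μ μ' : A → Option A} {p : A}
    (h : K.Loop S μ p μ') (hi : LInv K S μ p) :
    Closed K S μ' ∧ (∀ x ∈ S, ∀ y ∈ S, ¬ K.Blocks μ' x y) ∧ ∀ x, x ∉ S → μ' x = μ x := by
  induction h with
  | stop μ p h =>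
    refine ⟨hi.closed, fun x hx y hy hb => ?_, fun _ _ => rfl⟩
    rcases hi.block x hx y hy hb with rfl | rfl
    · exact h y ((blocksIn_iff hi.closed).2 ⟨hx, hy, hb⟩)
    · exact h x ((blocksIn_iff hi.closed).2 ⟨hy, hx, hb.symm hK hi.closed.sym⟩)
  | next μ p b μ' h best rest ih =>
    have hcl := hi.closed
    obtain ⟨hpS, hbS, hpb⟩ := (blocksIn_iff hcl).1 h
    have hp : μ p = none := by
      rcases hi.single with h1 | h1
      · exact h1
      · exact absurd hpb (h1 b hbS)
    have hne : p ≠ b := by rintro rfl; exact hK.irrefl _ hpb.1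
    have hcl' := hcl.join hK hp hpS hbS hpb.1
    have hbest : ∀ y ∈ S, K.Blocks μ p y → y = b ∨ K.pr p b y := fun y hy hy' =>
      best y ((blocksIn_iff hcl).2 ⟨hpS, hy, hy'⟩)
    -- blocking pairs of the new matching which avoid the freed agent
    have key : ∀ x ∈ S, ∀ y ∈ S, μ b ≠ some x → μ b ≠ some y →
        K.Blocks (Reach.join (unmatch μ b) p b) x y → False := by
      intro x hx y hy hxc hyc hB
      -- reduce to statements about the old matching
      have main : ∀ x ∈ S, ∀ y ∈ S, μ b ≠ some x → μ b ≠ some y → x ≠ p →
          K.Blocks (Reach.join (unmatch μ b) p b) x y → y = p ∨ K.Blocks μ x y := by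
        intro x hx y hy hxc hyc hxp hB
        by_cases hyp : y = p
        · exact Or.inl hyp
        refine Or.inr ?_
        obtain ⟨h1, h2, h3, h4⟩ := hB
        refine ⟨h1, ?_, ?_, ?_⟩
        · intro e
          by_cases hxb : x = b
          · subst hxb; exact hyc e
          · by_cases hyb : y = b
            · subst hyb; exact hxc (hcl.sym _ _ e)
            · exact h2 (by rw [move_of hxp hxb hxc]; exact e)
        · intro c hc
          by_cases hxb : x = b
          · subst hxb
            have h5 := h3 p (join_right hxp)
            have h6 := hpb.2.2.2 c hc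
            exact hK.trans _ _ _ _ h5 h6
          · exact h3 c (by rw [move_of hxp hxb hxc]; exact hc)
        · intro c hc
          by_cases hyb : y = b
          · subst hyb
            have h5 := h4 p (join_right hyp)
            have h6 := hpb.2.2.2 c hc
            exact hK.trans _ _ _ _ h5 h6
          · exact h4 c (by rw [move_of hyp hyb hyc]; exact hc)
      -- pairs containing `p`
      have main2 : ∀ y ∈ S, μ b ≠ some y → ¬ K.Blocks (Reach.join (unmatch μ b) p b) p y := by
        intro y hy hyc hB
        obtain ⟨h1, h2, h3, h4⟩ := hB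
        have hyp : y ≠ p := by rintro rfl; exact hK.irrefl _ h1
        have h5 := h3 b (join_left _ _ _)
        have hyb : y ≠ b := by rintro rfl; exact h2 (join_left _ _ _)
        have h6 : K.Blocks μ p y := by
          refine ⟨h1, by rw [hp]; simp, by rw [hp]; simp, fun c hc => ?_⟩
          exact h4 c (by rw [move_of hyp hyb hyc]; exact hc)
        rcases hbest y hy h6 with h7 | h7
        · exact hyb h7
        · exact hK.asymm _ _ _ h5 h7
      by_cases hxp : x = p
      · subst hxp; exact main2 y hy hyc hB
      · rcases main x hx y hy hxc hyc hxp hB with h1 | h1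
        · subst h1
          exact main2 x hx hxc (hB.symm hK hcl'.sym)
        · rcases hi.block x hx y hy h1 with h2 | h2
          · exact hxp h2
          · subst h2
            exact main2 x hx hxc (hB.symm hK hcl'.sym)
    have hnew : LInv K S (Reach.join (unmatch μ b) p b) ((μ b).getD p) := by
      cases hc : μ b with
      | none =>
        simp only [Option.getD_none]
        refine ⟨hcl', hpS, fun x hx y hy hB => ?_, Or.inr fun y hy hB => ?_⟩
        · exact (key x hx y hy (by simp [hc]) (by simp [hc]) hB).elim
        · exact key p hpS y hy (by simp [hc]) (by simp [hc]) hB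
      | some c =>
        simp only [Option.getD_some]
        have hcS : c ∈ S := hcl.cross _ _ hc hbS
        have hcb : c ≠ b := (hcl.ne hK hc).symm
        have hcp : c ≠ p := by
          rintro rfl
          have := hcl.sym _ _ hc
          rw [hp] at this; cases this
        refine ⟨hcl', hcS, fun x hx y hy hB => ?_, Or.inl (move_free hcp hcb hc)⟩
        by_contra hcon
        push Not at hcon
        exact key x hx y hy (fun e => hcon.1 (by rw [hc] at e; exact (Option.some.inj e).symm))
          (fun e => hcon.2 (by rw [hc] at e; exact (Option.some.inj e).symm)) hB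
    obtain ⟨h1, h2, h3⟩ := ih hnew
    refine ⟨h1, h2, fun x hx => ?_⟩
    rw [h3 x hx]
    refine move_of ?_ ?_ ?_
    · rintro rfl; exact hx hpS
    · rintro rfl; exact hx hbS
    · intro e; exact hx (hcl.cross _ _ e hbS)

/-- The invariant of the mechanism. -/
structure Inv (K : Market A) (μ₀ : A → Option A) (s : (A → Option A) × Set A) : Prop where
  closed : Closed K s.2 s.1
  stab : ∀ x ∈ s.2, ∀ y ∈ s.2, ¬ K.Blocks s.1 x y
  out : ∀ x, x ∉ s.2 → ∀ y, s.1 x = some y ↔ μ₀ x = some y ∧ y ∉ s.2

theorem Inv.init {μ₀ : A → Option A} (h1 : ∀ a b, μ₀ a = some b → μ₀ b = some a)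
    (h2 : ∀ a b, μ₀ a = some b → K.opp a b) : Inv K μ₀ (μ₀, ∅) where
  closed := ⟨h1, h2, by simp⟩
  stab := by simp
  out := by simp

theorem Closed.unmatch {S : Set A} {μ : A → Option A} (h : Closed K S μ) (a : A) :
    Closed K (insert a S) (unmatch μ a) := by
  constructor
  · intro x y e
    by_cases h1 : x = a
    · subst h1; rw [unmatch_self] at e; cases e
    by_cases h2 : μ a = some x
    · rw [unmatch_partner h2] at e; cases e
    rw [unmatch_of h1 h2] at e
    have h3 := h.sym _ _ e
    have h4 : y ≠ a := by rintro rfl; exact h2 h3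
    have h5 : μ a ≠ some y := by
      intro e5
      have := h.sym _ _ e5
      rw [this] at h3
      cases h3
      exact h1 rfl
    rw [unmatch_of h4 h5]
    exact h3
  · intro x y e
    by_cases h1 : x = a
    · subst h1; rw [unmatch_self] at e; cases e
    by_cases h2 : μ a = some x
    · rw [unmatch_partner h2] at e; cases e
    rw [unmatch_of h1 h2] at e
    exact h.opp _ _ e
  · intro x y e hx
    by_cases h1 : x = a
    · subst h1; rw [unmatch_self] at e; cases e
    by_cases h2 : μ a = some x
    · rw [unmatch_partner h2] at e; cases e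
    rw [unmatch_of h1 h2] at e
    rcases hx with rfl | hx
    · exact absurd rfl h1
    · exact Or.inr (h.cross _ _ e hx)

theorem unmatch_of_mem (hK : K.Good) {S : Set A} {μ : A → Option A} (h : Closed K S μ) {a x : A}
    (ha : a ∉ S) (hx : x ∈ S) : unmatch μ a x = μ x := by
  refine unmatch_of ?_ ?_
  · rintro rfl; exact ha hx
  · intro e; exact ha (h.cross' e hx)

/-- After freeing the entering agent, blocking pairs involve it. -/
theorem Inv.lInv (hK : K.Good) {μ₀ μ : A → Option A} {S : Set A} (h : Inv K μ₀ (μ, S)) {a : A}
    (ha : a ∉ S) : LInv K (insert a S) (unmatch μ a) a where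
  closed := h.closed.unmatch a
  mem := Set.mem_insert _ _
  single := Or.inl (unmatch_self _ _)
  block := by
    intro x hx y hy hB
    by_contra hcon
    push Not at hcon
    have hx' : x ∈ S := by
      rcases hx with h1 | h1
      · exact absurd h1 hcon.1
      · exact h1
    have hy' : y ∈ S := by
      rcases hy with h1 | h1
      · exact absurd h1 hcon.2
      · exact h1
    refine h.stab x hx' y hy' ?_
    obtain ⟨h1, h2, h3, h4⟩ := hB
    rw [unmatch_of_mem hK h.closed ha hx'] at h2 h3
    rw [unmatch_of_mem hK h.closed ha hy'] at h4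
    exact ⟨h1, h2, h3, h4⟩

theorem Inv.step (hK : K.Good) {μ₀ : A → Option A} (h0 : ∀ a b, μ₀ a = some b → μ₀ b = some a)
    {s t : (A → Option A) × Set A} (h : Inv K μ₀ s) (hst : K.Step s t) : Inv K μ₀ t := by
  cases hst with
  | one μ S a b μ' ha hb hab hl =>
    obtain ⟨h1, h2, h3⟩ := LInv.loop hK hl (h.lInv hK ha)
    refine ⟨h1, h2, fun x hx y => ?_⟩
    dsimp only at hx ⊢
    rw [h3 x hx]
    have hxa : x ≠ a := by rintro rfl; exact hx (Set.mem_insert _ _)
    have hxS : x ∉ S := fun h => hx (Set.mem_insert_of_mem _ h)
    have hout := h.out x hxS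
    dsimp only at hout
    by_cases hax : μ a = some x
    · rw [unmatch_partner hax]
      have h4 := (hout a).1 (h.closed.sym _ _ hax)
      constructor
      · intro e; cases e
      · rintro ⟨h5, h6⟩
        rw [h4.1] at h5
        cases h5
        exact absurd (Set.mem_insert _ _) h6
    · rw [unmatch_of hxa hax, hout y]
      constructor
      · rintro ⟨h4, h5⟩
        refine ⟨h4, ?_⟩
        rintro (rfl | h6)
        · exact hax (h.closed.sym _ _ ((hout _).2 ⟨h4, h5⟩))
        · exact h5 h6
      · rintro ⟨h4, h5⟩
        exact ⟨h4, fun h6 => h5 (Set.mem_insert_of_mem _ h6)⟩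
  | two μ S m w hno hmw =>
    have hcl := h.closed
    have hstab := h.stab
    have hout := h.out
    dsimp only at hcl hstab hout
    have hwm := hmw.symm hK hcl.sym
    have hne : m ≠ w := by rintro rfl; exact hK.irrefl _ hmw.1
    have hm : m ∉ S := by
      intro hm
      by_cases hw : w ∈ S
      · exact hstab m hm w hw hmw
      · exact hno w m hw hm hwm
    have hw : w ∉ S := by
      intro hw
      exact hno m w hm hw hmw
    have hcl1 := hcl.unmatch m
    have hcl2 := hcl1.unmatch w
    -- values
    have hmw' : μ m ≠ some w := hmw.2.1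
    have hwm' : μ w ≠ some m := hwm.2.1
    have hval : ∀ x, x ≠ m → x ≠ w → μ m ≠ some x → μ w ≠ some x →
        Reach.join (Reach.unmatch (Reach.unmatch μ m) w) m w x = μ x := by
      intro x h1 h2 h3 h4
      rw [join_of h1 h2, unmatch_of h2, unmatch_of h1 h3]
      rw [unmatch_of hne.symm hmw']
      exact h4
    have hvalS : ∀ x ∈ S, Reach.join (Reach.unmatch (Reach.unmatch μ m) w) m w x = μ x := by
      intro x hx
      refine hval x ?_ ?_ ?_ ?_
      · rintro rfl; exact hm hx
      · rintro rfl; exact hw hx
      · intro e; exact hm (hcl.cross' e hx)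
      · intro e; exact hw (hcl.cross' e hx)
    have hmv : Reach.unmatch (Reach.unmatch μ m) w m = none := by
      rw [unmatch_of hne, unmatch_self]
      rw [unmatch_of hne.symm hmw']
      exact hwm'
    have hwv : Reach.unmatch (Reach.unmatch μ m) w w = none := unmatch_self _ _
    have hS : ∀ x, x ∈ insert m (insert w S) ↔ x ∈ insert w (insert m S) := by
      intro x; simp only [Set.mem_insert_iff]; tauto
    have hcl3 : Closed K (insert m (insert w S))
        (Reach.join (Reach.unmatch (Reach.unmatch μ m) w) m w) := by
      have h1 : Closed K (insert m (insert w S)) (Reach.unmatch (Reach.unmatch μ m) w) :=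
        ⟨hcl2.sym, hcl2.opp, fun a b e ha => (hS b).2 (hcl2.cross a b e ((hS a).1 ha))⟩
      have h2 := h1.join hK (p := m) (b := w) hmv (Set.mem_insert _ _)
        (Set.mem_insert_of_mem _ (Set.mem_insert _ _)) hmw.1
      have h3 : Reach.unmatch (Reach.unmatch (Reach.unmatch μ m) w) w =
          Reach.unmatch (Reach.unmatch μ m) w := by
        funext x
        by_cases hx : x = w
        · rw [hx, unmatch_self, unmatch_self]
        · exact unmatch_of hx (by rw [hwv]; simp)
      rw [h3] at h2
      exact h2
    refine ⟨hcl3, ?_, ?_⟩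
    · dsimp only
      have hSS : ∀ x ∈ S, ∀ y ∈ S,
          ¬ K.Blocks (Reach.join (Reach.unmatch (Reach.unmatch μ m) w) m w) x y := by
        intro x hx y hy hB
        obtain ⟨h1, h2, h3, h4⟩ := hB
        rw [hvalS x hx] at h2 h3
        rw [hvalS y hy] at h4
        exact hstab x hx y hy ⟨h1, h2, h3, h4⟩
      have hmS : ∀ y ∈ S,
          ¬ K.Blocks (Reach.join (Reach.unmatch (Reach.unmatch μ m) w) m w) m y := by
        intro y hy hB
        obtain ⟨h1, h2, h3, h4⟩ := hB
        rw [hvalS y hy] at h4
        refine hno m y hm hy ⟨h1, ?_, ?_, h4⟩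
        · intro e; exact hm (hcl.cross' e hy)
        · intro c hc
          exact hK.trans _ _ _ _ (h3 w (join_left _ _ _)) (hmw.2.2.1 c hc)
      have hwS : ∀ y ∈ S,
          ¬ K.Blocks (Reach.join (Reach.unmatch (Reach.unmatch μ m) w) m w) w y := by
        intro y hy hB
        obtain ⟨h1, h2, h3, h4⟩ := hB
        rw [hvalS y hy] at h4
        refine hno w y hw hy ⟨h1, ?_, ?_, h4⟩
        · intro e; exact hw (hcl.cross' e hy)
        · intro c hc
          exact hK.trans _ _ _ _ (h3 m (join_right hne.symm)) (hwm.2.2.1 c hc)
      have hwm3 : ¬ K.Blocks (Reach.join (Reach.unmatch (Reach.unmatch μ m) w) m w) w m :=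
        fun hB => hB.2.1 (join_right hne.symm)
      have hmw3 : ¬ K.Blocks (Reach.join (Reach.unmatch (Reach.unmatch μ m) w) m w) m w :=
        fun hB => hB.2.1 (join_left _ _ _)
      intro x hx y hy hB
      rcases hx with rfl | rfl | hx
      · rcases hy with rfl | rfl | hy
        · exact hK.irrefl _ hB.1
        · exact hmw3 hB
        · exact hmS y hy hB
      · rcases hy with rfl | rfl | hy
        · exact hwm3 hB
        · exact hK.irrefl _ hB.1
        · exact hwS y hy hB
      · rcases hy with rfl | rfl | hy
        · exact hmS x hx (hB.symm hK hcl3.sym)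
        · exact hwS x hx (hB.symm hK hcl3.sym)
        · exact hSS x hx y hy hB
    · dsimp only
      intro x hx y
      have hxm : x ≠ m := by rintro rfl; exact hx (Set.mem_insert _ _)
      have hxw : x ≠ w := by
        rintro rfl; exact hx (Set.mem_insert_of_mem _ (Set.mem_insert _ _))
      have hxS : x ∉ S := fun h =>
        hx (Set.mem_insert_of_mem _ (Set.mem_insert_of_mem _ h))
      have hfree : ∀ z, (z = m ∨ z = w) → μ z = some x →
          (none = some y ↔ μ₀ x = some y ∧ y ∉ insert m (insert w S)) := by
        intro z hz e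
        have h4 := (hout x hxS z).1 (hcl.sym _ _ e)
        constructor
        · intro e; cases e
        · rintro ⟨h5, h6⟩
          rw [h4.1] at h5
          cases h5
          refine absurd ?_ h6
          rcases hz with rfl | rfl
          · exact Set.mem_insert _ _
          · exact Set.mem_insert_of_mem _ (Set.mem_insert _ _)
      by_cases h3 : μ m = some x
      · rw [join_of hxm hxw]
        have : Reach.unmatch (Reach.unmatch μ m) w x = none := by
          by_cases h5 : Reach.unmatch μ m w = some x
          · exact unmatch_partner h5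
          · rw [unmatch_of hxw h5, unmatch_partner h3]
        rw [this]
        exact hfree m (Or.inl rfl) h3
      · by_cases h4 : μ w = some x
        · rw [join_of hxm hxw]
          have : Reach.unmatch (Reach.unmatch μ m) w x = none := by
            refine unmatch_partner ?_
            rw [unmatch_of hne.symm hmw']
            exact h4
          rw [this]
          exact hfree w (Or.inr rfl) h4
        · rw [hval x hxm hxw h3 h4, hout x hxS y]
          constructor
          · rintro ⟨h5, h6⟩
            refine ⟨h5, ?_⟩
            rintro (rfl | rfl | h7)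
            · exact h3 (hcl.sym _ _ ((hout x hxS _).2 ⟨h5, h6⟩))
            · exact h4 (hcl.sym _ _ ((hout x hxS _).2 ⟨h5, h6⟩))
            · exact h6 h7
          · rintro ⟨h5, h6⟩
            exact ⟨h5, fun h7 => h6 (Set.mem_insert_of_mem _ (Set.mem_insert_of_mem _ h7))⟩

/-- Agents entering `S` are in a blocking pair with an agent of the new set. -/
theorem step_enter {s t : (A → Option A) × Set A} (hst : K.Step s t) (hK : K.Good)
    (hs : ∀ a b, s.1 a = some b → s.1 b = some a) {a : A} (ha : a ∉ s.2) (ha' : a ∈ t.2) :
    ∃ b ∈ t.2, K.Blocks s.1 a b := by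
  cases hst with
  | one μ S a' b μ' h1 hb hab hl =>
    rcases ha' with rfl | h
    · exact ⟨b, Set.mem_insert_of_mem _ hb, hab⟩
    · exact absurd h ha
  | two μ S m w hno hmw =>
    rcases ha' with rfl | rfl | h
    · exact ⟨w, Set.mem_insert_of_mem _ (Set.mem_insert _ _), hmw⟩
    · exact ⟨m, Set.mem_insert _ _, hmw.symm hK hs⟩
    · exact absurd h ha

theorem step_mono {s t : (A → Option A) × Set A} (hst : K.Step s t) : s.2 ⊆ t.2 := by
  cases hst with
  | one μ S a' b μ' h1 hb hab hl => exact Set.subset_insert _ _
  | two μ S m w hno hmw =>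
    exact (Set.subset_insert _ _).trans (Set.subset_insert _ _)

end Pool.Agent.Reach
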