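import Pool.Agent.Work.MP_0acc7f_lc.Transport

/-!
# The instance of REACH of a formula
-/

set_option autoImplicit false
set_option linter.unusedVariables false
set_option linter.unusedSectionVars false

namespace Pool.Agent.Reach

open J

variable {φ : CNF}

theorem nodup_flatMap {α β : Type} {l : List α} {f : α → List β} (hl : l.Nodup)
    (h1 : ∀ a ∈ l, (f a).Nodup) (h2 : ∀ a ∈ l, ∀ b ∈ l, a ≠ b → ∀ x ∈ f a, x ∉ f b) :
    (l.flatMap f).Nodup := by
  induction l with
  | nil => simp
  | cons a l ih =>
    rw [List.nodup_cons] at hl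
    rw [List.flatMap_cons, List.nodup_append]
    refine ⟨h1 a (by simp), ih hl.2 (fun b hb => h1 b (by simp [hb]))
      (fun b hb c hc => h2 b (by simp [hb]) c (by simp [hc])), ?_⟩
    intro x hx y hy
    rintro rfl
    obtain ⟨b, hb, hb'⟩ := List.mem_flatMap.1 hy
    exact h2 a (by simp) b (by simp [hb]) (by rintro rfl; exact hl.1 hb) x hx hb'

theorem nodup_Js (φ : CNF) : (Js φ).Nodup := by
  unfold Js
  rw [List.nodup_append, List.nodup_append]
  refine ⟨?_, ⟨?_, ?_, ?_⟩, ?_⟩
  · refine nodup_flatMap List.nodup_range (by simp) ?_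
    intro a _ b _ hab x hx hx'
    simp only [List.mem_cons, List.not_mem_nil, or_false] at hx hx'
    rcases hx with rfl | rfl | rfl | rfl <;> simp [hab] at hx'
  · refine nodup_flatMap List.nodup_range ?_ ?_
    · intro a _
      exact List.nodup_range.map fun _ _ h => (J.hv.inj h).2
    · intro a _ b _ hab x hx hx'
      simp only [List.mem_map] at hx hx'
      obtain ⟨k, _, rfl⟩ := hx
      obtain ⟨k', _, h⟩ := hx'
      exact hab (J.hv.inj h).1.symm
  · refine nodup_flatMap List.nodup_range (by simp) ?_
    intro a _ b _ hab x hx hx'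
    simp only [List.mem_cons, List.not_mem_nil, or_false] at hx hx'
    rcases hx with rfl | rfl <;> simp [hab] at hx'
  · intro a ha b hb
    rintro rfl
    simp only [List.mem_flatMap, List.mem_map, List.mem_cons, List.not_mem_nil, or_false] at ha hb
    obtain ⟨_, _, _, _, rfl⟩ := ha
    obtain ⟨_, _, h⟩ := hb
    simp at h
  · intro a ha b hb
    rintro rfl
    simp only [List.mem_flatMap, List.mem_map, List.mem_cons, List.not_mem_nil, or_false,
      List.mem_append] at ha hb
    obtain ⟨_, _, h⟩ := ha
    rcases hb with ⟨_, _, _, _, rfl⟩ | ⟨_, _, h'⟩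
    · simp at h
    · rcases h' with rfl | rfl <;> simp at h

theorem nodup_occ (φ : CNF) (x : ℕ) (b : Bool) : (occ φ x b).Nodup := by
  unfold occ
  refine nodup_flatMap List.nodup_range ?_ ?_
  · intro a _
    exact (List.nodup_range.filter _).map fun _ _ h => (J.hv.inj h).2
  · intro a _ c _ hac x hx hx'
    simp only [List.mem_map] at hx hx'
    obtain ⟨k, _, rfl⟩ := hx
    obtain ⟨k', _, h⟩ := hx'
    exact hac (J.hv.inj h).1.symm

theorem manTop_ok {j : J} (hj : j ∈ Js φ) :
    (manTop φ j).Nodup ∧ ∀ i ∈ manTop φ j, i ∈ Js φ := by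
  rcases j with ⟨x, b⟩ | ⟨x, b⟩ | ⟨c, k⟩ | ⟨c, b⟩
  · rw [mem_Js_pe] at hj
    refine ⟨by simp [manTop], by simp [manTop, hj]⟩
  · rw [mem_Js_dq] at hj
    refine ⟨by simp [manTop], by simp [manTop, hj]⟩
  · rw [mem_Js_hv] at hj
    refine ⟨by simp [manTop], by simp [manTop, hj, lt_bound hj.1 hj.2]⟩
  · rw [mem_Js_uw] at hj
    cases b
    · refine ⟨by simp [manTop], by simp [manTop, hj]⟩
    · constructor
      · simp only [manTop, List.nodup_cons, List.mem_append, List.mem_map, List.mem_singleton,
          reduceCtorEq, and_false, exists_false, uw.injEq, Bool.false_eq_true, or_false,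
          not_false_eq_true, true_and]
        rw [List.nodup_append]
        refine ⟨List.nodup_range.map fun _ _ h => (J.hv.inj h).2, by simp, ?_⟩
        intro a ha b hb
        simp only [List.mem_map] at ha
        obtain ⟨k, _, rfl⟩ := ha
        simp only [List.mem_singleton] at hb
        rw [hb]
        simp
      · simp only [manTop, List.mem_cons, List.mem_append, List.mem_map, List.mem_range]
        rintro i (rfl | ⟨k, hk, rfl⟩ | rfl | h)
        · simp [hj]
        · simp [hj, hk]
        · simp [hj]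
        · simp at h

theorem womanTop_ok {j : J} (hj : j ∈ Js φ) :
    (womanTop φ j).Nodup ∧ ∀ i ∈ womanTop φ j, i ∈ Js φ := by
  rcases j with ⟨x, b⟩ | ⟨x, b⟩ | ⟨c, k⟩ | ⟨c, b⟩
  · rw [mem_Js_pe] at hj
    refine ⟨by simp [womanTop], by simp [womanTop, hj]⟩
  · rw [mem_Js_dq] at hj
    constructor
    · simp [womanTop, nodup_occ, mem_occ]
    · simp only [womanTop, List.mem_cons, mem_occ]
      rintro i (rfl | rfl | rfl | ⟨c, k, rfl, h1, h2, _⟩)
      · simp [hj]
      · simp [hj]
      · simp [hj]
      · simp [h1, h2]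
  · rw [mem_Js_hv] at hj
    refine ⟨by simp [womanTop], by simp [womanTop, hj]⟩
  · rw [mem_Js_uw] at hj
    refine ⟨by simp [womanTop], by simp [womanTop, hj]⟩

theorem compl_perm {l : List J} (h : l.Nodup ∧ ∀ i ∈ l, i ∈ Js φ) :
    (compl φ l).Perm (Js φ) := by
  have h1 : (compl φ l).Nodup := by
    unfold compl
    rw [List.nodup_append]
    refine ⟨h.1, (nodup_Js φ).filter _, ?_⟩
    intro a ha b hb
    rw [List.mem_filter] at hb
    rintro rfl
    simp at hb
    exact hb.2 ha
  rw [List.perm_ext_iff_of_nodup h1 (nodup_Js φ)]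
  intro a
  unfold compl
  rw [List.mem_append, List.mem_filter]
  constructor
  · rintro (h2 | h2)
    · exact h.2 a h2
    · exact h2.1
  · intro h2
    by_cases h3 : a ∈ l
    · exact Or.inl h3
    · exact Or.inr ⟨h2, by simp [h3]⟩

/-- A permutation of a list without repetition as a permutation of the set of positions. -/
def permOf (l L : List J) (h : L.Perm l) (hn : l.Nodup) : Equiv.Perm (Fin l.length) where
  toFun k := ⟨l.idxOf (L[(k : ℕ)]'(lt_of_lt_of_eq k.2 h.length_eq.symm)),
    List.idxOf_lt_length_iff.2 (h.mem_iff.1 (List.getElem_mem _))⟩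
  invFun w := ⟨L.idxOf l[w], lt_of_lt_of_eq
    (List.idxOf_lt_length_iff.2 (h.mem_iff.2 (List.getElem_mem _))) h.length_eq⟩
  left_inv k := by
    apply Fin.ext
    simp only [Fin.getElem_fin, List.getElem_idxOf]
    exact List.Nodup.idxOf_getElem (h.nodup_iff.2 hn) _ _
  right_inv w := by
    apply Fin.ext
    simp only [Fin.getElem_fin, List.getElem_idxOf]
    exact List.Nodup.idxOf_getElem hn _ _

/-- The stable marriage instance of a formula. -/
def inst (φ : CNF) : SMInstance (Js φ).length where
  men i := permOf (Js φ) (compl φ (manTop φ (Js φ)[i])) (compl_perm (manTop_ok (by simp)))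
    (nodup_Js φ)
  women i := permOf (Js φ) (compl φ (womanTop φ (Js φ)[i])) (compl_perm (womanTop_ok (by simp)))
    (nodup_Js φ)

/-- Agents of the instance as indexed agents. -/
def em (φ : CNF) : Agent (Js φ).length → J ⊕ J :=
  Sum.map (fun i => (Js φ)[i]) (fun i => (Js φ)[i])

theorem em_inj (φ : CNF) : Function.Injective (em φ) := by
  have h : Function.Injective (fun i : Fin (Js φ).length => (Js φ)[i]) := by
    intro i j h
    exact Fin.ext ((List.Nodup.getElem_inj_iff (nodup_Js φ)).1 h)
  exact Sum.map_injective.2 ⟨h, h⟩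

theorem em_range (φ : CNF) {x : J ⊕ J} (h : idx x ∈ Js φ) : ∃ a, em φ a = x := by
  rcases x with x | x
  · obtain ⟨i, hi, rfl⟩ := List.mem_iff_getElem.1 h
    exact ⟨.inl ⟨i, hi⟩, rfl⟩
  · obtain ⟨i, hi, rfl⟩ := List.mem_iff_getElem.1 h
    exact ⟨.inr ⟨i, hi⟩, rfl⟩

theorem idx_em (φ : CNF) (a : Agent (Js φ).length) : idx (em φ a) ∈ Js φ := by
  rcases a with a | a <;> simp [em]

theorem em_emb (φ : CNF) : Emb (inst φ).market (mkt φ) (em φ) where
  inj := em_inj φ
  symm a b h := h.symm
  opp a b := by
    constructor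
    · intro h
      have := h.1
      rcases a with a | a <;> rcases b with b | b <;> simp [em, SMInstance.market] at this ⊢
    · intro h
      refine ⟨?_, idx_em φ a, idx_em φ b⟩
      rcases a with a | a <;> rcases b with b | b <;> simp [em, SMInstance.market] at h ⊢
  pr a b c hab hac := by
    rcases a with a | a <;> rcases b with b | b <;> rcases c with c | c <;>
      simp [SMInstance.market] at hab hac
    · exact bef_map Sum.inr_injective _ _ _
    · exact bef_map Sum.inl_injective _ _ _
  range x y h := ⟨em_range φ h.2.1, em_range φ h.2.2⟩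

/-- The target as a permutation. -/
def tgtE (φ : CNF) : Equiv.Perm (Fin (Js φ).length) where
  toFun i := ⟨(Js φ).idxOf (tgt (Js φ)[i]), List.idxOf_lt_length_iff.2 (by simp)⟩
  invFun i := ⟨(Js φ).idxOf (tgt (Js φ)[i]), List.idxOf_lt_length_iff.2 (by simp)⟩
  left_inv i := by
    apply Fin.ext
    simp only [Fin.getElem_fin, List.getElem_idxOf, tgt_tgt]
    exact List.Nodup.idxOf_getElem (nodup_Js φ) _ _
  right_inv i := by
    apply Fin.ext
    simp only [Fin.getElem_fin, List.getElem_idxOf, tgt_tgt]
    exact List.Nodup.idxOf_getElem (nodup_Js φ) _ _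

theorem push_ini (φ : CNF) : push (em φ) (partner (PEquiv.refl _)) = ini φ := by
  funext x
  by_cases h : ∃ a, em φ a = x
  · obtain ⟨a, rfl⟩ := h
    rw [push_apply (em_inj φ)]
    have := idx_em φ a
    rcases a with a | a <;> simp [em, ini, partner, swp]
  · rw [push_not h]
    have : idx x ∉ Js φ := fun e => h (em_range φ e)
    simp [ini, this]

theorem push_fin (φ : CNF) : push (em φ) (partner (tgtE φ).toPEquiv) = fin φ := by
  funext x
  by_cases h : ∃ a, em φ a = x
  · obtain ⟨a, rfl⟩ := h
    rw [push_apply (em_inj φ)]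
    have := idx_em φ a
    rcases a with a | a
    · simp [em, fin, partner, tgtA, tgtE]
    · have e : (tgtE φ).toPEquiv.symm a = some ((tgtE φ).symm a) := by
        rw [← Equiv.toPEquiv_symm]; rfl
      simp [em, fin, partner, tgtA, e]
      simp [tgtE]
  · rw [push_not h]
    have : idx x ∉ Js φ := fun e => h (em_range φ e)
    simp [fin, this]

theorem oppM_partner {n : ℕ} (I : SMInstance n) (M : Fin n ≃. Fin n) :
    OppM I.market (partner M) := by
  intro a b h
  rcases a with a | a <;> rcases b with b | b <;> simp [partner, SMInstance.market] at h ⊢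

/-- The input of REACH given by a formula. -/
def reduce (φ : CNF) : ReachInput where
  n := (Js φ).length
  inst := inst φ
  M₀ := PEquiv.refl _
  M := (tgtE φ).toPEquiv
  stable := by
    rw [← (em_emb φ).stable (oppM_partner _ _), push_fin]
    exact fin_stable φ

/-- The reduction is correct. -/
theorem reduce_iff (φ : CNF) : φ.Sat ↔ (reduce φ).Reach := by
  rw [sat_iff, ReachInput.Reach]
  have := (em_emb φ).stopsAt (oppM_partner (inst φ) (PEquiv.refl _))
    (oppM_partner (inst φ) (tgtE φ).toPEquiv)
  rw [push_ini, push_fin] at this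
  exact this

end Pool.Agent.Reach
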