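import Pool.Agent.Work.MP_0acc7f_lc.Sound

/-!
# Elementary rounds of the mechanism
-/

set_option autoImplicit false
set_option linter.unusedVariables false
set_option linter.unusedSectionVars false

namespace Pool.Agent.Reach

section generic

variable {A : Type} [DecidableEq A]

/-- Change finitely many values of a matching. -/
def ov : List (A × Option A) → (A → Option A) → A → Option A
  | [], μ => μ
  | e :: l, μ => fun a => if a = e.1 then e.2 else ov l μ a

@[simp] theorem ov_nil (μ : A → Option A) : ov [] μ = μ := rfl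

@[simp] theorem ov_cons (k : A) (v : Option A) (l : List (A × Option A)) (μ : A → Option A)
    (a : A) : ov ((k, v) :: l) μ a = if a = k then v else ov l μ a := rfl

theorem ov_append (l l' : List (A × Option A)) (μ : A → Option A) :
    ov (l ++ l') μ = ov l (ov l' μ) := by
  induction l with
  | nil => rfl
  | cons e l ih => obtain ⟨k, v⟩ := e; funext a; simp [ih]

theorem ov_of {l : List (A × Option A)} {μ : A → Option A} {a : A} (h : ∀ e ∈ l, a ≠ e.1) :
    ov l μ a = μ a := by
  induction l with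
  | nil => rfl
  | cons e l ih =>
    obtain ⟨k, v⟩ := e
    rw [ov_cons, if_neg (h (k, v) (by simp)), ih fun e he => h e (by simp [he])]

theorem ov_ext {l l' : List (A × Option A)} {μ μ' : A → Option A}
    (h : ∀ e ∈ l, ov l μ e.1 = ov l' μ' e.1) (h' : ∀ e ∈ l', ov l μ e.1 = ov l' μ' e.1)
    (h0 : ∀ a, (∀ e ∈ l, a ≠ e.1) → (∀ e ∈ l', a ≠ e.1) → μ a = μ' a) :
    ov l μ = ov l' μ' := by
  funext a
  by_cases h1 : ∃ e ∈ l, a = e.1
  · obtain ⟨e, he, rfl⟩ := h1; exact h e he
  · by_cases h2 : ∃ e ∈ l', a = e.1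
    · obtain ⟨e, he, rfl⟩ := h2; exact h' e he
    · push Not at h1 h2
      rw [ov_of h1, ov_of h2]
      exact h0 a h1 h2

variable {K : Market A}

theorem take_eq {S : Set A} {μ : A → Option A} (hcl : Closed K S μ) {p y z : A}
    (hz : μ y = some z) : join (unmatch μ y) p y = ov [(p, some y), (y, some p), (z, none)] μ := by
  funext a
  simp only [ov_cons, ov_nil]
  by_cases h1 : a = p
  · subst h1; simp [join_left]
  by_cases h2 : a = y
  · subst h2; rw [join_right h1]; simp [h1]
  by_cases h3 : a = z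
  · subst h3; rw [join_of h1 h2, unmatch_partner hz]; simp [h1, h2]
  · rw [join_of h1 h2, unmatch_of h2 (by rw [hz]; simpa using Ne.symm h3)]
    simp [h1, h2, h3]

theorem unmatch_none {μ : A → Option A} {y : A} (hz : μ y = none) : unmatch μ y = μ := by
  funext a
  by_cases h2 : a = y
  · subst h2; rw [unmatch_self, hz]
  · rw [unmatch_of h2 (by rw [hz]; simp)]

theorem take_free_eq {μ : A → Option A} {p y : A} (hz : μ y = none) :
    join (unmatch μ y) p y = ov [(p, some y), (y, some p)] μ := by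
  rw [unmatch_none hz]
  funext a
  simp only [ov_cons, ov_nil]
  by_cases h1 : a = p
  · subst h1; simp [join_left]
  by_cases h2 : a = y
  · subst h2; rw [join_right h1]; simp [h1]
  · rw [join_of h1 h2]; simp [h1, h2]

theorem unmatch_eq {μ : A → Option A} {a a' : A} (h : μ a = some a') :
    unmatch μ a = ov [(a, none), (a', none)] μ := by
  funext x
  simp only [ov_cons, ov_nil]
  by_cases h1 : x = a
  · subst h1; simp [unmatch_self]
  by_cases h2 : x = a'
  · subst h2; rw [unmatch_partner h]; simp [h1]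
  · rw [unmatch_of h1 (by rw [h]; simpa using Ne.symm h2)]; simp [h1, h2]

/-- `y` is in `S` and accepts `p`. -/
def Acc (K : Market A) (μ : A → Option A) (S : Set A) (p y : A) : Prop :=
  y ∈ S ∧ K.opp p y ∧ ∀ c, μ y = some c → K.pr y p c

theorem blocksIn_acc {S : Set A} {μ : A → Option A} (hcl : Closed K S μ) {p y : A}
    (hp : μ p = none) (hpS : p ∈ S) : K.BlocksIn S μ p y ↔ Acc K μ S p y := by
  rw [blocksIn_iff hcl]
  unfold Market.Blocks Acc
  simp [hp, hpS]

theorem loop_stop {S : Set A} {μ : A → Option A} (hcl : Closed K S μ) {p : A}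
    (hp : μ p = none) (hpS : p ∈ S)
    (h : ∀ y ∈ S, K.opp p y → ∃ c, μ y = some c ∧ ¬ K.pr y p c) : K.Loop S μ p μ := by
  refine Market.Loop.stop _ _ fun y hy => ?_
  obtain ⟨h1, h2, h3⟩ := (blocksIn_acc hcl hp hpS).1 hy
  obtain ⟨c, hc, hc'⟩ := h y h1 h2
  exact hc' (h3 c hc)

theorem loop_take {S : Set A} {μ μ' : A → Option A} (hK : K.Good) (hcl : Closed K S μ)
    {p y z : A} (hp : μ p = none) (hpS : p ∈ S) (hy : Acc K μ S p y) (hz : μ y = some z)
    (best : ∀ w, Acc K μ S p w → w = y ∨ K.pr p y w)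
    (rest : Closed K S (ov [(p, some y), (y, some p), (z, none)] μ) →
      K.Loop S (ov [(p, some y), (y, some p), (z, none)] μ) z μ') : K.Loop S μ p μ' := by
  refine Market.Loop.next μ p y μ' ((blocksIn_acc hcl hp hpS).2 hy)
    (fun w hw => best w ((blocksIn_acc hcl hp hpS).1 hw)) ?_
  have h1 := hcl.join hK hp hpS hy.1 hy.2.1
  rw [take_eq hcl hz] at h1 ⊢
  rw [hz, Option.getD_some]
  exact rest h1

theorem loop_free {S : Set A} {μ : A → Option A} (hK : K.Good) (hcl : Closed K S μ)
    {p y : A} (hp : μ p = none) (hpS : p ∈ S) (hy : Acc K μ S p y) (hz : μ y = none)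
    (best : ∀ w, Acc K μ S p w → w = y ∨ K.pr p y w) :
    K.Loop S μ p (ov [(p, some y), (y, some p)] μ) := by
  refine Market.Loop.next μ p y _ ((blocksIn_acc hcl hp hpS).2 hy)
    (fun w hw => best w ((blocksIn_acc hcl hp hpS).1 hw)) ?_
  have h1 := hcl.join hK hp hpS hy.1 hy.2.1
  have hpy : p ≠ y := by rintro rfl; exact hK.irrefl _ hy.2.1
  rw [hz, Option.getD_none]
  rw [take_free_eq hz] at h1 ⊢
  refine Market.Loop.stop _ _ fun w hw => ?_
  obtain ⟨-, hwS, hB⟩ := (blocksIn_iff h1).1 hw
  have h2 := hB.2.2.1 y (by simp)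
  have hwy : w ≠ y := by rintro rfl; exact hK.irr _ _ h2
  have hwp : w ≠ p := by rintro rfl; exact hK.irrefl _ hB.1
  rcases best w ⟨hwS, hB.1, fun c hc => hB.2.2.2 c (by simp [hwy, hwp, hc])⟩ with h3 | h3
  · exact hwy h3
  · exact hK.asymm _ _ _ h2 h3

/-- Enter, take `y` from `z`; `z` stops. -/
theorem enter_take {S : Set A} {μ : A → Option A} (hK : K.Good) (hcl : Closed K S μ)
    {a a' y z : A} (ha : a ∉ S) (hy : y ∈ S) (ha' : μ a = some a') (hz : μ y = some z)
    (ho : K.opp a y) (h1 : K.pr a y a') (h2 : K.pr y a z)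
    (best : ∀ w ∈ S, K.opp a w → (∀ c, μ w = some c → K.pr w a c) → w = y ∨ K.pr a y w)
    (stop : ∀ w ∈ insert a S, K.opp z w →
      ∃ c, ov [(a, some y), (y, some a), (z, none), (a, none), (a', none)] μ w = some c ∧
        ¬ K.pr w z c) :
    K.Step (μ, S)
      (ov [(a, some y), (y, some a), (z, none), (a, none), (a', none)] μ, insert a S) := by
  have hB : K.Blocks μ a y := by
    refine ⟨ho, ?_, ?_, ?_⟩
    · rw [ha']; intro e; cases e; exact hK.irr _ _ h1
    · intro c hc; rw [ha'] at hc; cases hc; exact h1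
    · intro c hc; rw [hz] at hc; cases hc; exact h2
  refine Market.Step.one μ S a y _ ha hy hB ?_
  have hcl1 := hcl.unmatch a
  have hval : ∀ w ∈ S, ov [(a, none), (a', none)] μ w = μ w := fun w hw => by
    rw [← unmatch_eq ha']; exact unmatch_of_mem hK hcl ha hw
  rw [unmatch_eq ha'] at hcl1 ⊢
  have hzS : z ∈ S := hcl.cross _ _ hz hy
  have hza : z ≠ a := by rintro rfl; exact ha hzS
  refine loop_take hK hcl1 (y := y) (z := z) (by simp) (Set.mem_insert _ _)
    ⟨Set.mem_insert_of_mem _ hy, ho, ?_⟩ ?_ ?_ ?_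
  · intro c hc
    rw [hval y hy, hz] at hc; cases hc; exact h2
  · rw [hval y hy, hz]
  · rintro w ⟨hw, hw1, hw2⟩
    rcases hw with rfl | hw
    · exact absurd hw1 (hK.irrefl _)
    · exact best w hw hw1 fun c hc => hw2 c (by rw [hval w hw]; exact hc)
  · intro hcl2
    rw [← ov_append] at hcl2 ⊢
    refine loop_stop hcl2 ?_ (Set.mem_insert_of_mem _ hzS) stop
    have hzy : z ≠ y := (hcl.ne hK hz).symm
    simp [hza, hzy]

/-- Enter (unmatched) and take the unmatched agent `y`. -/
theorem enter_free {S : Set A} {μ : A → Option A} (hK : K.Good) (hcl : Closed K S μ)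
    {a y : A} (ha : a ∉ S) (hy : y ∈ S) (ha' : μ a = none) (hz : μ y = none)
    (ho : K.opp a y)
    (best : ∀ w ∈ S, K.opp a w → (∀ c, μ w = some c → K.pr w a c) → w = y ∨ K.pr a y w) :
    K.Step (μ, S) (ov [(a, some y), (y, some a)] μ, insert a S) := by
  have hB : K.Blocks μ a y := by
    refine ⟨ho, ?_, ?_, ?_⟩ <;> simp [ha', hz]
  refine Market.Step.one μ S a y _ ha hy hB ?_
  have hcl1 := hcl.unmatch a
  rw [unmatch_none ha'] at hcl1 ⊢
  refine loop_free hK hcl1 ha' (Set.mem_insert _ _)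
    ⟨Set.mem_insert_of_mem _ hy, ho, ?_⟩ hz ?_
  · intro c hc
    rw [hz] at hc; cases hc
  · rintro w ⟨hw, hw1, hw2⟩
    rcases hw with rfl | hw
    · exact absurd hw1 (hK.irrefl _)
    · exact best w hw hw1 hw2

/-- Enter, take `y` from `z`; `z` takes `y'` from `z'`; `z'` stops. -/
theorem enter_take_take {S : Set A} {μ : A → Option A} (hK : K.Good) (hcl : Closed K S μ)
    {a a' y z y' z' : A} (ha : a ∉ S) (hy : y ∈ S) (ha' : μ a = some a') (hz : μ y = some z)
    (ho : K.opp a y) (h1 : K.pr a y a') (h2 : K.pr y a z)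
    (best : ∀ w ∈ S, K.opp a w → (∀ c, μ w = some c → K.pr w a c) → w = y ∨ K.pr a y w)
    (hy' : y' ∈ S) (hyy : y' ≠ y) (hz' : μ y' = some z') (ho' : K.opp z y')
    (h2' : K.pr y' z z')
    (best' : ∀ w ∈ insert a S, K.opp z w →
      (∀ c, ov [(a, some y), (y, some a), (z, none), (a, none), (a', none)] μ w = some c →
        K.pr w z c) → w = y' ∨ K.pr z y' w)
    (stop : ∀ w ∈ insert a S, K.opp z' w →
      ∃ c, ov [(z, some y'), (y', some z), (z', none),
        (a, some y), (y, some a), (z, none), (a, none), (a', none)] μ w = some c ∧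
        ¬ K.pr w z' c) :
    K.Step (μ, S)
      (ov [(z, some y'), (y', some z), (z', none),
        (a, some y), (y, some a), (z, none), (a, none), (a', none)] μ, insert a S) := by
  have hB : K.Blocks μ a y := by
    refine ⟨ho, ?_, ?_, ?_⟩
    · rw [ha']; intro e; cases e; exact hK.irr _ _ h1
    · intro c hc; rw [ha'] at hc; cases hc; exact h1
    · intro c hc; rw [hz] at hc; cases hc; exact h2
  refine Market.Step.one μ S a y _ ha hy hB ?_
  have hcl1 := hcl.unmatch a
  have hval : ∀ w ∈ S, ov [(a, none), (a', none)] μ w = μ w := fun w hw => by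
    rw [← unmatch_eq ha']; exact unmatch_of_mem hK hcl ha hw
  rw [unmatch_eq ha'] at hcl1 ⊢
  have hzS : z ∈ S := hcl.cross _ _ hz hy
  have hza : z ≠ a := by rintro rfl; exact ha hzS
  have hzy : z ≠ y := (hcl.ne hK hz).symm
  have hzS' : z' ∈ S := hcl.cross _ _ hz' hy'
  have hza' : z' ≠ a := by rintro rfl; exact ha hzS'
  have hya' : y' ≠ a := by rintro rfl; exact ha hy'
  have hzy' : z' ≠ y' := (hcl.ne hK hz').symm
  have hyz' : y' ≠ z := by rintro rfl; exact hK.irrefl _ ho'
  have hz'z : z' ≠ z := by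
    rintro rfl
    have h3 := hcl.sym _ _ hz
    have h4 := hcl.sym _ _ hz'
    rw [h3] at h4; cases h4; exact hyy rfl
  have hz'y : z' ≠ y := by
    rintro rfl
    have h4 := hcl.sym _ _ hz'
    rw [hz] at h4; cases h4; exact hyz' rfl
  refine loop_take hK hcl1 (y := y) (z := z) (by simp) (Set.mem_insert _ _)
    ⟨Set.mem_insert_of_mem _ hy, ho, ?_⟩ ?_ ?_ ?_
  · intro c hc
    rw [hval y hy, hz] at hc; cases hc; exact h2
  · rw [hval y hy, hz]
  · rintro w ⟨hw, hw1, hw2⟩
    rcases hw with rfl | hw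
    · exact absurd hw1 (hK.irrefl _)
    · exact best w hw hw1 fun c hc => hw2 c (by rw [hval w hw]; exact hc)
  · intro hcl2
    rw [← ov_append] at hcl2 ⊢
    have hv' : ov ([(a, some y), (y, some a), (z, none)] ++ [(a, none), (a', none)]) μ y' =
        some z' := by
      rw [ov_append]
      simp only [ov_cons, hya', hyy, hyz', if_false, ov_nil]
      have := hval y' hy'
      simp only [ov_cons, ov_nil, hya', if_false] at this
      rw [this, hz']
    refine loop_take hK hcl2 (y := y') (z := z') ?_ (Set.mem_insert_of_mem _ hzS)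
      ⟨Set.mem_insert_of_mem _ hy', ho', ?_⟩ hv' ?_ ?_
    · simp [hza, hzy]
    · intro c hc
      rw [hv'] at hc; cases hc; exact h2'
    · rintro w ⟨hw, hw1, hw2⟩
      exact best' w hw hw1 hw2
    · intro hcl3
      rw [← ov_append] at hcl3 ⊢
      refine loop_stop hcl3 ?_ (Set.mem_insert_of_mem _ hzS') stop
      simp [hz'z, hzy']

/-- Enter (unmatched), take `y` from `z`; `z` takes the unmatched agent `y'`. -/
theorem enter_take_free {S : Set A} {μ : A → Option A} (hK : K.Good) (hcl : Closed K S μ)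
    {a y z y' : A} (ha : a ∉ S) (hy : y ∈ S) (ha' : μ a = none) (hz : μ y = some z)
    (ho : K.opp a y) (h2 : K.pr y a z)
    (best : ∀ w ∈ S, K.opp a w → (∀ c, μ w = some c → K.pr w a c) → w = y ∨ K.pr a y w)
    (hy' : y' ∈ S) (hz' : μ y' = none) (ho' : K.opp z y')
    (best' : ∀ w ∈ insert a S, K.opp z w →
      (∀ c, ov [(a, some y), (y, some a), (z, none)] μ w = some c →
        K.pr w z c) → w = y' ∨ K.pr z y' w) :
    K.Step (μ, S)
      (ov [(z, some y'), (y', some z), (a, some y), (y, some a), (z, none)] μ, insert a S) := by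
  have hB : K.Blocks μ a y := by
    refine ⟨ho, ?_, ?_, ?_⟩
    · rw [ha']; simp
    · intro c hc; rw [ha'] at hc; cases hc
    · intro c hc; rw [hz] at hc; cases hc; exact h2
  refine Market.Step.one μ S a y _ ha hy hB ?_
  have hcl1 := hcl.unmatch a
  rw [unmatch_none ha'] at hcl1 ⊢
  have hzS : z ∈ S := hcl.cross _ _ hz hy
  have hza : z ≠ a := by rintro rfl; exact ha hzS
  have hzy : z ≠ y := (hcl.ne hK hz).symm
  have hya' : y' ≠ a := by rintro rfl; exact ha hy'
  have hyz' : y' ≠ z := by rintro rfl; exact hK.irrefl _ ho'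
  have hyy : y' ≠ y := by rintro rfl; rw [hz] at hz'; cases hz'
  refine loop_take hK hcl1 (y := y) (z := z) ha' (Set.mem_insert _ _)
    ⟨Set.mem_insert_of_mem _ hy, ho, ?_⟩ hz ?_ ?_
  · intro c hc
    rw [hz] at hc; cases hc; exact h2
  · rintro w ⟨hw, hw1, hw2⟩
    rcases hw with rfl | hw
    · exact absurd hw1 (hK.irrefl _)
    · exact best w hw hw1 hw2
  · intro hcl2
    have hv' : ov [(a, some y), (y, some a), (z, none)] μ y' = none := by
      simp [hya', hyy, hyz', hz']
    refine loop_free hK hcl2 ?_ (Set.mem_insert_of_mem _ hzS)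
      ⟨Set.mem_insert_of_mem _ hy', ho', ?_⟩ hv' ?_
    · simp [hza, hzy]
    · intro c hc
      rw [hv'] at hc; cases hc
    · rintro w ⟨hw, hw1, hw2⟩
      exact best' w hw hw1 hw2

/-- A round of the second kind for a pair of agents. -/
theorem enter_two {S : Set A} {μ : A → Option A} {m w : A} {l : List (A × Option A)}
    (h : ∀ a b, a ∉ S → b ∈ S → ¬ K.Blocks μ a b) (hmw : K.Blocks μ m w)
    (hl : unmatch (unmatch μ m) w = ov l μ) :
    K.Step (μ, S) (ov ([(m, some w), (w, some m)] ++ l) μ, insert m (insert w S)) := by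
  have h1 := Market.Step.two μ S m w h hmw
  have h2 : join (unmatch (unmatch μ m) w) m w = ov ([(m, some w), (w, some m)] ++ l) μ := by
    rw [hl, ov_append]
    funext a
    simp only [ov_cons, ov_nil]
    by_cases h3 : a = m
    · subst h3; simp [join_left]
    by_cases h4 : a = w
    · subst h4; rw [join_right h3]; simp [h3]
    · rw [join_of h3 h4]; simp [h3, h4]
  rw [h2] at h1
  exact h1

end generic

end Pool.Agent.Reach
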