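import Pool.Agent.Work.MP_0acc7f_lc.Instance
import Pool.Agent.Work.PT.BitEnc
import Pool.Agent.Work.PT.CookLevin

/-!
# The reduction is computed in polynomial time
-/

set_option autoImplicit false
set_option linter.unusedVariables false

namespace Pool.Agent.Reach

open J PT N487b59b3

/-- Data of the reduction. -/
def rawData (φ : CNF) : List (List ℕ) × List (List ℕ) × List ℕ × List ℕ :=
  ((Js φ).map (fun j => (compl φ (manTop φ j)).map (fun i => (Js φ).idxOf i)),
    (Js φ).map (fun j => (compl φ (womanTop φ j)).map (fun i => (Js φ).idxOf i)),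
    (Js φ).map (fun j => (Js φ).idxOf j + 1),
    (Js φ).map (fun j => (Js φ).idxOf (tgt j) + 1))

theorem ofFn_map {α β : Type} (l : List α) (f : α → β) :
    List.ofFn (fun i : Fin l.length => f l[i]) = l.map f := by
  refine List.ext_getElem (by simp) fun i h1 h2 => ?_
  simp

theorem ofFn_map' {α β : Type} {n : ℕ} (l : List α) (hn : l.length = n) (f : α → β)
    (g : Fin n → β) (h : ∀ (i : ℕ) (hi : i < l.length), g ⟨i, hn ▸ hi⟩ = f l[i]) :
    List.ofFn g = l.map f := by
  subst hn
  rw [← ofFn_map]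
  congr 1
  funext i
  exact h i i.2

theorem data_reduce (φ : CNF) : (reduce φ).data = rawData φ := by
  refine Prod.ext ?_ (Prod.ext ?_ (Prod.ext ?_ ?_))
  · refine ofFn_map' (Js φ) rfl _ _ fun i hi => ?_
    exact ofFn_map' (compl φ (manTop φ (Js φ)[i]))
      (compl_perm (manTop_ok (by simp))).length_eq _ _ fun k hk => rfl
  · refine ofFn_map' (Js φ) rfl _ _ fun i hi => ?_
    exact ofFn_map' (compl φ (womanTop φ (Js φ)[i]))
      (compl_perm (womanTop_ok (by simp))).length_eq _ _ fun k hk => rfl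
  · refine ofFn_map' (Js φ) rfl _ _ fun i hi => ?_
    show i + 1 = _
    rw [List.Nodup.idxOf_getElem (nodup_Js φ)]
  · refine ofFn_map' (Js φ) rfl _ _ fun i hi => ?_
    rfl

/-! ### Polynomial time -/

/-- Code of an index. -/
def J.code : J → ℕ × ℕ × ℕ × Bool
  | pe x b => (0, x, 0, b)
  | dq x b => (1, x, 0, b)
  | hv c k => (2, c, k, false)
  | uw c b => (3, c, 0, b)

instance : Enc J := ⟨fun j => enc (J.code j), fun i j h => by
  have := Enc.inj h
  cases i <;> cases j <;> simp [J.code] at this ⊢ <;> exact this⟩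

section
variable {α : Type} [Enc α]

@[fun_prop]
theorem ptf_pe {x : α → ℕ} {b : α → Bool} (hx : PTF x) (hb : PTF b) :
    PTF (fun a => pe (x a) (b a)) :=
  PTF.recode (f := fun a => ((0 : ℕ), x a, (0 : ℕ), b a)) (by fun_prop) fun _ => rfl

@[fun_prop]
theorem ptf_dq {x : α → ℕ} {b : α → Bool} (hx : PTF x) (hb : PTF b) :
    PTF (fun a => dq (x a) (b a)) :=
  PTF.recode (f := fun a => ((1 : ℕ), x a, (0 : ℕ), b a)) (by fun_prop) fun _ => rfl

@[fun_prop]
theorem ptf_hv {x y : α → ℕ} (hx : PTF x) (hb : PTF y) :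
    PTF (fun a => hv (x a) (y a)) :=
  PTF.recode (f := fun a => ((2 : ℕ), x a, y a, false)) (by fun_prop) fun _ => rfl

@[fun_prop]
theorem ptf_uw {x : α → ℕ} {b : α → Bool} (hx : PTF x) (hb : PTF b) :
    PTF (fun a => uw (x a) (b a)) :=
  PTF.recode (f := fun a => ((3 : ℕ), x a, (0 : ℕ), b a)) (by fun_prop) fun _ => rfl

@[fun_prop]
theorem ptf_code {j : α → J} (hj : PTF j) : PTF (fun a => (j a).code) :=
  PTF.recode (f := j) hj fun _ => rfl

@[fun_prop]
theorem ptf_cl {φ : α → CNF} {c : α → ℕ} (h : PTF φ) (hc : PTF c) :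
    PTF (fun a => cl (φ a) (c a)) := by
  unfold cl
  fun_prop

@[fun_prop]
theorem ptf_lit {φ : α → CNF} {c k : α → ℕ} (h : PTF φ) (hc : PTF c) (hk : PTF k) :
    PTF (fun a => lit (φ a) (c a) (k a)) := by
  unfold lit
  fun_prop

@[fun_prop]
theorem ptf_bound {φ : α → CNF} (h : PTF φ) : PTF (fun a => bound (φ a)) := by
  unfold bound
  fun_prop

@[fun_prop]
theorem ptf_occ {φ : α → CNF} {x : α → ℕ} {b : α → Bool} (h : PTF φ) (hx : PTF x)
    (hb : PTF b) : PTF (fun a => occ (φ a) (x a) (b a)) := by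
  unfold occ
  fun_prop

@[fun_prop]
theorem ptf_Js {φ : α → CNF} (h : PTF φ) : PTF (fun a => Js (φ a)) := by
  unfold Js
  fun_prop

theorem manTop_code (φ : CNF) (j : J) : manTop φ j =
    if j.code.1 = 0 then [dq j.code.2.1 (!j.code.2.2.2), dq j.code.2.1 j.code.2.2.2,
      pe j.code.2.1 j.code.2.2.2]
    else if j.code.1 = 1 then [dq j.code.2.1 j.code.2.2.2, pe j.code.2.1 (!j.code.2.2.2)]
    else if j.code.1 = 2 then [dq (lit φ j.code.2.1 j.code.2.2.1).2
      (lit φ j.code.2.1 j.code.2.2.1).1, hv j.code.2.1 j.code.2.2.1]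
    else if j.code.2.2.2 = true then uw j.code.2.1 false ::
      ((List.range (cl φ j.code.2.1).length).map (hv j.code.2.1) ++ [uw j.code.2.1 true])
    else [uw j.code.2.1 true, uw j.code.2.1 false] := by
  rcases j with ⟨x, b⟩ | ⟨x, b⟩ | ⟨c, k⟩ | ⟨c, b⟩
  · simp [manTop, J.code]
  · simp [manTop, J.code]
  · simp [manTop, J.code]
  · cases b <;> simp [manTop, J.code]

theorem womanTop_code (φ : CNF) (j : J) : womanTop φ j =
    if j.code.1 = 0 then [pe j.code.2.1 j.code.2.2.2, dq j.code.2.1 (!j.code.2.2.2)]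
    else if j.code.1 = 1 then pe j.code.2.1 j.code.2.2.2 :: pe j.code.2.1 (!j.code.2.2.2) ::
      dq j.code.2.1 j.code.2.2.2 :: occ φ j.code.2.1 j.code.2.2.2
    else if j.code.1 = 2 then [hv j.code.2.1 j.code.2.2.1, uw j.code.2.1 true]
    else [uw j.code.2.1 j.code.2.2.2, uw j.code.2.1 (!j.code.2.2.2)] := by
  rcases j with ⟨x, b⟩ | ⟨x, b⟩ | ⟨c, k⟩ | ⟨c, b⟩
  · simp [womanTop, J.code]
  · simp [womanTop, J.code]
  · simp [womanTop, J.code]
  · simp [womanTop, J.code]

theorem tgt_code (j : J) : tgt j =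
    if j.code.1 = 0 then dq j.code.2.1 (!j.code.2.2.2)
    else if j.code.1 = 1 then pe j.code.2.1 (!j.code.2.2.2)
    else if j.code.1 = 2 then j
    else uw j.code.2.1 (!j.code.2.2.2) := by
  rcases j with ⟨x, b⟩ | ⟨x, b⟩ | ⟨c, k⟩ | ⟨c, b⟩
  · simp [tgt, J.code]
  · simp [tgt, J.code]
  · simp [tgt, J.code]
  · simp [tgt, J.code]

@[fun_prop]
theorem ptf_manTop {φ : α → CNF} {j : α → J} (h : PTF φ) (hj : PTF j) :
    PTF (fun a => manTop (φ a) (j a)) := by
  simp only [manTop_code]
  fun_prop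

@[fun_prop]
theorem ptf_womanTop {φ : α → CNF} {j : α → J} (h : PTF φ) (hj : PTF j) :
    PTF (fun a => womanTop (φ a) (j a)) := by
  simp only [womanTop_code]
  fun_prop

@[fun_prop]
theorem ptf_tgt {j : α → J} (hj : PTF j) : PTF (fun a => tgt (j a)) := by
  simp only [tgt_code]
  fun_prop

@[fun_prop]
theorem ptf_compl {φ : α → CNF} {l : α → List J} (h : PTF φ) (hl : PTF l) :
    PTF (fun a => compl (φ a) (l a)) := by
  unfold compl
  fun_prop

theorem ptf_rawData {φ : α → CNF} (h : PTF φ) : PTF (fun a => rawData (φ a)) := by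
  unfold rawData
  fun_prop

end

theorem encP_data : EncP (List (List ℕ) × List (List ℕ) × List ℕ × List ℕ) :=
  (EncP.list (EncP.list EncP.nat)).prod ((EncP.list (EncP.list EncP.nat)).prod
    ((EncP.list EncP.nat).prod (EncP.list EncP.nat)))

/-- The encoded reduction is polynomial-time. -/
theorem ptf_encode {α : Type} [Enc α] {φ : α → CNF} (h : PTF φ) :
    PTF (fun a => (reduce (φ a)).encode) := by
  have h1 : PTF (fun a => bitEncode (rawData (φ a))) := encP_data.apply (ptf_rawData h)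
  refine h1.congr fun a => ?_
  rw [← data_reduce]
  rfl

theorem satisf_iff (φ : CNF) : Satisf φ ↔ φ.Sat := Iff.rfl

theorem data_inj {r r' : ReachInput} (h : r.encode = r'.encode) : r = r' := by
  have h1 : r.data = r'.data := bitEncode_injective h
  obtain ⟨n, I, M₀, M, hs⟩ := r
  obtain ⟨n', I', M₀', M', hs'⟩ := r'
  simp only [ReachInput.data, Prod.mk.injEq] at h1
  obtain ⟨h1, h2, h3, h4⟩ := h1
  have hn : n = n' := by simpa using congrArg List.length h1
  subst hn
  have hI : I = I' := by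
    obtain ⟨a, b⟩ := I
    obtain ⟨a', b'⟩ := I'
    have e1 : a = a' := by
      funext i
      ext k
      have := congrFun (List.ofFn_injective (congrFun (List.ofFn_injective h1) i)) k
      exact this
    have e2 : b = b' := by
      funext i
      ext k
      have := congrFun (List.ofFn_injective (congrFun (List.ofFn_injective h2) i)) k
      exact this
    rw [e1, e2]
  have hM : ∀ M M' : Fin n ≃. Fin n, (List.ofFn fun i => (M i).elim 0 (fun j => (j : ℕ) + 1)) =
      (List.ofFn fun i => (M' i).elim 0 (fun j => (j : ℕ) + 1)) → M = M' := by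
    intro M M' h
    ext i j
    have := congrFun (List.ofFn_injective h) i
    cases e : M i <;> cases e' : M' i <;> simp [e, e'] at this ⊢
    rw [Fin.ext this]
  subst hI
  have e1 := hM _ _ h3
  have e2 := hM _ _ h4
  subst e1
  subst e2
  rfl

/-- Every language in NP reduces to REACH in polynomial time. -/
theorem hard {L : List Bool → Bool} (h : L ∈ N68a2faeb.NP) :
    ∃ f : List Bool → List Bool, N68a2faeb.IsPolyTime f ∧
      ∀ x, L x = true ↔ ReachLang (f x) := by
  obtain ⟨g, hg, h1⟩ := cookLevin h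
  refine ⟨fun x => (reduce (g x)).encode, (ptf_encode hg).isPolyTime (EncP.list EncP.bool),
    fun x => ?_⟩
  rw [h1, satisf_iff, reduce_iff]
  constructor
  · intro h; exact ⟨_, rfl, h⟩
  · rintro ⟨r, h2, h3⟩
    rw [← data_inj h2]
    exact h3

end Pool.Agent.Reach
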