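import Pool.Agent.Work.MP_0acc7f_lc.Gadget

/-!
# If the target is reached, then the formula is satisfiable
-/

set_option autoImplicit false
set_option linter.unusedVariables false

namespace Pool.Agent.Reach

open J

/-- Properties of the set `S` in an execution. -/
structure GS (φ : CNF) (S : Set (J ⊕ J)) : Prop where
  g1 : ∀ x b, .inr (pe x b) ∈ S → .inl (pe x b) ∈ S
  g2 : ∀ x b, .inl (dq x b) ∈ S → .inr (dq x b) ∈ S
  g3 : ∀ c k, .inr (hv c k) ∈ S → .inl (hv c k) ∈ S
  g4 : ∀ c b, .inr (uw c b) ∈ S → .inl (uw c b) ∈ S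
  g5 : ∀ x b, .inr (dq x b) ∈ S → .inl (pe x b) ∈ S ∨ .inl (pe x (!b)) ∈ S
  g6 : ∀ c k x b, .inl (hv c k) ∈ S → lit φ c k = (b, x) →
    .inl (pe x b) ∈ S ∧ ∀ c' k', .inl (hv c' k') ∈ S → lit φ c' k' ≠ (!b, x)
  g7 : ∀ c, .inl (uw c true) ∈ S → ∃ k, k < (cl φ c).length ∧ .inl (hv c k) ∈ S
  g8 : ∀ c, .inl (uw c false) ∈ S → .inl (uw c true) ∈ S

variable {φ : CNF}

theorem out_left {μ : J ⊕ J → Option (J ⊕ J)} {S : Set (J ⊕ J)}
    (h : Inv (mkt φ) (ini φ) (μ, S)) {j : J} (hj : j ∈ Js φ) (h1 : .inl j ∉ S) (h2 : .inr j ∉ S) :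
    μ (.inl j) = some (.inr j) :=
  (h.out _ h1 _).2 ⟨by simp [ini, hj, swp], h2⟩

theorem out_right {μ : J ⊕ J → Option (J ⊕ J)} {S : Set (J ⊕ J)}
    (h : Inv (mkt φ) (ini φ) (μ, S)) {j : J} (hj : j ∈ Js φ) (h1 : .inl j ∉ S) (h2 : .inr j ∉ S) :
    μ (.inr j) = some (.inl j) :=
  (h.out _ h2 _).2 ⟨by simp [ini, hj, swp], h1⟩

/-- An agent outside `S` whose partner is at the top of its list is in no blocking pair. -/
theorem no_block_top {μ : J ⊕ J → Option (J ⊕ J)} {a b c : J ⊕ J} {l : List (J ⊕ J)}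
    (h : (mkt φ).Blocks μ a b) (ht : top φ a = c :: l) (hc : μ a = some c) : False := by
  have h1 := h.2.2.1 c hc
  rw [pr_iff (by rw [ht]; simp), ht, bef_cons] at h1
  exact h1.1 rfl

theorem no_block_top' {μ : J ⊕ J → Option (J ⊕ J)} {a b c : J ⊕ J} {l : List (J ⊕ J)}
    (h : (mkt φ).Blocks μ a b) (ht : top φ b = c :: l) (hc : μ b = some c) : False := by
  have h1 := h.2.2.2 c hc
  rw [pr_iff (by rw [ht]; simp), ht, bef_cons] at h1
  exact h1.1 rfl

/-- Entering of the man of a literal. -/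
theorem enter_h {μ : J ⊕ J → Option (J ⊕ J)} {S : Set (J ⊕ J)}
    (h : Inv (mkt φ) (ini φ) (μ, S)) (hG : GS φ S) {c k x : ℕ} {b : Bool} {y : J ⊕ J}
    (h1 : .inl (hv c k) ∉ S) (hy : (mkt φ).Blocks μ (.inl (hv c k)) y) (hl : lit φ c k = (b, x)) :
    .inl (pe x b) ∈ S ∧ .inl (pe x (!b)) ∉ S := by
  have hJ : hv c k ∈ Js φ := hy.1.2.1
  have hJy := hy.1.2.2
  have hv' : (.inr (hv c k) : J ⊕ J) ∉ S := fun h => h1 (hG.g3 _ _ h)
  have h2 := hy.2.2.1 _ (out_left h hJ h1 hv')
  rw [pr_iff (by simp [top, manTop])] at h2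
  have h3 : y = .inr (dq x b) := by
    have : Bef (top φ (.inl (hv c k))) y (.inr (hv c k)) := h2
    simp [top, manTop, bef_cons, hl] at this
    exact this
  subst h3
  have hQ : (.inr (dq x b) : J ⊕ J) ∈ S := by
    by_contra hQ
    have hd : (.inl (dq x b) : J ⊕ J) ∉ S := fun h => hQ (hG.g2 _ _ h)
    have h4 := hy.2.2.2 _ (out_right h hJy hd hQ)
    rw [pr_iff (by simp [top, womanTop])] at h4
    simp [top, womanTop, bef_cons] at h4
  have hP : (.inl (pe x (!b)) : J ⊕ J) ∉ S := by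
    intro hP
    have h5 := h.stab _ hP _ hQ
    have hJp : pe x (!b) ∈ Js φ := by simpa using hJy
    -- the partner of the woman
    have h6 : ∃ z, μ (.inr (dq x b)) = some z ∧ (z = .inl (pe x (!b)) ∨ z = .inl (pe x b)) := by
      by_contra hcon
      push Not at hcon
      refine h5 ⟨⟨by simp, hJp, hJy⟩, ?_, ?_, ?_⟩
      · intro e
        have := h.closed.sym _ _ e
        exact (hcon _ this).1 rfl
      · intro z hz
        have hz' : z ≠ .inr (dq x b) := by
          rintro rfl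
          exact (hcon _ (h.closed.sym _ _ hz)).1 rfl
        by_cases hz2 : z ∈ top φ (.inl (pe x (!b)))
        · rw [pr_iff hz2]
          simp only [top, manTop, Bool.not_not, List.map_cons, bef_cons]
          exact ⟨hz', Or.inl trivial⟩
        · exact pr_of_top (by simp [top, manTop]) hz2
      · intro z hz
        have hz' := hcon z hz
        by_cases hz2 : z ∈ top φ (.inr (dq x b))
        · rw [pr_iff hz2]
          simp only [top, womanTop, List.map_cons, bef_cons]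
          exact ⟨hz'.2, Or.inr ⟨hz'.1, Or.inl trivial⟩⟩
        · exact pr_of_top (by simp [top, womanTop]) hz2
    obtain ⟨z, hz, hz2⟩ := h6
    have h7 := hy.2.2.2 z hz
    rcases hz2 with rfl | rfl
    · rw [pr_iff (by simp [top, womanTop])] at h7
      simp [top, womanTop, bef_cons] at h7
    · rw [pr_iff (by simp [top, womanTop])] at h7
      simp [top, womanTop, bef_cons] at h7
  refine ⟨?_, hP⟩
  rcases hG.g5 _ _ hQ with h8 | h8
  · exact h8
  · exact absurd h8 hP

theorem GS.step {s t : (J ⊕ J → Option (J ⊕ J)) × Set (J ⊕ J)} (h : Inv (mkt φ) (ini φ) s)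
    (hG : GS φ s.2) (hst : (mkt φ).Step s t) : GS φ t.2 := by
  obtain ⟨μ, S⟩ := s
  obtain ⟨μ', S'⟩ := t
  have hmono : S ⊆ S' := step_mono hst
  have henter : ∀ a, a ∉ S → a ∈ S' → ∃ b ∈ S', (mkt φ).Blocks μ a b := fun a h1 h2 =>
    step_enter hst (mkt_good φ) h.closed.sym h1 h2
  dsimp only at hG ⊢
  constructor
  · intro x b h1
    by_contra h2
    have h3 : (.inl (pe x b) : J ⊕ J) ∉ S := fun h => h2 (hmono h)
    have h4 : (.inr (pe x b) : J ⊕ J) ∉ S := fun h => h3 (hG.g1 _ _ h)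
    obtain ⟨y, hy, hB⟩ := henter _ h4 h1
    exact no_block_top hB rfl (out_right h hB.1.2.1 h3 h4)
  · intro x b h1
    by_contra h2
    have h3 : (.inr (dq x b) : J ⊕ J) ∉ S := fun h => h2 (hmono h)
    have h4 : (.inl (dq x b) : J ⊕ J) ∉ S := fun h => h3 (hG.g2 _ _ h)
    obtain ⟨y, hy, hB⟩ := henter _ h4 h1
    exact no_block_top hB rfl (out_left h hB.1.2.1 h4 h3)
  · intro x b h1
    by_contra h2
    have h3 : (.inl (hv x b) : J ⊕ J) ∉ S := fun h => h2 (hmono h)
    have h4 : (.inr (hv x b) : J ⊕ J) ∉ S := fun h => h3 (hG.g3 _ _ h)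
    obtain ⟨y, hy, hB⟩ := henter _ h4 h1
    exact no_block_top hB rfl (out_right h hB.1.2.1 h3 h4)
  · intro x b h1
    by_contra h2
    have h3 : (.inl (uw x b) : J ⊕ J) ∉ S := fun h => h2 (hmono h)
    have h4 : (.inr (uw x b) : J ⊕ J) ∉ S := fun h => h3 (hG.g4 _ _ h)
    obtain ⟨y, hy, hB⟩ := henter _ h4 h1
    exact no_block_top hB rfl (out_right h hB.1.2.1 h3 h4)
  · intro x b h1
    by_cases h2 : (.inr (dq x b) : J ⊕ J) ∈ S
    · exact (hG.g5 _ _ h2).imp (fun h => hmono h) (fun h => hmono h)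
    · obtain ⟨y, hy, hB⟩ := henter _ h2 h1
      have h3 : (.inl (dq x b) : J ⊕ J) ∉ S := fun h => h2 (hG.g2 _ _ h)
      have h4 := hB.2.2.1 _ (out_right h hB.1.2.1 h3 h2)
      rw [pr_iff (by simp [top, womanTop])] at h4
      simp [top, womanTop, bef_cons] at h4
      rcases h4 with rfl | rfl
      · exact Or.inl hy
      · exact Or.inr hy
  · intro c k x b h1 hl
    by_cases h2 : (.inl (hv c k) : J ⊕ J) ∈ S
    · obtain ⟨h3, h4⟩ := hG.g6 c k x b h2 hl
      refine ⟨hmono h3, fun c' k' h5 h6 => ?_⟩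
      by_cases h7 : (.inl (hv c' k') : J ⊕ J) ∈ S
      · exact h4 c' k' h7 h6
      · obtain ⟨y, hy, hB⟩ := henter _ h7 h5
        have := (enter_h h hG h7 hB h6).2
        rw [Bool.not_not] at this
        exact this h3
    · obtain ⟨y, hy, hB⟩ := henter _ h2 h1
      obtain ⟨h3, h4⟩ := enter_h h hG h2 hB hl
      refine ⟨hmono h3, fun c' k' h5 h6 => ?_⟩
      by_cases h7 : (.inl (hv c' k') : J ⊕ J) ∈ S
      · exact h4 (hG.g6 c' k' x (!b) h7 h6).1
      · obtain ⟨y, hy, hB⟩ := henter _ h7 h5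
        have := (enter_h h hG h7 hB h6).2
        rw [Bool.not_not] at this
        exact this h3
  · intro c h1
    by_cases h2 : (.inl (uw c true) : J ⊕ J) ∈ S
    · obtain ⟨k, hk, h3⟩ := hG.g7 c h2
      exact ⟨k, hk, hmono h3⟩
    · obtain ⟨y, hy, hB⟩ := henter _ h2 h1
      have h3 : (.inr (uw c true) : J ⊕ J) ∉ S := fun h => h2 (hG.g4 _ _ h)
      have h4 := hB.2.2.1 _ (out_left h hB.1.2.1 h2 h3)
      rw [pr_iff (by simp [top, manTop])] at h4
      have hJy := hB.1.2.2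
      have h5 : y = .inr (uw c false) ∨ ∃ k < (cl φ c).length, y = .inr (hv c k) := by
        simp only [top, manTop, List.map_cons, List.map_append, List.map_map, List.map_nil,
          bef_cons] at h4
        rcases h4.2 with h5 | h5
        · exact Or.inl h5
        · refine Or.inr ?_
          rw [bef_append_right (by simp)] at h5
          simp only [bef_cons, ne_eq, not_true_eq_false, false_and, or_false] at h5
          simpa [eq_comm] using h5
      rcases h5 with rfl | ⟨k, hk, rfl⟩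
      · exfalso
        have h6 : (.inl (uw c false) : J ⊕ J) ∉ S := fun h => h2 (hG.g8 _ h)
        have h7 : (.inr (uw c false) : J ⊕ J) ∉ S := fun h => h6 (hG.g4 _ _ h)
        exact no_block_top' hB rfl (out_right h hJy h6 h7)
      · refine ⟨k, hk, ?_⟩
        by_contra h6
        have h6' : (.inl (hv c k) : J ⊕ J) ∉ S := fun h => h6 (hmono h)
        have h7 : (.inr (hv c k) : J ⊕ J) ∉ S := fun h => h6' (hG.g3 _ _ h)
        exact no_block_top' hB rfl (out_right h hJy h6' h7)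
  · intro c h1
    by_cases h2 : (.inl (uw c false) : J ⊕ J) ∈ S
    · exact hmono (hG.g8 c h2)
    · obtain ⟨y, hy, hB⟩ := henter _ h2 h1
      have h3 : (.inr (uw c false) : J ⊕ J) ∉ S := fun h => h2 (hG.g4 _ _ h)
      have h4 := hB.2.2.1 _ (out_left h hB.1.2.1 h2 h3)
      rw [pr_iff (by simp [top, manTop])] at h4
      have hJy := hB.1.2.2
      simp [top, manTop, bef_cons] at h4
      subst h4
      by_contra h6
      have h6' : (.inl (uw c true) : J ⊕ J) ∉ S := fun h => h6 (hmono h)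
      have h7 : (.inr (uw c true) : J ⊕ J) ∉ S := fun h => h6' (hG.g4 _ _ h)
      exact no_block_top' hB rfl (out_right h hJy h6' h7)

theorem GS.init : GS φ ∅ := by constructor <;> simp

/-- If the target is reached, then the formula is satisfiable. -/
theorem sound (h : (mkt φ).StopsAt (ini φ) (fin φ)) : φ.Sat := by
  classical
  obtain ⟨-, S, hS⟩ := h
  have key : ∀ s, Relation.ReflTransGen (mkt φ).Step (ini φ, ∅) s →
      Inv (mkt φ) (ini φ) s ∧ GS φ s.2 := by
    intro s hs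
    induction hs with
    | refl => exact ⟨Inv.init (ini_sym φ) (ini_opp φ), GS.init⟩
    | tail h1 h2 ih => exact ⟨ih.1.step (mkt_good φ) (ini_sym φ) h2, ih.2.step ih.1 h2⟩
  obtain ⟨h1, h2⟩ := key _ hS
  dsimp only at h2
  refine ⟨fun x => decide (∃ c k, (.inl (hv c k) : J ⊕ J) ∈ S ∧ lit φ c k = (true, x)), ?_⟩
  intro C hC
  obtain ⟨c, hc, rfl⟩ := List.mem_iff_getElem.1 hC
  have hcl : cl φ c = φ[c] := by unfold cl; rw [List.getD_eq_getElem _ _ hc]
  have h3 : (.inl (uw c true) : J ⊕ J) ∈ S := by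
    by_contra h3
    have h4 := (h1.out _ h3 (.inr (uw c false))).1 (by simp [fin, hc, tgtA, tgt])
    simp [ini, hc, swp] at h4
  obtain ⟨k, hk, h4⟩ := h2.g7 c h3
  refine ⟨lit φ c k, hcl ▸ lit_mem hk, ?_⟩
  rcases e : lit φ c k with ⟨b, x⟩
  dsimp only
  cases b with
  | true => exact decide_eq_true ⟨c, k, h4, e⟩
  | false =>
    refine decide_eq_false ?_
    rintro ⟨c', k', h5, h6⟩
    exact (h2.g6 c k x false h4 e).2 c' k' h5 h6

end Pool.Agent.Reach
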