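import Pool.Agent.Work.MP_0acc7f_lc.Final

/-!
# Transport of markets along injections
-/

set_option autoImplicit false
set_option linter.unusedVariables false
set_option linter.unusedSectionVars false

namespace Pool.Agent.Reach

variable {A B : Type}

open Classical in
/-- Push a matching forward along an injection. -/
noncomputable def push (e : A → B) (μ : A → Option A) : B → Option B := fun y =>
  if h : ∃ a, e a = y then (μ h.choose).map e else none

variable {e : A → B}

theorem push_apply (he : Function.Injective e) (μ : A → Option A) (a : A) :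
    push e μ (e a) = (μ a).map e := by
  have h : ∃ a', e a' = e a := ⟨a, rfl⟩
  have h' : h.choose = a := he h.choose_spec
  unfold push
  rw [dif_pos h, h']

theorem push_not {μ : A → Option A} {y : B} (h : ¬ ∃ a, e a = y) : push e μ y = none := by
  unfold push
  rw [dif_neg h]

theorem push_eq_some (he : Function.Injective e) {μ : A → Option A} {a b : A} :
    push e μ (e a) = some (e b) ↔ μ a = some b := by
  rw [push_apply he, Option.map_eq_some_iff]
  constructor
  · rintro ⟨c, h1, h2⟩; rw [h1, he h2]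
  · intro h; exact ⟨b, h, rfl⟩

theorem push_inj (he : Function.Injective e) {μ μ' : A → Option A} (h : push e μ = push e μ') :
    μ = μ' := by
  funext a
  have := congrFun h (e a)
  rw [push_apply he, push_apply he] at this
  exact Option.map_injective he this

theorem push_unmatch (he : Function.Injective e) (μ : A → Option A) (a : A) :
    push e (unmatch μ a) = unmatch (push e μ) (e a) := by
  funext y
  by_cases h : ∃ x, e x = y
  · obtain ⟨x, rfl⟩ := h
    rw [push_apply he]
    by_cases h1 : x = a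
    · subst h1; rw [unmatch_self, unmatch_self]; rfl
    by_cases h2 : μ a = some x
    · rw [unmatch_partner h2, unmatch_partner ((push_eq_some he).2 h2)]; rfl
    · rw [unmatch_of h1 h2, unmatch_of (fun e => h1 (he e)) (fun e => h2 ((push_eq_some he).1 e)),
        push_apply he]
  · rw [push_not h]
    unfold unmatch
    rw [push_not h]
    split_ifs <;> rfl

theorem push_join (he : Function.Injective e) (μ : A → Option A) (a b : A) :
    push e (join μ a b) = join (push e μ) (e a) (e b) := by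
  funext y
  by_cases h : ∃ x, e x = y
  · obtain ⟨x, rfl⟩ := h
    rw [push_apply he]
    by_cases h1 : x = a
    · subst h1; rw [join_left, join_left]; rfl
    by_cases h2 : x = b
    · subst h2; rw [join_right h1, join_right (fun e => h1 (he e))]; rfl
    · rw [join_of h1 h2, join_of (fun e => h1 (he e)) (fun e => h2 (he e)), push_apply he]
  · rw [push_not h]
    unfold join
    rw [push_not h, if_neg (fun e => h ⟨a, e.symm⟩), if_neg (fun e => h ⟨b, e.symm⟩)]

theorem push_restrict (he : Function.Injective e) (μ : A → Option A) (S : Set A) :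
    push e (restrict μ S) = restrict (push e μ) (e '' S) := by
  funext y
  by_cases h : ∃ x, e x = y
  · obtain ⟨x, rfl⟩ := h
    rw [push_apply he]
    unfold restrict
    rw [push_apply he]
    by_cases hx : x ∈ S
    · rw [if_pos hx, if_pos (Set.mem_image_of_mem _ hx)]
      cases hc : μ x with
      | none => rfl
      | some c =>
        by_cases hcS : c ∈ S
        · simp [Option.filter, hcS, he.eq_iff]
        · simp [Option.filter, hcS, he.eq_iff]
    · rw [if_neg hx, if_neg]
      · rfl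
      · rintro ⟨x', h1, h2⟩
        exact hx (he h2 ▸ h1)
  · rw [push_not h]
    unfold restrict
    rw [push_not h]
    split_ifs <;> rfl

/-- An embedding of markets. -/
structure Emb (K : Market A) (K' : Market B) (e : A → B) : Prop where
  inj : Function.Injective e
  symm : ∀ a b, K.opp a b → K.opp b a
  opp : ∀ a b, K'.opp (e a) (e b) ↔ K.opp a b
  pr : ∀ a b c, K.opp a b → K.opp a c → (K'.pr (e a) (e b) (e c) ↔ K.pr a b c)
  range : ∀ x y, K'.opp x y → (∃ a, e a = x) ∧ ∃ b, e b = y

/-- Partners are of opposite sex. -/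
def OppM (K : Market A) (μ : A → Option A) : Prop := ∀ a b, μ a = some b → K.opp a b

variable {K : Market A} {K' : Market B}

theorem OppM.unmatch {μ : A → Option A} (h : OppM K μ) (a : A) : OppM K (unmatch μ a) := by
  intro x y hx
  unfold Reach.unmatch at hx
  split_ifs at hx
  exact h x y hx

theorem OppM.join {μ : A → Option A} (h : OppM K μ) (hs : ∀ a b, K.opp a b → K.opp b a)
    {a b : A} (hab : K.opp a b) : OppM K (join μ a b) := by
  intro x y hx
  unfold Reach.join at hx
  split_ifs at hx with h1 h2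
  · cases hx; rw [h1]; exact hab
  · cases hx; rw [h2]; exact hs _ _ hab
  · exact h x y hx

theorem OppM.restrict {μ : A → Option A} (h : OppM K μ) (S : Set A) :
    OppM K (restrict μ S) := by
  intro x y hx
  unfold Reach.restrict at hx
  split_ifs at hx with h1
  rw [Option.filter_eq_some_iff] at hx
  exact h x y hx.1

theorem Emb.blocks (hE : Emb K K' e) {μ : A → Option A} (h : OppM K μ) (a b : A) :
    K'.Blocks (push e μ) (e a) (e b) ↔ K.Blocks μ a b := by
  unfold Market.Blocks
  rw [hE.opp, Ne, push_eq_some hE.inj]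
  constructor
  · rintro ⟨h1, h2, h3, h4⟩
    refine ⟨h1, h2, fun c hc => ?_, fun c hc => ?_⟩
    · exact (hE.pr _ _ _ h1 (h _ _ hc)).1 (h3 _ ((push_eq_some hE.inj).2 hc))
    · exact (hE.pr _ _ _ (hE.symm _ _ h1) (h _ _ hc)).1 (h4 _ ((push_eq_some hE.inj).2 hc))
  · rintro ⟨h1, h2, h3, h4⟩
    refine ⟨h1, h2, fun c hc => ?_, fun c hc => ?_⟩
    · rw [push_apply hE.inj, Option.map_eq_some_iff] at hc
      obtain ⟨c, hc, rfl⟩ := hc
      exact (hE.pr _ _ _ h1 (h _ _ hc)).2 (h3 _ hc)
    · rw [push_apply hE.inj, Option.map_eq_some_iff] at hc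
      obtain ⟨c, hc, rfl⟩ := hc
      exact (hE.pr _ _ _ (hE.symm _ _ h1) (h _ _ hc)).2 (h4 _ hc)

theorem Emb.blocksIn (hE : Emb K K' e) {μ : A → Option A} {S : Set A} (h : OppM K μ) (a b : A) :
    K'.BlocksIn (e '' S) (push e μ) (e a) (e b) ↔ K.BlocksIn S μ a b := by
  unfold Market.BlocksIn
  rw [← push_restrict hE.inj, hE.blocks (h.restrict S), hE.inj.mem_set_image,
    hE.inj.mem_set_image]

theorem Emb.stable (hE : Emb K K' e) {μ : A → Option A} (h : OppM K μ) :
    K'.Stable (push e μ) ↔ K.Stable μ := by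
  constructor
  · intro h1 a b hB
    exact h1 _ _ ((hE.blocks h a b).2 hB)
  · intro h1 x y hB
    obtain ⟨⟨a, rfl⟩, ⟨b, rfl⟩⟩ := hE.range _ _ hB.1
    exact h1 _ _ ((hE.blocks h a b).1 hB)

theorem push_getD (he : Function.Injective e) (μ : A → Option A) (b p : A) :
    (push e μ (e b)).getD (e p) = e ((μ b).getD p) := by
  rw [push_apply he]
  cases μ b <;> rfl

theorem Emb.loop (hE : Emb K K' e) {S : Set A} {μ μ' : A → Option A} {p : A}
    (hL : K.Loop S μ p μ') (h : OppM K μ) :
    K'.Loop (e '' S) (push e μ) (e p) (push e μ') ∧ OppM K μ' := by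
  induction hL with
  | stop μ p h1 =>
    refine ⟨Market.Loop.stop _ _ fun y hy => ?_, h⟩
    obtain ⟨-, ⟨b, rfl⟩⟩ := hE.range _ _ hy.2.2.1
    exact h1 b ((hE.blocksIn h p b).1 hy)
  | next μ p b μ' h1 best rest ih =>
    have h2 : OppM K (Reach.join (Reach.unmatch μ b) p b) :=
      (h.unmatch b).join hE.symm h1.2.2.1
    obtain ⟨h3, h4⟩ := ih h2
    rw [push_join hE.inj, push_unmatch hE.inj, ← push_getD hE.inj] at h3
    refine ⟨Market.Loop.next _ _ _ _ ((hE.blocksIn h p b).2 h1) (fun y hy => ?_) h3, h4⟩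
    obtain ⟨-, ⟨b', rfl⟩⟩ := hE.range _ _ hy.2.2.1
    have h5 := (hE.blocksIn h p b').1 hy
    rcases best b' h5 with h6 | h6
    · exact Or.inl (by rw [h6])
    · exact Or.inr ((hE.pr _ _ _ h1.2.2.1 h5.2.2.1).2 h6)

theorem Emb.loop' (hE : Emb K K' e) {S' : Set B} {ν ν' : B → Option B} {x : B}
    (hL : K'.Loop S' ν x ν') : ∀ (S : Set A) (μ : A → Option A) (p : A), S' = e '' S →
      ν = push e μ → x = e p → OppM K μ → ∃ μ', ν' = push e μ' ∧ K.Loop S μ p μ' ∧ OppM K μ' := by
  induction hL with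
  | stop ν x h1 =>
    rintro S μ p rfl rfl rfl h
    exact ⟨μ, rfl, Market.Loop.stop _ _ fun b hb => h1 (e b) ((hE.blocksIn h p b).2 hb), h⟩
  | next ν x y ν' h1 best rest ih =>
    rintro S μ p rfl rfl rfl h
    obtain ⟨-, ⟨b, rfl⟩⟩ := hE.range _ _ h1.2.2.1
    have h1' := (hE.blocksIn h p b).1 h1
    have h2 : OppM K (Reach.join (Reach.unmatch μ b) p b) :=
      (h.unmatch b).join hE.symm h1'.2.2.1
    obtain ⟨μ', h3, h4, h5⟩ := ih S _ ((μ b).getD p) rfl
      (by rw [push_join hE.inj, push_unmatch hE.inj]) (push_getD hE.inj _ _ _) h2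
    refine ⟨μ', h3, Market.Loop.next _ _ _ _ h1' (fun b' hb' => ?_) h4, h5⟩
    rcases best (e b') ((hE.blocksIn h p b').2 hb') with h6 | h6
    · exact Or.inl (hE.inj h6)
    · exact Or.inr ((hE.pr _ _ _ h1'.2.2.1 hb'.2.2.1).1 h6)

theorem Emb.step (hE : Emb K K' e) {s t : (A → Option A) × Set A} (hst : K.Step s t)
    (h : OppM K s.1) :
    K'.Step (push e s.1, e '' s.2) (push e t.1, e '' t.2) ∧ OppM K t.1 := by
  cases hst with
  | one μ S a b μ' ha hb hab hl =>
    obtain ⟨h1, h2⟩ := hE.loop hl (OppM.unmatch h a)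
    refine ⟨?_, h2⟩
    dsimp only
    rw [Set.image_insert_eq, push_unmatch hE.inj] at h1
    rw [Set.image_insert_eq]
    refine Market.Step.one _ _ (e a) (e b) _ ?_ (Set.mem_image_of_mem _ hb)
      ((hE.blocks h a b).2 hab) h1
    rw [hE.inj.mem_set_image]
    exact ha
  | two μ S m w hno hmw =>
    refine ⟨?_, ((OppM.unmatch h m).unmatch w).join hE.symm hmw.1⟩
    dsimp only
    rw [Set.image_insert_eq, Set.image_insert_eq, push_join hE.inj, push_unmatch hE.inj,
      push_unmatch hE.inj]
    refine Market.Step.two _ _ _ _ (fun x y hx hy hB => ?_) ((hE.blocks h m w).2 hmw)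
    obtain ⟨⟨a, rfl⟩, ⟨b, rfl⟩⟩ := hE.range _ _ hB.1
    rw [hE.inj.mem_set_image] at hx hy
    exact hno a b hx hy ((hE.blocks h a b).1 hB)

theorem Emb.step' (hE : Emb K K' e) {s' t' : (B → Option B) × Set B} (hst : K'.Step s' t')
    (μ : A → Option A) (S : Set A) (hs : s' = (push e μ, e '' S)) (h : OppM K μ) :
    ∃ μ' S', t' = (push e μ', e '' S') ∧ K.Step (μ, S) (μ', S') ∧ OppM K μ' := by
  cases hst with
  | one ν T x y ν' ha hb hab hl =>
    simp only [Prod.mk.injEq] at hs
    obtain ⟨rfl, rfl⟩ := hs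
    obtain ⟨⟨a, rfl⟩, ⟨b, rfl⟩⟩ := hE.range _ _ hab.1
    rw [hE.inj.mem_set_image] at ha hb
    obtain ⟨μ', h1, h2, h3⟩ := hE.loop' hl (insert a S) (unmatch μ a) a
      (Set.image_insert_eq).symm (push_unmatch hE.inj _ _).symm rfl (h.unmatch a)
    refine ⟨μ', insert a S, ?_, Market.Step.one _ _ a b _ ha hb ((hE.blocks h a b).1 hab) h2, h3⟩
    rw [h1, Set.image_insert_eq]
  | two ν T x y hno hmw =>
    simp only [Prod.mk.injEq] at hs
    obtain ⟨rfl, rfl⟩ := hs
    obtain ⟨⟨a, rfl⟩, ⟨b, rfl⟩⟩ := hE.range _ _ hmw.1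
    have hab := (hE.blocks h a b).1 hmw
    refine ⟨_, _, ?_, Market.Step.two _ _ a b (fun c d hc hd hB => ?_) hab,
      ((h.unmatch a).unmatch b).join hE.symm hab.1⟩
    · rw [Set.image_insert_eq, Set.image_insert_eq, push_join hE.inj, push_unmatch hE.inj,
        push_unmatch hE.inj]
    · refine hno (e c) (e d) ?_ (Set.mem_image_of_mem _ hd) ((hE.blocks h c d).2 hB)
      rw [hE.inj.mem_set_image]
      exact hc

/-- Reachability is transported. -/
theorem Emb.stopsAt (hE : Emb K K' e) {μ₀ μ : A → Option A} (h₀ : OppM K μ₀) (h : OppM K μ) :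
    K'.StopsAt (push e μ₀) (push e μ) ↔ K.StopsAt μ₀ μ := by
  unfold Market.StopsAt
  rw [hE.stable h]
  refine and_congr_right fun _ => ?_
  constructor
  · rintro ⟨S', hS'⟩
    have key : ∀ t', Relation.ReflTransGen K'.Step (push e μ₀, ∅) t' →
        ∃ μ' S, t' = (push e μ', e '' S) ∧
          Relation.ReflTransGen K.Step (μ₀, ∅) (μ', S) ∧ OppM K μ' := by
      intro t' ht'
      induction ht' with
      | refl => exact ⟨μ₀, ∅, by simp, Relation.ReflTransGen.refl, h₀⟩
      | tail h1 h2 ih =>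
        obtain ⟨μ', S, h3, h4, h5⟩ := ih
        obtain ⟨μ'', S'', h6, h7, h8⟩ := hE.step' h2 μ' S h3 h5
        exact ⟨μ'', S'', h6, h4.tail h7, h8⟩
    obtain ⟨μ', S, h1, h2, h3⟩ := key _ hS'
    simp only [Prod.mk.injEq] at h1
    have h4 := push_inj hE.inj h1.1
    rw [h4]
    exact ⟨S, h2⟩
  · rintro ⟨S, hS⟩
    have key : ∀ t, Relation.ReflTransGen K.Step (μ₀, ∅) t →
        Relation.ReflTransGen K'.Step (push e μ₀, ∅) (push e t.1, e '' t.2) ∧ OppM K t.1 := by
      intro t ht
      induction ht with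
      | refl => exact ⟨by rw [Set.image_empty], h₀⟩
      | tail h1 h2 ih =>
        obtain ⟨h3, h4⟩ := hE.step h2 ih.2
        exact ⟨ih.1.tail h3, h4⟩
    exact ⟨e '' S, (key _ hS).1⟩

end Pool.Agent.Reach
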